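import Pool.Agent.P.MP_0cf84d_an.DDefs

-- part Pool.Agent.P.MP_0cf84d_an.DBase
section

/-! Working definitions for the dichotomy theorem. -/

set_option linter.unusedSectionVars false
set_option linter.unusedVariables false

namespace Pool.Agent.P.MP_0cf84d_an

open MeasureTheory Filter Topology Metric Set Module
open scoped RealInnerProductSpace ENNReal NNReal

variable {V : Type*} [NormedAddCommGroup V] [InnerProductSpace ℝ V] [FiniteDimensional ℝ V]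
  [MeasurableSpace V] [BorelSpace V] [CompleteSpace V] {Ω : Set V}

/-- Lebesgue measure on `Ω` -/
noncomputable abbrev mm (Ω : Set V) : Measure V := volume.restrict Ω

/-- open, bounded, dimension at least two -/
structure OB (Ω : Set V) : Prop where
  op : IsOpen Ω
  bd : Bornology.IsBounded Ω
  dim : 2 ≤ finrank ℝ V

/-- smooth test functions -/
def Tst (Ω : Set V) (φ : V → ℝ) : Prop :=
  ContDiff ℝ (⊤ : ℕ∞) φ ∧ HasCompactSupport φ ∧ tsupport φ ⊆ Ω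

/-- bounded elements of `H^1_0` -/
def TT (Ω : Set V) (v : V → ℝ) (H : V → V) : Prop := InH10 Ω v H ∧ MemLp v ⊤ (mm Ω)

/-- `-div G ≥ f` -/
structure WGe (Ω : Set V) (G : V → V) (f : V → ℝ) : Prop where
  l2 : MemLp G 2 (mm Ω)
  l1 : Integrable f (mm Ω)
  le : ∀ v H, TT Ω v H → (∀ᵐ x ∂mm Ω, 0 ≤ v x) →
    ∫ x, f x * v x ∂mm Ω ≤ ∫ x, ⟪G x, H x⟫ ∂mm Ω

/-- `-div G = f` -/
structure WEq (Ω : Set V) (G : V → V) (f : V → ℝ) : Prop where
  l2 : MemLp G 2 (mm Ω)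
  l1 : Integrable f (mm Ω)
  eq : ∀ v H, TT Ω v H → ∫ x, ⟪G x, H x⟫ ∂mm Ω = ∫ x, f x * v x ∂mm Ω

/-- `W` is `C^1` in `Ω` with gradient `F`, both are bounded -/
structure Reg (Ω : Set V) (W : V → ℝ) (F : V → V) : Prop where
  grad : ∀ x ∈ Ω, HasGradientAt W (F x) x
  cont : ContinuousOn F Ω
  bdd : ∃ C, ∀ x ∈ Ω, |W x| ≤ C ∧ ‖F x‖ ≤ C

/-- convergence in `L^2` -/
def L2T {α E : Type*} [MeasurableSpace α] [NormedAddCommGroup E] (m : Measure α)
    (f : ℕ → α → E) (g : α → E) : Prop :=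
  (∀ n, MemLp (f n) 2 m) ∧ MemLp g 2 m ∧
    Tendsto (fun n => ∫ x, ‖f n x - g x‖ ^ 2 ∂m) atTop (𝓝 0)

/-- distance to the complement -/
noncomputable def dd (Ω : Set V) (x : V) : ℝ := infDist x Ωᶜ

/-- exterior balls -/
def ExtB (Ω : Set V) (r : ℝ) : Prop :=
  ∀ x ∈ Ω, ∃ y, (∀ z ∈ Ω, r ≤ ‖z - y‖) ∧ ‖x - y‖ ≤ r + dd Ω x

/-- interior balls -/
def IntB (Ω : Set V) (r : ℝ) : Prop :=
  ∀ x ∈ Ω, dd Ω x < r → ∃ y, ball y r ⊆ Ω ∧ ‖x - y‖ ≤ r - dd Ω x

/-- two balls that touch the boundary at `x₀` -/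
def TwoB (Ω : Set V) (r : ℝ) (x₀ : V) : Prop :=
  ∃ ν : V, ‖ν‖ = 1 ∧ ball (x₀ - r • ν) r ⊆ Ω ∧ ∀ z ∈ Ω, r ≤ ‖z - (x₀ + r • ν)‖

/-- the data -/
structure Dat (Ω : Set V) (q : ℝ) (c h μ : V → ℝ) (μ₁ μ₂ : ℝ) : Prop where
  hq : (finrank ℝ V : ℝ) < q
  cq : MemLp c (ENNReal.ofReal q) (mm Ω)
  hh : MemLp h (ENNReal.ofReal q) (mm Ω)
  c0 : ∀ᵐ x ∂mm Ω, 0 ≤ c x
  mum : AEStronglyMeasurable μ (mm Ω)
  pos : 0 < μ₁
  le : μ₁ ≤ μ₂
  mu : ∀ᵐ x ∂mm Ω, μ₁ ≤ μ x ∧ μ x ≤ μ₂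

/-- the right side of the equation with Hamiltonian `Hk` -/
def rhs (c h μ : V → ℝ) (l : ℝ) (Hk : V → ℝ) (u : V → ℝ) (G : V → V) (x : V) : ℝ :=
  l * (c x * u x) + μ x * Hk (G x) + h x

/-- the quadratic Hamiltonian -/
def H2 (p : V) : ℝ := ‖p‖ ^ 2

/-- the truncated Hamiltonian -/
def HH (k : ℝ) (p : V) : ℝ := min (‖p‖ ^ 2) (k ^ 2)

/-- subsolutions of `-Δ u = g` are dominated by `v` -/
def Dom (Ω : Set V) (q : ℝ) (v : V → ℝ) : Prop :=
  ∀ g : V → ℝ, MemLp g (ENNReal.ofReal q) (mm Ω) → (∀ᵐ x ∂mm Ω, 0 ≤ g x) →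
    ∃ C, 0 ≤ C ∧ ∀ u G, InH10 Ω u G → WGe Ω (fun x => -G x) (fun x => -g x) →
      ∀ᵐ x ∂mm Ω, u x ≤ C * v x

/-- the norm of `L^q` -/
noncomputable def nq (Ω : Set V) (q : ℝ) (g : V → ℝ) : ℝ :=
  (eLpNorm g (ENNReal.ofReal q) (mm Ω)).toReal

/-- the regularised Newton kernel as a function of the square of the distance -/
noncomputable def kap (N : ℕ) (D ε s : ℝ) : ℝ := 1 / 2 * ∫ t in s..D, (t + ε) ^ (-(N : ℝ) / 2)

/-- minus its Laplacian -/
noncomputable def rho (N : ℕ) (ε s : ℝ) : ℝ := N * ε * (s + ε) ^ (-(N : ℝ) / 2 - 1)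

/-- the reflected square distance -/
noncomputable def rb (y : V) (r : ℝ) (z x : V) : ℝ :=
  ‖x - z‖ ^ 2 + (‖x - y‖ ^ 2 - r ^ 2) * (‖z - y‖ ^ 2 - r ^ 2) / r ^ 2

/-- a convex combination of exponentials -/
noncomputable def VV (θ a b : ℝ) : ℝ := (1 - θ) * Real.exp a + θ * Real.exp b

/-- the weight of the second term -/
noncomputable def sg (θ a b : ℝ) : ℝ := θ * Real.exp b / VV θ a b

theorem OB.fin (h : OB Ω) : IsFiniteMeasure (mm Ω) :=
  isFiniteMeasure_restrict.2 h.bd.measure_lt_top.ne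

theorem OB.mem (h : OB Ω) : ∀ᵐ x ∂mm Ω, x ∈ Ω := ae_restrict_mem h.op.measurableSet

theorem OB.radius (h : OB Ω) (y : V) : ∃ R, 0 < R ∧ ∀ x ∈ Ω, ‖x - y‖ ≤ R := by
  obtain ⟨R, hR, h1⟩ := h.bd.subset_closedBall_lt 0 y
  exact ⟨R, hR, fun x hx => mem_closedBall_iff_norm.1 (h1 hx)⟩

theorem OB.two_of_q (hΩ : OB Ω) {q : ℝ} (hq : (finrank ℝ V : ℝ) < q) {g : V → ℝ}
    (hg : MemLp g (ENNReal.ofReal q) (mm Ω)) : MemLp g 2 (mm Ω) := by
  have := hΩ.fin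
  have h2 : (2 : ℝ) ≤ finrank ℝ V := by exact_mod_cast hΩ.dim
  refine hg.mono_exponent ?_
  rw [← ENNReal.ofReal_ofNat]
  exact ENNReal.ofReal_le_ofReal (by linarith)

theorem OB.memLp_of_bdd (hΩ : OB Ω) {E : Type*} [NormedAddCommGroup E] {f : V → E}
    (hf : ContinuousOn f Ω) {C : ℝ} (hC : ∀ x ∈ Ω, ‖f x‖ ≤ C) (p : ℝ≥0∞) : MemLp f p (mm Ω) := by
  have := hΩ.fin
  exact MemLp.of_bound (hf.aestronglyMeasurable hΩ.op.measurableSet) C (hΩ.mem.mono hC)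

theorem Reg.contW {W : V → ℝ} {F : V → V} (h : Reg Ω W F) : ContinuousOn W Ω :=
  fun x hx => (h.grad x hx).continuousAt.continuousWithinAt

theorem Reg.memW (hΩ : OB Ω) {W : V → ℝ} {F : V → V} (h : Reg Ω W F) (p : ℝ≥0∞) :
    MemLp W p (mm Ω) := by
  obtain ⟨C, hC⟩ := h.bdd
  exact hΩ.memLp_of_bdd h.contW (fun x hx => (hC x hx).1) p

theorem Reg.memF (hΩ : OB Ω) {W : V → ℝ} {F : V → V} (h : Reg Ω W F) (p : ℝ≥0∞) :
    MemLp F p (mm Ω) := by
  obtain ⟨C, hC⟩ := h.bdd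
  exact hΩ.memLp_of_bdd h.cont (fun x hx => (hC x hx).2) p

theorem reg_const (Ω : Set V) (a : ℝ) : Reg Ω (fun _ => a) (fun _ => 0) :=
  ⟨fun x _ => hasGradientAt_const x a, continuousOn_const,
    |a|, fun _ _ => ⟨le_rfl, by simp⟩⟩

theorem Reg.add {W W' : V → ℝ} {F F' : V → V} (h : Reg Ω W F) (h' : Reg Ω W' F') :
    Reg Ω (fun x => W x + W' x) (fun x => F x + F' x) := by
  obtain ⟨C, hC⟩ := h.bdd
  obtain ⟨C', hC'⟩ := h'.bdd
  refine ⟨fun x hx => ?_, h.cont.add h'.cont, C + C', fun x hx => ⟨(abs_add_le _ _).trans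
    (add_le_add (hC x hx).1 (hC' x hx).1), (norm_add_le _ _).trans
    (add_le_add (hC x hx).2 (hC' x hx).2)⟩⟩
  have h1 := (h.grad x hx).hasFDerivAt.add (h'.grad x hx).hasFDerivAt
  rw [← map_add] at h1
  exact hasGradientAt_iff_hasFDerivAt.2 h1

theorem Reg.smul {W : V → ℝ} {F : V → V} (h : Reg Ω W F) (a : ℝ) :
    Reg Ω (fun x => a * W x) (fun x => a • F x) := by
  obtain ⟨C, hC⟩ := h.bdd
  refine ⟨fun x hx => ?_, h.cont.const_smul a, |a| * C, fun x hx => ⟨?_, ?_⟩⟩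
  · have h1 := (h.grad x hx).hasFDerivAt.const_mul a
    refine hasGradientAt_iff_hasFDerivAt.2 (h1.congr_fderiv ?_)
    ext v
    simp
  · rw [abs_mul]
    exact mul_le_mul_of_nonneg_left (hC x hx).1 (abs_nonneg a)
  · rw [norm_smul]
    exact mul_le_mul_of_nonneg_left (hC x hx).2 (abs_nonneg a)

end Pool.Agent.P.MP_0cf84d_an
end

-- part Pool.Agent.P.MP_0cf84d_an.DL2
section

/-! Convergence in `L^2`. -/

set_option linter.unusedSectionVars false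
set_option linter.unusedVariables false

namespace Pool.Agent.P.MP_0cf84d_an

open MeasureTheory Filter Topology Metric Set Module
open scoped RealInnerProductSpace ENNReal NNReal

variable {V : Type*} [NormedAddCommGroup V] [InnerProductSpace ℝ V] [FiniteDimensional ℝ V]
  [MeasurableSpace V] [BorelSpace V] [CompleteSpace V] {Ω : Set V}

section
variable {α E E' : Type*} [MeasurableSpace α] {m : Measure α} [NormedAddCommGroup E]
  [NormedAddCommGroup E'] {f f' : ℕ → α → E} {g g' : α → E}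

theorem dl2_int (hg : MemLp g 2 m) : Integrable (fun x => ‖g x‖ ^ 2) m := hg.norm.integrable_sq

theorem dl2_sq (hg : MemLp g 2 m) : ∫ x, ‖g x‖ ^ 2 ∂m = (eLpNorm g 2 m).toReal ^ 2 := by
  have h0 : 0 ≤ ∫ x, ‖g x‖ ^ 2 ∂m := integral_nonneg fun x => sq_nonneg _
  rw [hg.eLpNorm_eq_integral_rpow_norm two_ne_zero ENNReal.ofNat_ne_top]
  simp only [ENNReal.toReal_ofNat, Real.rpow_two]
  rw [ENNReal.toReal_ofReal (Real.rpow_nonneg h0 _)]
  exact (Real.rpow_inv_natCast_pow h0 two_ne_zero).symm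

theorem dl2_dist (hg : MemLp g 2 m) (hg' : MemLp g' 2 m) :
    ∫ x, ‖g x - g' x‖ ^ 2 ∂m = dist (hg.toLp g) (hg'.toLp g') ^ 2 := by
  rw [dist_eq_norm, ← MemLp.toLp_sub, Lp.norm_toLp]
  exact dl2_sq (hg.sub hg')

theorem dl2_lp (hf : ∀ n, MemLp (f n) 2 m) (hg : MemLp g 2 m) :
    L2T m f g ↔ Tendsto (fun n => (hf n).toLp (f n)) atTop (𝓝 (hg.toLp g)) := by
  have e : (fun n => ∫ x, ‖f n x - g x‖ ^ 2 ∂m) =
      fun n => dist ((hf n).toLp (f n)) (hg.toLp g) ^ 2 := funext fun n => dl2_dist (hf n) hg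
  rw [tendsto_iff_dist_tendsto_zero, L2T, e]
  refine ⟨fun h => ?_, fun h => ⟨hf, hg, by simpa using h.pow 2⟩⟩
  simpa only [Real.sqrt_sq dist_nonneg, Real.sqrt_zero] using h.2.2.sqrt

theorem dl2_inner {F : Type*} [NormedAddCommGroup F] [InnerProductSpace ℝ F] {a b : ℕ → α → F}
    {a' b' : α → F} (h : L2T m a a') (h' : L2T m b b') :
    Tendsto (fun n => ∫ x, ⟪a n x, b n x⟫ ∂m) atTop (𝓝 (∫ x, ⟪a' x, b' x⟫ ∂m)) := by
  have h2 := Filter.Tendsto.inner (𝕜 := ℝ) ((dl2_lp h.1 h.2.1).1 h) ((dl2_lp h'.1 h'.2.1).1 h')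
  have e : ∀ {k l : α → F} (hk : MemLp k 2 m) (hl : MemLp l 2 m),
      ⟪hk.toLp k, hl.toLp l⟫ = ∫ x, ⟪k x, l x⟫ ∂m := by
    intro k l hk hl
    rw [L2.inner_def]
    refine integral_congr_ae ?_
    filter_upwards [hk.coeFn_toLp, hl.coeFn_toLp] with x h1 h2
    rw [h1, h2]
  simpa only [e] using h2

theorem l2t_iff (hf : ∀ n, MemLp (f n) 2 m) (hg : MemLp g 2 m) :
    L2T m f g ↔ Tendsto (fun n => eLpNorm (f n - g) 2 m) atTop (𝓝 0) := by
  rw [dl2_lp hf hg, Lp.tendsto_Lp_iff_tendsto_eLpNorm'']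

theorem l2t_of_dom (hf : ∀ n, AEStronglyMeasurable (f n) m) {b : α → ℝ} (hb : MemLp b 2 m)
    (hle : ∀ n, ∀ᵐ x ∂m, ‖f n x‖ ≤ b x)
    (h : ∀ᵐ x ∂m, Tendsto (fun n => f n x) atTop (𝓝 (g x))) : L2T m f g := by
  have hgm : AEStronglyMeasurable g m := aestronglyMeasurable_of_tendsto_ae atTop hf h
  have hgb : ∀ᵐ x ∂m, ‖g x‖ ≤ b x := by
    filter_upwards [ae_all_iff.2 hle, h] with x h1 h2
    exact le_of_tendsto' h2.norm h1
  have hm : ∀ {k : α → E}, AEStronglyMeasurable k m → (∀ᵐ x ∂m, ‖k x‖ ≤ b x) → MemLp k 2 m :=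
    fun hk h1 => hb.of_le hk (h1.mono fun x hx => hx.trans (le_abs_self _))
  refine ⟨fun n => hm (hf n) (hle n), hm hgm hgb, ?_⟩
  have := tendsto_integral_of_dominated_convergence (μ := m)
    (F := fun n x => ‖f n x - g x‖ ^ 2) (f := fun _ => (0 : ℝ)) (fun x => 4 * b x ^ 2)
    (fun n => ((hf n).sub hgm).norm.pow 2) (hb.integrable_sq.const_mul 4) (fun n => by
      filter_upwards [hle n, hgb] with x h1 h2
      rw [Real.norm_of_nonneg (sq_nonneg _)]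
      have := pow_le_pow_left₀ (norm_nonneg _) ((norm_sub_le _ _).trans (add_le_add h1 h2)) 2
      linarith) (by
      filter_upwards [h] with x hx
      simpa using (tendsto_iff_norm_sub_tendsto_zero.1 hx).pow 2)
  simpa using this

theorem l2t_const (hg : MemLp g 2 m) : L2T m (fun _ => g) g :=
  ⟨fun _ => hg, hg, by simp⟩

theorem L2T.subseq (h : L2T m f g) : ∃ φ : ℕ → ℕ, StrictMono φ ∧
    ∀ᵐ x ∂m, Tendsto (fun n => f (φ n) x) atTop (𝓝 (g x)) :=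
  (tendstoInMeasure_of_tendsto_eLpNorm two_ne_zero (fun n => (h.1 n).1) h.2.1.1
    ((l2t_iff h.1 h.2.1).1 h)).exists_seq_tendsto_ae

theorem L2T.comp (h : L2T m f g) {φ : ℕ → ℕ} (hφ : Tendsto φ atTop atTop) :
    L2T m (fun n => f (φ n)) g :=
  ⟨fun n => h.1 (φ n), h.2.1, h.2.2.comp hφ⟩

theorem L2T.of_le (h : L2T m f g) {k : ℕ → α → E'} {l : α → E'} (hk : ∀ n, MemLp (k n) 2 m)
    (hl : MemLp l 2 m) (C : ℝ) (hle : ∀ n, ∀ᵐ x ∂m, ‖k n x - l x‖ ≤ C * ‖f n x - g x‖) :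
    L2T m k l := by
  refine ⟨hk, hl, squeeze_zero (fun n => integral_nonneg fun x => sq_nonneg _)
    (g := fun n => C ^ 2 * ∫ x, ‖f n x - g x‖ ^ 2 ∂m) (fun n => ?_)
    (by simpa using h.2.2.const_mul (C ^ 2))⟩
  rw [← integral_const_mul]
  refine integral_mono_ae (dl2_int ((hk n).sub hl)) ((dl2_int ((h.1 n).sub h.2.1)).const_mul _) ?_
  filter_upwards [hle n] with x hx
  rw [← mul_pow]
  exact pow_le_pow_left₀ (norm_nonneg _) hx 2

theorem L2T.add (h : L2T m f g) (h' : L2T m f' g') :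
    L2T m (fun n x => f n x + f' n x) (fun x => g x + g' x) :=
  (dl2_lp (fun n => (h.1 n).add (h'.1 n)) (h.2.1.add h'.2.1)).2
    (((dl2_lp h.1 h.2.1).1 h).add ((dl2_lp h'.1 h'.2.1).1 h'))

theorem L2T.sub (h : L2T m f g) (h' : L2T m f' g') :
    L2T m (fun n x => f n x - f' n x) (fun x => g x - g' x) :=
  (dl2_lp (fun n => (h.1 n).sub (h'.1 n)) (h.2.1.sub h'.2.1)).2
    (((dl2_lp h.1 h.2.1).1 h).sub ((dl2_lp h'.1 h'.2.1).1 h'))

theorem L2T.congr (h : L2T m f g) (hf : ∀ n, f n =ᵐ[m] f' n) (hg : g =ᵐ[m] g') :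
    L2T m f' g' := by
  refine ⟨fun n => (h.1 n).ae_eq (hf n), h.2.1.ae_eq hg, h.2.2.congr fun n => ?_⟩
  refine integral_congr_ae ?_
  filter_upwards [hf n, hg] with x h1 h2
  rw [h1, h2]

theorem exists_l2t [CompleteSpace E] (hf : ∀ n, MemLp (f n) 2 m)
    (h : ∀ ε : ℝ, 0 < ε → ∃ N, ∀ i j, N ≤ i → i ≤ j → ∫ x, ‖f j x - f i x‖ ^ 2 ∂m ≤ ε) :
    ∃ g, L2T m f g := by
  have hc : CauchySeq fun n => (hf n).toLp (f n) := by
    refine Metric.cauchySeq_iff'.2 fun ε hε => ?_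
    obtain ⟨N, hN⟩ := h ((ε / 2) ^ 2) (by positivity)
    refine ⟨N, fun n hn => ?_⟩
    have h1 := hN N n le_rfl hn
    rw [dl2_dist (hf n) (hf N)] at h1
    have := le_of_sq_le_sq h1 (by positivity)
    linarith
  obtain ⟨G, hG⟩ := cauchySeq_tendsto_of_complete hc
  refine ⟨G, (dl2_lp hf (Lp.memLp G)).2 ?_⟩
  rwa [Lp.toLp_coeFn]

theorem L2T.cauchy (h : L2T m f g) {ε : ℝ} (hε : 0 < ε) :
    ∃ N, ∀ i j, N ≤ i → N ≤ j → ∫ x, ‖f j x - f i x‖ ^ 2 ∂m ≤ ε := by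
  obtain ⟨N, hN⟩ := Metric.cauchySeq_iff.1 ((dl2_lp h.1 h.2.1).1 h).cauchySeq (√ε)
    (Real.sqrt_pos.2 hε)
  refine ⟨N, fun i j hi hj => ?_⟩
  rw [dl2_dist (h.1 j) (h.1 i), ← Real.sq_sqrt hε.le]
  exact pow_le_pow_left₀ dist_nonneg (hN j hj i hi).le 2

theorem int_sq (hg : MemLp g 2 m) : Integrable (fun x => ‖g x‖ ^ 2) m := dl2_int hg

theorem int_mul {a b : α → ℝ} (ha : MemLp a 2 m) (hb : MemLp b 2 m) :
    Integrable (fun x => a x * b x) m := memLp_one_iff_integrable.1 (hb.mul' ha)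

theorem int_mul_top {a b : α → ℝ} (ha : Integrable a m) (hb : MemLp b ⊤ m) :
    Integrable (fun x => a x * b x) m :=
  memLp_one_iff_integrable.1 (hb.mul' (memLp_one_iff_integrable.2 ha))

theorem memLp_mul_top {p : ℝ≥0∞} {a b : α → ℝ} (ha : MemLp a p m) (hb : MemLp b ⊤ m) :
    MemLp (fun x => a x * b x) p m := hb.mul' ha

theorem memLp_top_smul [NormedSpace ℝ E] {p : ℝ≥0∞} {b : α → ℝ} (hb : MemLp b ⊤ m)
    (hg : MemLp g p m) : MemLp (fun x => b x • g x) p m := hg.smul hb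

theorem top_bound {b : α → ℝ} (hb : MemLp b ⊤ m) : ∃ M, 0 < M ∧ ∀ᵐ x ∂m, |b x| ≤ M := by
  refine ⟨(eLpNormEssSup b m).toReal + 1, by positivity, ?_⟩
  have h1 : eLpNormEssSup b m ≠ ⊤ := by
    rw [← eLpNorm_exponent_top]
    exact hb.2.ne
  filter_upwards [ae_le_eLpNormEssSup (f := b) (μ := m)] with x hx
  have := ENNReal.toReal_mono h1 hx
  rw [toReal_enorm, Real.norm_eq_abs] at this
  linarith

/-- a continuous function of a bounded function is bounded -/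
theorem memLp_top_comp {b : α → ℝ} (hb : AEStronglyMeasurable b m) {s t : ℝ}
    (h : ∀ᵐ x ∂m, b x ∈ Icc s t) {P : ℝ → ℝ} (hP : ContinuousOn P (Icc s t)) :
    MemLp (fun x => P (b x)) ⊤ m := by
  obtain ⟨C, hC⟩ := isCompact_Icc.exists_bound_of_continuousOn hP
  refine memLp_top_of_bound ?_ C (h.mono fun x hx => hC _ hx)
  rcases le_or_gt s t with hst | hst
  · have hc : Continuous fun y => P (projIcc s t hst y) :=
      hP.domRestrict.comp (continuous_projIcc (h := hst))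
    refine (hc.comp_aestronglyMeasurable hb).congr (h.mono fun x hx => ?_)
    simp only [projIcc_of_mem hst hx]
  · refine (aestronglyMeasurable_const (b := (0 : ℝ))).congr (h.mono fun x hx => ?_)
    exact absurd (hx.1.trans hx.2) (not_le.2 hst)

theorem L2T.mul {a b : ℕ → α → ℝ} {a' b' : α → ℝ} (h : L2T m a a') (h' : L2T m b b') :
    Tendsto (fun n => ∫ x, a n x * b n x ∂m) atTop (𝓝 (∫ x, a' x * b' x ∂m)) := by
  simpa [mul_comm] using dl2_inner h h'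

end

section
variable {α E : Type*} [MeasurableSpace α] {m : Measure α} [NormedAddCommGroup E]
  [InnerProductSpace ℝ E] {f f' : ℕ → α → E} {g g' : α → E}

theorem int_inner (hg : MemLp g 2 m) (hg' : MemLp g' 2 m) :
    Integrable (fun x => ⟪g x, g' x⟫) m := by
  refine (L2.integrable_inner (𝕜 := ℝ) (hg.toLp g) (hg'.toLp g')).congr ?_
  filter_upwards [hg.coeFn_toLp, hg'.coeFn_toLp] with x h1 h2
  rw [h1, h2]

theorem L2T.inner (h : L2T m f g) (h' : L2T m f' g') :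
    Tendsto (fun n => ∫ x, ⟪f n x, f' n x⟫ ∂m) atTop (𝓝 (∫ x, ⟪g x, g' x⟫ ∂m)) :=
  dl2_inner h h'

end

end Pool.Agent.P.MP_0cf84d_an
end

-- part Pool.Agent.P.MP_0cf84d_an.DSob
section

/-! The space `H^1_0`: linear structure and limits. -/

set_option linter.unusedSectionVars false
set_option linter.unusedVariables false

namespace Pool.Agent.P.MP_0cf84d_an

open MeasureTheory Filter Topology Metric Set Module
open scoped RealInnerProductSpace ENNReal NNReal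

variable {V : Type*} [NormedAddCommGroup V] [InnerProductSpace ℝ V] [FiniteDimensional ℝ V]
  [MeasurableSpace V] [BorelSpace V] [CompleteSpace V] {Ω : Set V}

variable {u v : V → ℝ} {G H : V → V}

theorem dsob_reg {φ : V → ℝ} (h : Tst Ω φ) (O : Set V) : Reg O φ (gradient φ) := by
  have hc : Continuous (gradient φ) :=
    (InnerProductSpace.toDual ℝ V).symm.continuous.comp (h.1.continuous_fderiv (by simp))
  have hs : HasCompactSupport (gradient φ) :=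
    (h.2.1.fderiv (𝕜 := ℝ)).comp_left (g := (InnerProductSpace.toDual ℝ V).symm) (map_zero _)
  obtain ⟨C, hC⟩ := h.1.continuous.bounded_above_of_compact_support h.2.1
  obtain ⟨C', hC'⟩ := hc.bounded_above_of_compact_support hs
  exact ⟨fun x _ => (h.1.differentiable (by simp) x).hasGradientAt, hc.continuousOn, max C C',
    fun x _ => ⟨(hC x).trans (le_max_left _ _), (hC' x).trans (le_max_right _ _)⟩⟩

theorem dsob_mk {φ : ℕ → V → ℝ} (h : ∀ n, Tst Ω (φ n)) (h1 : L2T (mm Ω) φ u)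
    (h2 : L2T (mm Ω) (fun n => gradient (φ n)) G) : InH10 Ω u G :=
  ⟨h1.2.1, h2.2.1, φ, h, (l2t_iff h1.1 h1.2.1).1 h1, (l2t_iff h2.1 h2.2.1).1 h2⟩

theorem Tst.mem (hΩ : OB Ω) {φ : V → ℝ} (h : Tst Ω φ) : TT Ω φ (gradient φ) :=
  ⟨dsob_mk (fun _ => h) (l2t_const ((dsob_reg h Ω).memW hΩ 2))
    (l2t_const ((dsob_reg h Ω).memF hΩ 2)), (dsob_reg h Ω).memW hΩ ⊤⟩

theorem Tst.reg {φ : V → ℝ} (h : Tst Ω φ) : Reg Ω φ (gradient φ) := dsob_reg h Ω

theorem InH10.approx (hΩ : OB Ω) (h : InH10 Ω u G) : ∃ φ : ℕ → V → ℝ, (∀ n, Tst Ω (φ n)) ∧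
    L2T (mm Ω) φ u ∧ L2T (mm Ω) (fun n => gradient (φ n)) G := by
  obtain ⟨h1, h2, φ, hφ, h3, h4⟩ := h
  exact ⟨φ, hφ, (l2t_iff (fun n => (dsob_reg (hφ n) Ω).memW hΩ 2) h1).2 h3,
    (l2t_iff (fun n => (dsob_reg (hφ n) Ω).memF hΩ 2) h2).2 h4⟩

theorem dsob_near {α E : Type*} [MeasurableSpace α] {m : Measure α} [NormedAddCommGroup E]
    {f k : ℕ → α → E} {g : α → E} (h : L2T m f g) (hk : ∀ n, MemLp (k n) 2 m)
    (hle : ∀ n : ℕ, ∫ x, ‖k n x - f n x‖ ^ 2 ∂m ≤ 1 / ((n : ℝ) + 1)) : L2T m k g := by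
  have h0 : L2T m (fun n x => k n x - f n x) (fun _ => 0) := by
    refine ⟨fun n => (hk n).sub (h.1 n), MemLp.zero, ?_⟩
    simp only [sub_zero]
    exact squeeze_zero (fun n => integral_nonneg fun x => sq_nonneg _) hle
      tendsto_one_div_add_atTop_nhds_zero_nat
  exact (h0.add h).congr (fun n => Eventually.of_forall fun x => sub_add_cancel _ _)
    (Eventually.of_forall fun x => zero_add _)

theorem inH10_limit (hΩ : OB Ω) {w : ℕ → V → ℝ} {D : ℕ → V → V} (h : ∀ n, InH10 Ω (w n) (D n))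
    (h1 : L2T (mm Ω) w u) (h2 : L2T (mm Ω) D G) : InH10 Ω u G := by
  have key : ∀ n : ℕ, ∃ φ, Tst Ω φ ∧ ∫ x, ‖φ x - w n x‖ ^ 2 ∂mm Ω ≤ 1 / ((n : ℝ) + 1) ∧
      ∫ x, ‖gradient φ x - D n x‖ ^ 2 ∂mm Ω ≤ 1 / ((n : ℝ) + 1) := by
    intro n
    obtain ⟨φ, hφ, a1, a2⟩ := (h n).approx hΩ
    have hp : (0 : ℝ) < 1 / ((n : ℝ) + 1) := by positivity
    obtain ⟨k, b1, b2⟩ := ((a1.2.2.eventually (ge_mem_nhds hp)).and
      (a2.2.2.eventually (ge_mem_nhds hp))).exists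
    exact ⟨φ k, hφ k, b1, b2⟩
  choose φ hφ b1 b2 using key
  exact dsob_mk hφ (dsob_near h1 (fun n => (dsob_reg (hφ n) Ω).memW hΩ 2) b1)
    (dsob_near h2 (fun n => (dsob_reg (hφ n) Ω).memF hΩ 2) b2)

theorem InH10.congr (h : InH10 Ω u G) (h1 : u =ᵐ[mm Ω] v) (h2 : G =ᵐ[mm Ω] H) : InH10 Ω v H := by
  obtain ⟨a1, a2, φ, hφ, a3, a4⟩ := h
  refine ⟨a1.ae_eq h1, a2.ae_eq h2, φ, hφ, a3.congr fun n => ?_, a4.congr fun n => ?_⟩
  · exact eLpNorm_congr_ae (EventuallyEq.rfl.sub h1)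
  · exact eLpNorm_congr_ae (EventuallyEq.rfl.sub h2)

theorem inH10_zero (Ω : Set V) : InH10 Ω (fun _ => 0) (fun _ => 0) := by
  have h1 : MemLp (fun _ : V => (0 : ℝ)) 2 (mm Ω) := MemLp.zero
  have h2 : MemLp (fun _ : V => (0 : V)) 2 (mm Ω) := MemLp.zero
  have h3 : Tst Ω fun _ => 0 := ⟨contDiff_const, HasCompactSupport.zero, by simp⟩
  have h4 : gradient (fun _ : V => (0 : ℝ)) = fun _ => 0 :=
    funext fun x => (hasGradientAt_const x (0 : ℝ)).gradient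
  exact dsob_mk (fun _ => h3) (l2t_const h1) (by rw [h4]; exact l2t_const h2)

theorem InH10.add (hΩ : OB Ω) (h : InH10 Ω u G) (h' : InH10 Ω v H) :
    InH10 Ω (fun x => u x + v x) (fun x => G x + H x) := by
  obtain ⟨φ, hφ, a1, a2⟩ := h.approx hΩ
  obtain ⟨ψ, hψ, b1, b2⟩ := h'.approx hΩ
  refine dsob_mk (φ := fun n x => φ n x + ψ n x) (fun n => ⟨(hφ n).1.add (hψ n).1,
    (hφ n).2.1.add (hψ n).2.1, (tsupport_add _ _).trans (union_subset (hφ n).2.2 (hψ n).2.2)⟩)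
    (a1.add b1) ((a2.add b2).congr (fun n => Eventually.of_forall fun x => ?_) EventuallyEq.rfl)
  exact (((dsob_reg (hφ n) univ).add (dsob_reg (hψ n) univ)).grad x trivial).gradient.symm

theorem InH10.smul (hΩ : OB Ω) (h : InH10 Ω u G) (a : ℝ) :
    InH10 Ω (fun x => a * u x) (fun x => a • G x) := by
  obtain ⟨φ, hφ, a1, a2⟩ := h.approx hΩ
  have b2 : L2T (mm Ω) (fun n x => a • gradient (φ n) x) (fun x => a • G x) :=
    a2.of_le (fun n => (a2.1 n).const_smul a) (a2.2.1.const_smul a) |a| fun n =>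
      Eventually.of_forall fun x => by rw [← smul_sub, norm_smul, Real.norm_eq_abs]
  refine dsob_mk (φ := fun n x => a * φ n x) (fun n => ⟨contDiff_const.mul (hφ n).1,
    (hφ n).2.1.mul_left, tsupport_mul_subset_right.trans (hφ n).2.2⟩)
    (a1.of_le (fun n => (a1.1 n).const_mul a) (a1.2.1.const_mul a) |a| fun n =>
      Eventually.of_forall fun x => by rw [← mul_sub, norm_mul, Real.norm_eq_abs])
    (b2.congr (fun n => Eventually.of_forall fun x => ?_) EventuallyEq.rfl)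
  exact (((dsob_reg (hφ n) univ).smul a).grad x trivial).gradient.symm

theorem InH10.neg (hΩ : OB Ω) (h : InH10 Ω u G) : InH10 Ω (fun x => -u x) (fun x => -G x) := by
  simpa using h.smul hΩ (-1)

theorem InH10.sub (hΩ : OB Ω) (h : InH10 Ω u G) (h' : InH10 Ω v H) :
    InH10 Ω (fun x => u x - v x) (fun x => G x - H x) := by
  simpa only [sub_eq_add_neg] using h.add hΩ (h'.neg hΩ)

theorem TT.congr (h : TT Ω u G) (h1 : u =ᵐ[mm Ω] v) (h2 : G =ᵐ[mm Ω] H) : TT Ω v H :=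
  ⟨h.1.congr h1 h2, h.2.ae_eq h1⟩

theorem tt_zero (Ω : Set V) : TT Ω (fun _ => 0) (fun _ => 0) :=
  ⟨inH10_zero Ω, MemLp.zero⟩

theorem TT.add (hΩ : OB Ω) (h : TT Ω u G) (h' : TT Ω v H) :
    TT Ω (fun x => u x + v x) (fun x => G x + H x) := ⟨h.1.add hΩ h'.1, h.2.add h'.2⟩

theorem TT.smul (hΩ : OB Ω) (h : TT Ω u G) (a : ℝ) :
    TT Ω (fun x => a * u x) (fun x => a • G x) := ⟨h.1.smul hΩ a, h.2.const_mul a⟩

theorem TT.neg (hΩ : OB Ω) (h : TT Ω u G) : TT Ω (fun x => -u x) (fun x => -G x) :=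
  ⟨h.1.neg hΩ, h.2.neg⟩

theorem TT.sub (hΩ : OB Ω) (h : TT Ω u G) (h' : TT Ω v H) :
    TT Ω (fun x => u x - v x) (fun x => G x - H x) := ⟨h.1.sub hΩ h'.1, h.2.sub h'.2⟩

theorem InH10.tt (h : InH10 Ω u G) {M : ℝ} (hM : ∀ᵐ x ∂mm Ω, |u x| ≤ M) : TT Ω u G :=
  ⟨h, memLp_top_of_bound h.1.1 M hM⟩

/-- an equation with right side in `L^2` holds for all test functions in `H^1_0` if it holds for
the smooth ones -/
theorem eq_of_tst (hΩ : OB Ω) {f : V → ℝ} (hG : MemLp G 2 (mm Ω)) (hf : MemLp f 2 (mm Ω))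
    (h : ∀ φ, Tst Ω φ → ∫ x, ⟪G x, gradient φ x⟫ ∂mm Ω = ∫ x, f x * φ x ∂mm Ω)
    (hv : InH10 Ω v H) : ∫ x, ⟪G x, H x⟫ ∂mm Ω = ∫ x, f x * v x ∂mm Ω := by
  obtain ⟨φ, hφ, a1, a2⟩ := hv.approx hΩ
  exact tendsto_nhds_unique (((l2t_const hG).inner a2).congr fun n => h _ (hφ n))
    ((l2t_const hf).mul a1)

theorem weq_of_tst (hΩ : OB Ω) {f : V → ℝ} (hG : MemLp G 2 (mm Ω)) (hf : MemLp f 2 (mm Ω))
    (h : ∀ φ, Tst Ω φ → ∫ x, ⟪G x, gradient φ x⟫ ∂mm Ω = ∫ x, f x * φ x ∂mm Ω) :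
    WEq Ω G f := by
  have := hΩ.fin
  exact ⟨hG, hf.integrable (by norm_num), fun v H hv => eq_of_tst hΩ hG hf h hv.1⟩

theorem WEq.ext (hΩ : OB Ω) {f : V → ℝ} (h : WEq Ω G f) (hf : MemLp f 2 (mm Ω))
    (hv : InH10 Ω v H) : ∫ x, ⟪G x, H x⟫ ∂mm Ω = ∫ x, f x * v x ∂mm Ω :=
  eq_of_tst hΩ h.l2 hf (fun φ hφ => h.eq φ _ (hφ.mem hΩ)) hv

end Pool.Agent.P.MP_0cf84d_an
end

-- part Pool.Agent.P.MP_0cf84d_an.DMoll
section

/-! `C^1` functions with compact support lie in `H^1_0`. -/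

set_option linter.unusedSectionVars false
set_option linter.unusedVariables false

namespace Pool.Agent.P.MP_0cf84d_an

open MeasureTheory Filter Topology Metric Set Module
open scoped RealInnerProductSpace ENNReal NNReal

variable {V : Type*} [NormedAddCommGroup V] [InnerProductSpace ℝ V] [FiniteDimensional ℝ V]
  [MeasurableSpace V] [BorelSpace V] [CompleteSpace V] {Ω : Set V}

open scoped Convolution

/-- bump functions with shrinking supports -/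
noncomputable def dmoll_bump (V : Type*) [NormedAddCommGroup V] (k : ℕ) : ContDiffBump (0 : V) :=
  ⟨1 / (2 * ((k : ℝ) + 1)), 1 / ((k : ℝ) + 1), by positivity, by
    rw [div_lt_div_iff₀ (by positivity) (by positivity)]
    linarith [show (0 : ℝ) ≤ k from Nat.cast_nonneg k]⟩

/-- mollification -/
noncomputable def dmoll_mo {E : Type*} [NormedAddCommGroup E] [NormedSpace ℝ E] (k : ℕ)
    (g : V → E) : V → E :=
  (dmoll_bump V k).normed volume ⋆[ContinuousLinearMap.lsmul ℝ ℝ, volume] g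

section
variable {E : Type*} [NormedAddCommGroup E] [NormedSpace ℝ E] [CompleteSpace E] {g : V → E}

theorem dmoll_smooth (k : ℕ) (hg : Continuous g) : ContDiff ℝ (⊤ : ℕ∞) (dmoll_mo k g) :=
  (dmoll_bump V k).hasCompactSupport_normed.contDiff_convolution_left _
    (dmoll_bump V k).contDiff_normed hg.locallyIntegrable

theorem dmoll_tendsto (hg : Continuous g) (x : V) :
    Tendsto (fun k => dmoll_mo k g x) atTop (𝓝 (g x)) :=
  ContDiffBump.convolution_tendsto_right_of_continuous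
    (φ := dmoll_bump V) tendsto_one_div_add_atTop_nhds_zero_nat hg x

theorem dmoll_norm (k : ℕ) (hg : Continuous g) {C : ℝ} (hC : ∀ x, ‖g x‖ ≤ C) (x : V) :
    ‖dmoll_mo k g x‖ ≤ C := by
  rw [← dist_zero_right]
  exact dist_convolution_le ((norm_nonneg _).trans (hC x)) (dmoll_bump V k).support_normed_eq.subset
    (dmoll_bump V k).nonneg_normed (dmoll_bump V k).integral_normed hg.aestronglyMeasurable
    fun y _ => by
      rw [dist_zero_right]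
      exact hC y

theorem dmoll_zero {k : ℕ} {K : Set V} (h0 : ∀ x ∉ K, g x = 0) {x : V}
    (hx : x ∉ cthickening (1 / ((k : ℝ) + 1)) K) : dmoll_mo k g x = 0 := by
  unfold dmoll_mo
  rw [convolution_lsmul_swap]
  refine integral_eq_zero_of_ae (Eventually.of_forall fun t => ?_)
  by_cases ht : t ∈ K
  · have : (dmoll_bump V k).normed volume (x - t) = 0 := by
      by_contra h
      have h' : x - t ∈ Function.support ((dmoll_bump V k).normed volume) := h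
      rw [(dmoll_bump V k).support_normed_eq, mem_ball, dist_zero_right] at h'
      exact hx (mem_cthickening_of_dist_le x t _ K ht (by rw [dist_eq_norm]; exact h'.le))
    simp [this]
  · simp [h0 t ht]

end

theorem dmoll_fderiv (k : ℕ) {z : V → ℝ} (hz : ContDiff ℝ 1 z) (hc : HasCompactSupport z) (x : V) :
    fderiv ℝ (dmoll_mo k z) x = dmoll_mo k (fderiv ℝ z) x := by
  have h := (hc.hasFDerivAt_convolution_right (μ := volume) (ContinuousLinearMap.lsmul ℝ ℝ)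
    ((dmoll_bump V k).continuous_normed (μ := volume)).locallyIntegrable hz x).fderiv
  unfold dmoll_mo
  rw [h]
  congr 1

theorem c1_mem (hΩ : OB Ω) {ζ : V → ℝ} {F : V → V} (h : Reg Ω ζ F) {K : Set V} (hK : IsCompact K)
    (hKΩ : K ⊆ Ω) (h0 : ∀ x ∈ Ω, x ∉ K → ζ x = 0) : InH10 Ω ζ F := by
  classical
  have := hΩ.fin
  have hKo : IsOpen Kᶜ := hK.isClosed.isOpen_compl
  have z0 : ∀ x ∉ K, Ω.indicator ζ x = 0 := fun x hx => by
    by_cases hx' : x ∈ Ω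
    · rw [indicator_of_mem hx', h0 x hx' hx]
    · exact indicator_of_notMem hx' _
  have d1 : ∀ x ∈ Ω, HasFDerivAt (Ω.indicator ζ) (InnerProductSpace.toDual ℝ V (F x)) x := by
    intro x hx
    refine (h.grad x hx).hasFDerivAt.congr_of_eventuallyEq ?_
    filter_upwards [hΩ.op.mem_nhds hx] with y hy using indicator_of_mem hy _
  have d2 : ∀ x ∉ K, HasFDerivAt (Ω.indicator ζ) (0 : V →L[ℝ] ℝ) x := by
    intro x hx
    refine (hasFDerivAt_const (0 : ℝ) x).congr_of_eventuallyEq ?_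
    filter_upwards [hKo.mem_nhds hx] with y hy using z0 y hy
  have hz : ContDiff ℝ 1 (Ω.indicator ζ) := by
    refine contDiff_one_iff_fderiv.2 ⟨fun x => ?_, continuous_iff_continuousAt.2 fun x => ?_⟩
    · by_cases hx : x ∈ K
      exacts [(d1 x (hKΩ hx)).differentiableAt, (d2 x hx).differentiableAt]
    · by_cases hx : x ∈ K
      · have h1 : ContinuousAt (fun y => InnerProductSpace.toDual ℝ V (F y)) x :=
          (InnerProductSpace.toDual ℝ V).continuous.continuousAt.comp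
            (h.cont.continuousAt (hΩ.op.mem_nhds (hKΩ hx)))
        refine h1.congr ?_
        filter_upwards [hΩ.op.mem_nhds (hKΩ hx)] with y hy using (d1 y hy).fderiv.symm
      · refine (continuousAt_const (y := (0 : V →L[ℝ] ℝ))).congr ?_
        filter_upwards [hKo.mem_nhds hx] with y hy using (d2 y hy).fderiv.symm
  have hc : HasCompactSupport (Ω.indicator ζ) := HasCompactSupport.intro hK z0
  have cD : Continuous (fderiv ℝ (Ω.indicator ζ)) := hz.continuous_fderiv one_ne_zero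
  obtain ⟨C, hC⟩ := hc.exists_bound_of_continuous hz.continuous
  obtain ⟨C', hC'⟩ := (hc.fderiv ℝ).exists_bound_of_continuous cD
  obtain ⟨δ, hδ, hδO⟩ := hK.exists_cthickening_subset_open hΩ.op hKΩ
  obtain ⟨N, hN⟩ := exists_nat_one_div_lt hδ
  have ht : ∀ k, Tst Ω (dmoll_mo (k + N) (Ω.indicator ζ)) := by
    intro k
    have hs : tsupport (dmoll_mo (k + N) (Ω.indicator ζ)) ⊆ cthickening δ K := by
      refine closure_minimal (fun x hx => ?_) isClosed_cthickening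
      by_contra hx'
      refine hx (dmoll_zero (K := K) z0 fun h' => hx' ?_)
      refine cthickening_mono (le_trans ?_ hN.le) K h'
      push_cast
      gcongr
      exact le_add_of_nonneg_left (by positivity)
    exact ⟨dmoll_smooth _ hz.continuous,
      hK.cthickening.of_isClosed_subset (isClosed_tsupport _) hs, hs.trans hδO⟩
  have hg : ∀ k x, gradient (dmoll_mo k (Ω.indicator ζ)) x =
      (InnerProductSpace.toDual ℝ V).symm (dmoll_mo k (fderiv ℝ (Ω.indicator ζ)) x) := by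
    intro k x
    rw [gradient, dmoll_fderiv k hz hc]
  refine inH10_limit hΩ (fun k => ((ht k).mem hΩ).1) ?_ ?_
  · refine l2t_of_dom (fun k => (ht k).1.continuous.aestronglyMeasurable) (memLp_const C)
      (fun k => Eventually.of_forall fun x => dmoll_norm _ hz.continuous hC x)
      (hΩ.mem.mono fun x hx => ?_)
    have h1 := (dmoll_tendsto hz.continuous x).comp (tendsto_add_atTop_nat N)
    rwa [indicator_of_mem hx] at h1
  · refine l2t_of_dom (fun k => ((ht k).mem hΩ).1.2.1.1) (memLp_const C')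
      (fun k => Eventually.of_forall fun x => ?_) (hΩ.mem.mono fun x hx => ?_)
    · rw [hg, LinearIsometryEquiv.norm_map]
      exact dmoll_norm _ cD hC' x
    · have h1 := ((InnerProductSpace.toDual ℝ V).symm.continuous.tendsto _).comp
        ((dmoll_tendsto cD x).comp (tendsto_add_atTop_nat N))
      rw [(d1 x hx).fderiv, LinearIsometryEquiv.symm_apply_apply] at h1
      simp only [hg]
      exact h1

end Pool.Agent.P.MP_0cf84d_an
end

-- part Pool.Agent.P.MP_0cf84d_an.DChain0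
section

/-! Chain rule, positive part. -/

set_option linter.unusedSectionVars false
set_option linter.unusedVariables false

namespace Pool.Agent.P.MP_0cf84d_an

open MeasureTheory Filter Topology Metric Set Module
open scoped RealInnerProductSpace ENNReal NNReal

variable {V : Type*} [NormedAddCommGroup V] [InnerProductSpace ℝ V] [FiniteDimensional ℝ V]
  [MeasurableSpace V] [BorelSpace V] [CompleteSpace V] {Ω : Set V}

variable {u W : V → ℝ} {G F : V → V} {K : Set V}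

theorem dchain0_lip {P ψ : ℝ → ℝ} (hP : ∀ s, HasDerivAt P (ψ s) s) {L : ℝ}
    (hL : ∀ s, |ψ s| ≤ L) (a b : ℝ) : |P a - P b| ≤ L * |a - b| := by
  have := Convex.norm_image_sub_le_of_norm_hasDerivWithin_le (f := P) (f' := ψ) (s := univ)
    (C := L) (fun x _ => (hP x).hasDerivWithinAt) (fun x _ => hL x) convex_univ
    (mem_univ b) (mem_univ a)
  simpa [Real.norm_eq_abs] using this

theorem dchain0_sub {W' : V → ℝ} {F' : V → V} (h : Reg Ω W F) (h' : Reg Ω W' F') :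
    Reg Ω (fun x => W x - W' x) (fun x => F x - F' x) := by
  have := h.add (h'.smul (-1))
  simpa [sub_eq_add_neg] using this

theorem dchain0_comp (h : Reg Ω W F) {P ψ : ℝ → ℝ} (hP : ∀ s, HasDerivAt P (ψ s) s)
    (hψ : Continuous ψ) {L : ℝ} (hL : ∀ s, |ψ s| ≤ L) :
    Reg Ω (fun x => P (W x)) (fun x => ψ (W x) • F x) := by
  obtain ⟨C, hC⟩ := h.bdd
  have hL0 : 0 ≤ L := (abs_nonneg _).trans (hL 0)
  refine ⟨fun x hx => ?_, (hψ.comp_continuousOn h.contW).smul h.cont,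
    |P 0| + L * C, fun x hx => ⟨?_, ?_⟩⟩
  · have h1 := (hP (W x)).comp_hasFDerivAt x (h.grad x hx).hasFDerivAt
    refine hasGradientAt_iff_hasFDerivAt.2 (h1.congr_fderiv ?_)
    ext v
    simp
  · have h1 := dchain0_lip hP hL (W x) 0
    rw [sub_zero] at h1
    have h2 := mul_le_mul_of_nonneg_left (hC x hx).1 hL0
    have h3 : |P (W x)| ≤ |P 0| + |P (W x) - P 0| := by
      have := abs_add_le (P 0) (P (W x) - P 0)
      simpa using this
    linarith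
  · rw [norm_smul, Real.norm_eq_abs]
    have h1 := mul_le_mul (hL (W x)) (hC x hx).2 (norm_nonneg _) hL0
    linarith [abs_nonneg (P 0)]

theorem dchain0_memP {α : Type*} [MeasurableSpace α] {m : Measure α} [IsFiniteMeasure m]
    {a : α → ℝ} (ha : MemLp a 2 m) {P ψ : ℝ → ℝ} (hP : ∀ s, HasDerivAt P (ψ s) s) {L : ℝ}
    (hL : ∀ s, |ψ s| ≤ L) : MemLp (fun x => P (a x)) 2 m := by
  have hc : Continuous P := continuous_iff_continuousAt.2 fun s => (hP s).continuousAt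
  have hb : MemLp (fun x => |P 0| + L * ‖a x‖) 2 m :=
    MemLp.add (f := fun _ => |P 0|) (g := fun x => L * ‖a x‖) (memLp_const _)
      (ha.norm.const_mul L)
  refine hb.mono' (hc.comp_aestronglyMeasurable ha.1) (Eventually.of_forall fun x => ?_)
  have h1 := dchain0_lip hP hL (a x) 0
  rw [sub_zero] at h1
  have h3 : |P (a x)| ≤ |P 0| + |P (a x) - P 0| := by
    have := abs_add_le (P 0) (P (a x) - P 0)
    simpa using this
  simp only [Real.norm_eq_abs]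
  linarith

theorem dchain0_memS {α : Type*} [MeasurableSpace α] {m : Measure α}
    {a : α → ℝ} (ha : AEStronglyMeasurable a m) {H : α → V} (hH : MemLp H 2 m) {ψ : ℝ → ℝ}
    (hψ : Continuous ψ) {L : ℝ} (hL : ∀ s, |ψ s| ≤ L) :
    MemLp (fun x => ψ (a x) • H x) 2 m :=
  memLp_top_smul (memLp_top_of_bound (hψ.comp_aestronglyMeasurable ha) L
    (Eventually.of_forall fun x => hL _)) hH

theorem chain0 (hΩ : OB Ω) (hu : InH10 Ω u G) (hW : Reg Ω W F) (hK : IsCompact K) (hKΩ : K ⊆ Ω)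
    {P ψ : ℝ → ℝ} (hP : ∀ s, HasDerivAt P (ψ s) s) (hψ : Continuous ψ) {L : ℝ}
    (hL : ∀ s, |ψ s| ≤ L) (h0 : ∀ x ∈ Ω, x ∉ K → P (-W x) = 0) :
    InH10 Ω (fun x => P (u x - W x)) (fun x => ψ (u x - W x) • (G x - F x)) := by
  have hfin := hΩ.fin
  have hL0 : 0 ≤ L := (abs_nonneg _).trans (hL 0)
  obtain ⟨φ₀, ht₀, h1₀, h2₀⟩ := hu.approx hΩ
  obtain ⟨σ, hσ, hae⟩ := h1₀.subseq
  have h1 := h1₀.comp hσ.tendsto_atTop
  have h2 := h2₀.comp hσ.tendsto_atTop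
  set φ : ℕ → V → ℝ := fun n => φ₀ (σ n) with hφ
  have ht : ∀ n, Tst Ω (φ n) := fun n => ht₀ (σ n)
  have hWm := hW.memW hΩ 2
  have hFm := hW.memF hΩ 2
  have hGF : MemLp (fun x => G x - F x) 2 (mm Ω) := hu.2.1.sub hFm
  have huW : MemLp (fun x => u x - W x) 2 (mm Ω) := hu.1.sub hWm
  have hreg : ∀ n, Reg Ω (fun x => P (φ n x - W x))
      (fun x => ψ (φ n x - W x) • (gradient (φ n) x - F x)) := fun n =>
    dchain0_comp (dchain0_sub (ht n).reg hW) hP hψ hL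
  have hφW : ∀ n, AEStronglyMeasurable (fun x => φ n x - W x) (mm Ω) := fun n =>
    (h1.1 n).1.sub hWm.1
  refine inH10_limit hΩ (w := fun n x => P (φ n x - W x))
    (D := fun n x => ψ (φ n x - W x) • (gradient (φ n) x - F x)) (fun n => ?_) ?_ ?_
  · refine c1_mem hΩ (hreg n) (hK.union (ht n).2.1.isCompact)
      (union_subset hKΩ (ht n).2.2) (fun x hx hxK => ?_)
    have h3 : φ n x = 0 := image_eq_zero_of_notMem_tsupport fun h => hxK (Or.inr h)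
    rw [h3, zero_sub]
    exact h0 x hx fun h => hxK (Or.inl h)
  · refine h1.of_le (fun n => (hreg n).memW hΩ 2) (dchain0_memP huW hP hL) L
      (fun n => Eventually.of_forall fun x => ?_)
    have h3 := dchain0_lip hP hL (φ n x - W x) (u x - W x)
    rw [sub_sub_sub_cancel_right] at h3
    exact h3
  · have hA : L2T (mm Ω) (fun n x => ψ (φ n x - W x) • (gradient (φ n) x - G x))
        (fun _ => (0 : V)) := by
      refine h2.of_le (fun n => dchain0_memS (hφW n) ((h2.1 n).sub hu.2.1) hψ hL)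
        (memLp_const _) L (fun n => Eventually.of_forall fun x => ?_)
      rw [sub_zero, norm_smul, Real.norm_eq_abs]
      exact mul_le_mul_of_nonneg_right (hL _) (norm_nonneg _)
    have hB : L2T (mm Ω) (fun n x => ψ (φ n x - W x) • (G x - F x))
        (fun x => ψ (u x - W x) • (G x - F x)) := by
      refine l2t_of_dom (fun n => (dchain0_memS (hφW n) hGF hψ hL).1) (hGF.norm.const_mul L)
        (fun n => Eventually.of_forall fun x => ?_) (hae.mono fun x hx => ?_)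
      · rw [norm_smul, Real.norm_eq_abs]
        exact mul_le_mul_of_nonneg_right (hL _) (norm_nonneg _)
      · exact ((hψ.tendsto _).comp (hx.sub_const (W x))).smul_const _
    refine (hA.add hB).congr (fun n => Eventually.of_forall fun x => ?_)
      (Eventually.of_forall fun x => ?_)
    · simp only
      rw [← smul_add, sub_add_sub_cancel]
    · simp

/-- the clamped ramp -/
noncomputable def dchain0_ps (k : ℕ) (t : ℝ) : ℝ := min 1 (max 0 (k * t))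

theorem dchain0_ps_cont (k : ℕ) : Continuous (dchain0_ps k) :=
  continuous_const.min (continuous_const.max (continuous_const.mul continuous_id))

theorem dchain0_ps_abs (k : ℕ) (t : ℝ) : |dchain0_ps k t| ≤ 1 := by
  rw [abs_le]
  refine ⟨?_, min_le_left _ _⟩
  exact le_min (by norm_num) ((by norm_num : (-1 : ℝ) ≤ 0).trans (le_max_left _ _))

theorem dchain0_ps_neg (k : ℕ) {t : ℝ} (ht : t ≤ 0) : dchain0_ps k t = 0 := by
  unfold dchain0_ps
  rw [max_eq_left (mul_nonpos_of_nonneg_of_nonpos (Nat.cast_nonneg k) ht)]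
  simp

theorem dchain0_ps_pos {t : ℝ} (ht : 0 < t) : ∀ᶠ k : ℕ in atTop, dchain0_ps k t = 1 := by
  have h1 : Tendsto (fun k : ℕ => (k : ℝ) * t) atTop atTop :=
    tendsto_natCast_atTop_atTop.atTop_mul_const ht
  filter_upwards [h1.eventually_ge_atTop 1] with k hk
  exact min_eq_left (hk.trans (le_max_right _ _))

/-- its primitive -/
noncomputable def dchain0_P (k : ℕ) (s : ℝ) : ℝ := ∫ t in (0 : ℝ)..s, dchain0_ps k t

theorem dchain0_P_deriv (k : ℕ) (s : ℝ) : HasDerivAt (dchain0_P k) (dchain0_ps k s) s :=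
  ((dchain0_ps_cont k).integral_hasStrictDerivAt 0 s).hasDerivAt

theorem dchain0_P_neg (k : ℕ) {s : ℝ} (hs : s ≤ 0) : dchain0_P k s = 0 := by
  unfold dchain0_P
  rw [intervalIntegral.integral_congr (g := fun _ => (0 : ℝ))]
  · simp
  · intro t ht
    rw [uIcc_of_ge hs] at ht
    exact dchain0_ps_neg k ht.2

theorem dchain0_P_abs (k : ℕ) (s : ℝ) : |dchain0_P k s| ≤ |s| := by
  have h1 := dchain0_lip (dchain0_P_deriv k) (dchain0_ps_abs k) s 0
  rwa [dchain0_P_neg k le_rfl, sub_zero, sub_zero, one_mul] at h1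

theorem dchain0_P_lim (s : ℝ) : Tendsto (fun k => dchain0_P k s) atTop (𝓝 (max s 0)) := by
  rcases le_or_gt s 0 with hs | hs
  · simp only [dchain0_P_neg _ hs, max_eq_right hs]
    exact tendsto_const_nhds
  · have h1 : max s 0 = ∫ t in (0 : ℝ)..s, (1 : ℝ) := by simp [hs.le]
    rw [h1]
    refine intervalIntegral.tendsto_integral_filter_of_dominated_convergence (fun _ => 1)
      (Eventually.of_forall fun k => (dchain0_ps_cont k).aestronglyMeasurable)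
      (Eventually.of_forall fun k => Eventually.of_forall fun t _ => dchain0_ps_abs k t)
      intervalIntegrable_const (Eventually.of_forall fun t ht => ?_)
    rw [uIoc_of_le hs.le] at ht
    exact tendsto_const_nhds.congr' ((dchain0_ps_pos ht.1).mono fun k hk => hk.symm)

theorem posPart (hΩ : OB Ω) (hu : InH10 Ω u G) (hW : Reg Ω W F) (hK : IsCompact K) (hKΩ : K ⊆ Ω)
    (h0 : ∀ x ∈ Ω, x ∉ K → 0 ≤ W x) :
    InH10 Ω (fun x => max (u x - W x) 0) (fun x => if W x < u x then G x - F x else 0) := by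
  have hGF : MemLp (fun x => G x - F x) 2 (mm Ω) := hu.2.1.sub (hW.memF hΩ 2)
  have huW : MemLp (fun x => u x - W x) 2 (mm Ω) := hu.1.sub (hW.memW hΩ 2)
  have hk : ∀ k, InH10 Ω (fun x => dchain0_P k (u x - W x))
      (fun x => dchain0_ps k (u x - W x) • (G x - F x)) := fun k =>
    chain0 hΩ hu hW hK hKΩ (dchain0_P_deriv k) (dchain0_ps_cont k) (dchain0_ps_abs k)
      fun x hx hxK => dchain0_P_neg k (neg_nonpos.2 (h0 x hx hxK))
  refine inH10_limit hΩ hk ?_ ?_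
  · exact l2t_of_dom (fun k => (hk k).1.1) huW.norm
      (fun k => Eventually.of_forall fun x => dchain0_P_abs k _)
      (Eventually.of_forall fun x => dchain0_P_lim _)
  · refine l2t_of_dom (fun k => (hk k).2.1.1) hGF.norm
      (fun k => Eventually.of_forall fun x => ?_) (Eventually.of_forall fun x => ?_)
    · rw [norm_smul, Real.norm_eq_abs]
      exact mul_le_of_le_one_left (norm_nonneg _) (dchain0_ps_abs k _)
    · split_ifs with h
      · refine tendsto_const_nhds.congr' ((dchain0_ps_pos (sub_pos.2 h)).mono fun k hk => ?_)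
        simp only [hk, one_smul]
      · simp only [dchain0_ps_neg _ (sub_nonpos.2 (not_lt.1 h)), zero_smul]
        exact tendsto_const_nhds

end Pool.Agent.P.MP_0cf84d_an
end

-- part Pool.Agent.P.MP_0cf84d_an.DChain
section

/-! Chain rule for bounded functions, products, truncation. -/

set_option linter.unusedSectionVars false
set_option linter.unusedVariables false

namespace Pool.Agent.P.MP_0cf84d_an

open MeasureTheory Filter Topology Metric Set Module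
open scoped RealInnerProductSpace ENNReal NNReal

variable {V : Type*} [NormedAddCommGroup V] [InnerProductSpace ℝ V] [FiniteDimensional ℝ V]
  [MeasurableSpace V] [BorelSpace V] [CompleteSpace V] {Ω : Set V}

variable {u v : V → ℝ} {G H : V → V}

theorem chain1 (hΩ : OB Ω) (hu : TT Ω u G) {a b : ℝ} (ha : a ≤ 0) (hb : 0 ≤ b)
    (h : ∀ᵐ x ∂mm Ω, u x ∈ Icc a b) {P ψ : ℝ → ℝ} (hP : ∀ s ∈ Icc a b, HasDerivAt P (ψ s) s)
    (hψ : ContinuousOn ψ (Icc a b)) :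
    TT Ω (fun x => P (u x) - P 0) (fun x => ψ (u x) • G x) := by
  have hab : a ≤ b := ha.trans hb
  have cm : ∀ s : ℝ, max a (min s b) ∈ Icc a b := fun s =>
    ⟨le_max_left _ _, max_le hab (min_le_right _ _)⟩
  have ce : ∀ s ∈ Icc a b, max a (min s b) = s := fun s hs => by
    rw [min_eq_left hs.2, max_eq_right hs.1]
  have c1 : Continuous fun s : ℝ => ψ (max a (min s b)) :=
    hψ.comp_continuous (f := fun s : ℝ => max a (min s b)) (by fun_prop) cm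
  obtain ⟨L, hL⟩ := isCompact_Icc.exists_bound_of_continuousOn hψ
  have d1 : ∀ s : ℝ, HasDerivAt (fun s : ℝ => ∫ t in (0 : ℝ)..s, ψ (max a (min t b)))
      (ψ (max a (min s b))) s := fun s => (c1.integral_hasStrictDerivAt 0 s).hasDerivAt
  have e1 : ∀ s ∈ Icc a b, ∫ t in (0 : ℝ)..s, ψ (max a (min t b)) = P s - P 0 := fun s hs => by
    have sub : uIcc 0 s ⊆ Icc a b := uIcc_subset_Icc ⟨ha, hb⟩ hs
    refine intervalIntegral.integral_eq_sub_of_hasDerivAt (fun t ht => ?_)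
      (c1.intervalIntegrable _ _)
    rw [ce t (sub ht)]
    exact hP t (sub ht)
  have k := chain0 hΩ hu.1 (reg_const Ω 0) isCompact_empty (empty_subset Ω) d1 c1
    (L := L) (fun s => hL _ (cm s)) (fun x _ _ => by simp)
  refine ⟨k.congr (h.mono fun x hx => ?_) (h.mono fun x hx => ?_), ?_⟩
  · simp only [sub_zero]
    exact e1 _ hx
  · simp only [sub_zero]
    rw [ce _ hx]
  · exact memLp_top_comp hu.2.1 h (P := fun s => P s - P 0)
      (ContinuousOn.sub (fun s hs => (hP s hs).continuousAt.continuousWithinAt) continuousOn_const)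

theorem dchain_sq (hΩ : OB Ω) (hu : TT Ω u G) :
    TT Ω (fun x => u x ^ 2) (fun x => (2 * u x) • G x) := by
  obtain ⟨M, hM, h⟩ := top_bound hu.2
  have k := chain1 hΩ hu (a := -M) (b := M) (by linarith) hM.le
    (h.mono fun x hx => abs_le.1 hx) (P := fun s => s ^ 2) (ψ := fun s => 2 * s)
    (fun s _ => by simpa using hasDerivAt_pow 2 s) (by fun_prop)
  exact k.congr (Eventually.of_forall fun x => by simp) EventuallyEq.rfl

theorem TT.mul (hΩ : OB Ω) (hu : TT Ω u G) (hv : TT Ω v H) :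
    TT Ω (fun x => u x * v x) (fun x => u x • H x + v x • G x) := by
  have k := ((dchain_sq hΩ (hu.add hΩ hv)).sub hΩ (dchain_sq hΩ (hu.sub hΩ hv))).smul hΩ (1 / 4)
  refine k.congr (Eventually.of_forall fun x => ?_) (Eventually.of_forall fun x => ?_)
  · simp only
    ring
  · simp only
    module

theorem trunc (hΩ : OB Ω) (hv : InH10 Ω v H) (h0 : ∀ᵐ x ∂mm Ω, 0 ≤ v x) :
    ∃ (w : ℕ → V → ℝ) (D : ℕ → V → V), (∀ n, TT Ω (w n) (D n)) ∧ (∀ n, ∀ᵐ x ∂mm Ω, 0 ≤ w n x) ∧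
      L2T (mm Ω) w v ∧ L2T (mm Ω) D H := by
  have k : ∀ n : ℕ, InH10 Ω (fun x => v x - max (v x - n) 0)
      (fun x => H x - if (n : ℝ) < v x then H x - 0 else 0) := fun n =>
    hv.sub hΩ (posPart hΩ hv (reg_const Ω n) isCompact_empty (empty_subset Ω)
      (fun x _ _ => Nat.cast_nonneg n))
  have b : ∀ (n : ℕ) (t : ℝ), 0 ≤ t → 0 ≤ t - max (t - n) 0 ∧ t - max (t - n) 0 ≤ n ∧
      t - max (t - n) 0 ≤ t := fun n t ht => by
    have hn : (0 : ℝ) ≤ n := Nat.cast_nonneg n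
    rcases le_total (t - n) 0 with h | h
    · rw [max_eq_right h]
      exact ⟨by linarith, by linarith, by linarith⟩
    · rw [max_eq_left h]
      exact ⟨by linarith, by linarith, by linarith⟩
  have ev : ∀ t : ℝ, ∀ᶠ n : ℕ in atTop, t ≤ n := fun t =>
    tendsto_natCast_atTop_atTop.eventually_ge_atTop t
  refine ⟨fun n x => v x - max (v x - n) 0,
    fun n x => H x - if (n : ℝ) < v x then H x - 0 else 0, fun n => (k n).tt (M := n) ?_,
    fun n => h0.mono fun x hx => (b n _ hx).1, ?_, ?_⟩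
  · refine h0.mono fun x hx => ?_
    rw [abs_of_nonneg (b n _ hx).1]
    exact (b n _ hx).2.1
  · refine l2t_of_dom (fun n => (k n).1.1) hv.1 (fun n => h0.mono fun x hx => ?_)
      (Eventually.of_forall fun x => ?_)
    · rw [Real.norm_eq_abs, abs_of_nonneg (b n _ hx).1]
      exact (b n _ hx).2.2
    · refine tendsto_const_nhds.congr' ((ev (v x)).mono fun n hn => ?_)
      simp only
      rw [max_eq_right (sub_nonpos.2 hn), sub_zero]
  · refine l2t_of_dom (fun n => (k n).2.1.1) hv.2.1.norm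
      (fun n => Eventually.of_forall fun x => ?_) (Eventually.of_forall fun x => ?_)
    · split_ifs <;> simp
    · refine tendsto_const_nhds.congr' ((ev (v x)).mono fun n hn => ?_)
      simp only
      rw [if_neg (not_lt.2 hn), sub_zero]

end Pool.Agent.P.MP_0cf84d_an
end

-- part Pool.Agent.P.MP_0cf84d_an.DWG
section

/-! Weak inequalities. -/

set_option linter.unusedSectionVars false
set_option linter.unusedVariables false

namespace Pool.Agent.P.MP_0cf84d_an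

open MeasureTheory Filter Topology Metric Set Module
open scoped RealInnerProductSpace ENNReal NNReal

variable {V : Type*} [NormedAddCommGroup V] [InnerProductSpace ℝ V] [FiniteDimensional ℝ V]
  [MeasurableSpace V] [BorelSpace V] [CompleteSpace V] {Ω : Set V}

variable {u v f f' : V → ℝ} {G G' H D : V → V}

theorem dwg_c1 (h1 : G =ᵐ[mm Ω] G') (H : V → V) :
    ∫ x, ⟪G x, H x⟫ ∂mm Ω = ∫ x, ⟪G' x, H x⟫ ∂mm Ω :=
  integral_congr_ae (h1.mono fun x hx => by simp only [hx])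

theorem dwg_c2 (h2 : f =ᵐ[mm Ω] f') (v : V → ℝ) :
    ∫ x, f x * v x ∂mm Ω = ∫ x, f' x * v x ∂mm Ω :=
  integral_congr_ae (h2.mono fun x hx => by simp only [hx])

theorem dwg_a1 (h : MemLp G 2 (mm Ω)) (h' : MemLp G' 2 (mm Ω)) (hH : MemLp H 2 (mm Ω)) :
    ∫ x, ⟪G x + G' x, H x⟫ ∂mm Ω = ∫ x, ⟪G x, H x⟫ ∂mm Ω + ∫ x, ⟪G' x, H x⟫ ∂mm Ω := by
  simp only [inner_add_left]
  exact integral_add (int_inner h hH) (int_inner h' hH)

theorem dwg_a2 (h : Integrable f (mm Ω)) (h' : Integrable f' (mm Ω)) (hv : MemLp v ⊤ (mm Ω)) :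
    ∫ x, (f x + f' x) * v x ∂mm Ω = ∫ x, f x * v x ∂mm Ω + ∫ x, f' x * v x ∂mm Ω := by
  simp only [add_mul]
  exact integral_add (int_mul_top h hv) (int_mul_top h' hv)

theorem WGe.mono_dwg (h : WGe Ω G f) (hf : Integrable f' (mm Ω))
    (hle : ∀ᵐ x ∂mm Ω, f' x ≤ f x) : WGe Ω G f' := by
  refine ⟨h.l2, hf, fun v H hv h0 => le_trans ?_ (h.le v H hv h0)⟩
  refine integral_mono_ae (int_mul_top hf hv.2) (int_mul_top h.l1 hv.2) ?_
  filter_upwards [hle, h0] with x h1 h2 using mul_le_mul_of_nonneg_right h1 h2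

theorem WEq.ge (h : WEq Ω G f) : WGe Ω G f :=
  ⟨h.l2, h.l1, fun v H hv _ => (h.eq v H hv).ge⟩

theorem WEq.le (h : WEq Ω G f) : WGe Ω (fun x => -G x) (fun x => -f x) := by
  refine ⟨h.l2.neg, h.l1.neg, fun v H hv _ => le_of_eq ?_⟩
  simp only [neg_mul, inner_neg_left, integral_neg, h.eq v H hv]

theorem WGe.mono (h : WGe Ω G f) (hf : AEStronglyMeasurable f' (mm Ω)) {b : V → ℝ}
    (hb : Integrable b (mm Ω)) (hle : ∀ᵐ x ∂mm Ω, b x ≤ f' x ∧ f' x ≤ f x) : WGe Ω G f' := by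
  refine h.mono_dwg ?_ (hle.mono fun x hx => hx.2)
  refine (hb.norm.add h.l1.norm).mono' hf (hle.mono fun x hx => ?_)
  simp only [Pi.add_apply, Real.norm_eq_abs]
  have h1 := le_abs_self (f x)
  have h2 := neg_abs_le (b x)
  have h3 := abs_nonneg (f x)
  have h4 := abs_nonneg (b x)
  exact abs_le.2 ⟨by linarith [hx.1], by linarith [hx.2]⟩

theorem WGe.mono' (h : WGe Ω G f) (hf : Integrable f' (mm Ω)) (hle : ∀ᵐ x ∂mm Ω, f' x ≤ f x) :
    WGe Ω G f' := h.mono_dwg hf hle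

theorem WGe.congr (h : WGe Ω G f) (h1 : G =ᵐ[mm Ω] G') (h2 : f =ᵐ[mm Ω] f') : WGe Ω G' f' := by
  refine ⟨h.l2.ae_eq h1, h.l1.congr h2, fun v H hv h0 => ?_⟩
  rw [← dwg_c1 h1 H, ← dwg_c2 h2 v]
  exact h.le v H hv h0

theorem WGe.add (h : WGe Ω G f) (h' : WGe Ω G' f') :
    WGe Ω (fun x => G x + G' x) (fun x => f x + f' x) := by
  refine ⟨h.l2.add h'.l2, h.l1.add h'.l1, fun v H hv h0 => ?_⟩
  rw [dwg_a1 h.l2 h'.l2 hv.1.2.1, dwg_a2 h.l1 h'.l1 hv.2]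
  exact add_le_add (h.le v H hv h0) (h'.le v H hv h0)

theorem WGe.smul (h : WGe Ω G f) {a : ℝ} (ha : 0 ≤ a) :
    WGe Ω (fun x => a • G x) (fun x => a * f x) := by
  refine ⟨h.l2.const_smul a, h.l1.const_mul a, fun v H hv h0 => ?_⟩
  simp only [real_inner_smul_left, mul_assoc, integral_const_mul]
  exact mul_le_mul_of_nonneg_left (h.le v H hv h0) ha

theorem WEq.congr (h : WEq Ω G f) (h1 : G =ᵐ[mm Ω] G') (h2 : f =ᵐ[mm Ω] f') : WEq Ω G' f' := by
  refine ⟨h.l2.ae_eq h1, h.l1.congr h2, fun v H hv => ?_⟩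
  rw [← dwg_c1 h1 H, ← dwg_c2 h2 v]
  exact h.eq v H hv

theorem WEq.add (h : WEq Ω G f) (h' : WEq Ω G' f') :
    WEq Ω (fun x => G x + G' x) (fun x => f x + f' x) := by
  refine ⟨h.l2.add h'.l2, h.l1.add h'.l1, fun v H hv => ?_⟩
  rw [dwg_a1 h.l2 h'.l2 hv.1.2.1, dwg_a2 h.l1 h'.l1 hv.2, h.eq v H hv, h'.eq v H hv]

theorem WEq.smul (h : WEq Ω G f) (a : ℝ) : WEq Ω (fun x => a • G x) (fun x => a * f x) := by
  refine ⟨h.l2.const_smul a, h.l1.const_mul a, fun v H hv => ?_⟩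
  simp only [real_inner_smul_left, mul_assoc, integral_const_mul]
  rw [h.eq v H hv]

/-- multiplication by a nonnegative function of `u` -/
theorem WGe.mul (hΩ : OB Ω) (h : WGe Ω G f) (hu : TT Ω u D) {a b : ℝ} (ha : a ≤ 0) (hb : 0 ≤ b)
    (hab : ∀ᵐ x ∂mm Ω, u x ∈ Icc a b) {ψ ψ' : ℝ → ℝ} (hψ : ∀ s ∈ Icc a b, HasDerivAt ψ (ψ' s) s)
    (hψ' : ContinuousOn ψ' (Icc a b)) (h0 : ∀ s ∈ Icc a b, 0 ≤ ψ s) :
    WGe Ω (fun x => ψ (u x) • G x) (fun x => ψ (u x) * f x - ψ' (u x) * ⟪G x, D x⟫) := by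
  have hm : AEStronglyMeasurable u (mm Ω) := hu.2.1
  have t1 : MemLp (fun x => ψ (u x)) ⊤ (mm Ω) :=
    memLp_top_comp hm hab fun s hs => (hψ s hs).continuousAt.continuousWithinAt
  have t2 : MemLp (fun x => ψ' (u x)) ⊤ (mm Ω) := memLp_top_comp hm hab hψ'
  have i1 : Integrable (fun x => ψ (u x) * f x) (mm Ω) :=
    (int_mul_top h.l1 t1).congr (Eventually.of_forall fun x => mul_comm _ _)
  have i2 : Integrable (fun x => ψ' (u x) * ⟪G x, D x⟫) (mm Ω) :=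
    (int_mul_top (int_inner h.l2 hu.1.2.1) t2).congr (Eventually.of_forall fun x => mul_comm _ _)
  have g2 : MemLp (fun x => ψ (u x) • G x) 2 (mm Ω) := memLp_top_smul t1 h.l2
  refine ⟨g2, i1.sub i2, fun v H hv hv0 => ?_⟩
  have c1 : TT Ω (fun x => ψ (u x) - ψ 0) (fun x => ψ' (u x) • D x) :=
    chain1 hΩ hu ha hb hab hψ hψ'
  have c2 : TT Ω (fun x => ψ (u x) * v x) (fun x => ψ (u x) • H x + v x • ψ' (u x) • D x) := by
    refine ((c1.mul hΩ hv).add hΩ (hv.smul hΩ (ψ 0))).congr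
      (Eventually.of_forall fun x => ?_) (Eventually.of_forall fun x => ?_)
    · ring
    · simp only [sub_smul]
      abel
  have p0 : ∀ᵐ x ∂mm Ω, 0 ≤ ψ (u x) * v x := by
    filter_upwards [hab, hv0] with x h1 h2 using mul_nonneg (h0 _ h1) h2
  have key := h.le _ _ c2 p0
  have j1 : Integrable (fun x => ψ (u x) * f x * v x) (mm Ω) := int_mul_top i1 hv.2
  have j2 : Integrable (fun x => ψ' (u x) * ⟪G x, D x⟫ * v x) (mm Ω) := int_mul_top i2 hv.2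
  have j3 : Integrable (fun x => ⟪ψ (u x) • G x, H x⟫) (mm Ω) := int_inner g2 hv.1.2.1
  have e1 : ∫ x, (ψ (u x) * f x - ψ' (u x) * ⟪G x, D x⟫) * v x ∂mm Ω =
      ∫ x, ψ (u x) * f x * v x ∂mm Ω - ∫ x, ψ' (u x) * ⟪G x, D x⟫ * v x ∂mm Ω := by
    rw [← integral_sub j1 j2]
    exact integral_congr_ae (Eventually.of_forall fun x => sub_mul _ _ _)
  have e2 : ∫ x, f x * (ψ (u x) * v x) ∂mm Ω = ∫ x, ψ (u x) * f x * v x ∂mm Ω :=
    integral_congr_ae (Eventually.of_forall fun x => by ring)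
  have e3 : ∫ x, ⟪G x, ψ (u x) • H x + v x • ψ' (u x) • D x⟫ ∂mm Ω =
      ∫ x, ⟪ψ (u x) • G x, H x⟫ ∂mm Ω + ∫ x, ψ' (u x) * ⟪G x, D x⟫ * v x ∂mm Ω := by
    rw [← integral_add j3 j2]
    refine integral_congr_ae (Eventually.of_forall fun x => ?_)
    simp only [inner_add_right, real_inner_smul_right, real_inner_smul_left]
    ring
  rw [e1]
  rw [e2, e3] at key
  linarith

theorem WGe.ext (hΩ : OB Ω) (h : WGe Ω G f) (hf : MemLp f 2 (mm Ω)) (hv : InH10 Ω v H)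
    (h0 : ∀ᵐ x ∂mm Ω, 0 ≤ v x) : ∫ x, f x * v x ∂mm Ω ≤ ∫ x, ⟪G x, H x⟫ ∂mm Ω := by
  obtain ⟨w, E, h1, h2, h3, h4⟩ := trunc hΩ hv h0
  exact le_of_tendsto_of_tendsto' ((l2t_const hf).mul h3) ((l2t_const h.l2).inner h4)
    fun n => h.le _ _ (h1 n) (h2 n)

variable {q μ₁ μ₂ : ℝ} {c h μ : V → ℝ}

theorem Dat.mu_top (hD : Dat Ω q c h μ μ₁ μ₂) : MemLp μ ⊤ (mm Ω) := by
  refine memLp_top_of_bound hD.mum μ₂ (hD.mu.mono fun x hx => ?_)
  have := hD.pos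
  have := hD.le
  exact abs_le.2 ⟨by linarith [hx.1], hx.2⟩

theorem dwg_int (hΩ : OB Ω) (hD : Dat Ω q c h μ μ₁ μ₂) (hu : MemLp u ⊤ (mm Ω))
    (hG : MemLp G 2 (mm Ω)) : Integrable (fun x => c x * u x) (mm Ω) ∧
      Integrable (fun x => μ x * ‖G x‖ ^ 2) (mm Ω) ∧ Integrable h (mm Ω) := by
  have := hΩ.fin
  refine ⟨int_mul_top ((hΩ.two_of_q hD.hq hD.cq).integrable one_le_two) hu, ?_,
    (hΩ.two_of_q hD.hq hD.hh).integrable one_le_two⟩
  exact (int_mul_top (int_sq hG) hD.mu_top).congr (Eventually.of_forall fun x => mul_comm _ _)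

theorem Dat.int_rhs (hΩ : OB Ω) (hD : Dat Ω q c h μ μ₁ μ₂) (l : ℝ) (hu : MemLp u ⊤ (mm Ω))
    (hG : MemLp G 2 (mm Ω)) : Integrable (rhs c h μ l H2 u G) (mm Ω) := by
  obtain ⟨i1, i2, i3⟩ := dwg_int hΩ hD hu hG
  exact ((i1.const_mul l).add i2).add i3

theorem Dat.l2_rhs (hΩ : OB Ω) (hD : Dat Ω q c h μ μ₁ μ₂) (l : ℝ) {Hk : V → ℝ}
    (hH : Continuous Hk) {B₀ : ℝ} (hB : ∀ p, |Hk p| ≤ B₀) (hu : MemLp u ⊤ (mm Ω))
    (hG : AEStronglyMeasurable G (mm Ω)) : MemLp (rhs c h μ l Hk u G) 2 (mm Ω) := by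
  have := hΩ.fin
  have m1 : MemLp (fun x => c x * u x) 2 (mm Ω) := memLp_mul_top (hΩ.two_of_q hD.hq hD.cq) hu
  have m2 : MemLp (fun x => Hk (G x)) ⊤ (mm Ω) :=
    memLp_top_of_bound (hH.comp_aestronglyMeasurable hG) B₀ (Eventually.of_forall fun x => hB _)
  have m3 : MemLp (fun x => μ x * Hk (G x)) 2 (mm Ω) :=
    memLp_mul_top (hD.mu_top.mono_exponent le_top) m2
  exact ((m1.const_mul l).add m3).add (hΩ.two_of_q hD.hq hD.hh)

theorem Dat.isSol_iff (hΩ : OB Ω) (hD : Dat Ω q c h μ μ₁ μ₂) (l : ℝ) :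
    IsSol Ω c h μ l u ↔ ∃ G, TT Ω u G ∧ WEq Ω G (rhs c h μ l H2 u G) := by
  have key : ∀ G, TT Ω u G → ∀ v : V → ℝ, MemLp v ⊤ (mm Ω) →
      ∫ x, rhs c h μ l H2 u G x * v x ∂mm Ω = l * (∫ x, c x * u x * v x ∂mm Ω)
        + (∫ x, μ x * ‖G x‖ ^ 2 * v x ∂mm Ω) + ∫ x, h x * v x ∂mm Ω := by
    intro G hG v hv
    obtain ⟨i1, i2, i3⟩ := dwg_int hΩ hD hG.2 hG.1.2.1
    have j1 : Integrable (fun x => l * (c x * u x * v x)) (mm Ω) :=
      (int_mul_top i1 hv).const_mul l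
    have j2 : Integrable (fun x => μ x * ‖G x‖ ^ 2 * v x) (mm Ω) := int_mul_top i2 hv
    have j3 : Integrable (fun x => h x * v x) (mm Ω) := int_mul_top i3 hv
    have j4 : Integrable (fun x => l * (c x * u x * v x) + μ x * ‖G x‖ ^ 2 * v x) (mm Ω) :=
      j1.add j2
    rw [← integral_const_mul, ← integral_add j1 j2, ← integral_add j4 j3]
    refine integral_congr_ae (Eventually.of_forall fun x => ?_)
    simp only [rhs, H2]
    ring
  constructor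
  · rintro ⟨h1, G, h2, h3⟩
    refine ⟨G, ⟨h2, h1⟩, h2.2.1, hD.int_rhs hΩ l h1 h2.2.1, fun v H hv => ?_⟩
    rw [key G ⟨h2, h1⟩ v hv.2]
    exact h3 v H hv.1 hv.2
  · rintro ⟨G, h1, h2⟩
    refine ⟨h1.2, G, h1.1, fun v H hv hv' => ?_⟩
    rw [← key G h1 v hv']
    exact h2.eq v H ⟨hv, hv'⟩

end Pool.Agent.P.MP_0cf84d_an
end

-- part Pool.Agent.P.MP_0cf84d_an.DIbp
section

/-! Radial fields. -/

set_option linter.unusedSectionVars false
set_option linter.unusedVariables false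

namespace Pool.Agent.P.MP_0cf84d_an

open MeasureTheory Filter Topology Metric Set Module
open scoped RealInnerProductSpace ENNReal NNReal

variable {V : Type*} [NormedAddCommGroup V] [InnerProductSpace ℝ V] [FiniteDimensional ℝ V]
  [MeasurableSpace V] [BorelSpace V] [CompleteSpace V] {Ω : Set V}

theorem dibp_sq (y x : V) :
    HasFDerivAt (fun z : V => ‖z - y‖ ^ 2) (2 • innerSL ℝ (x - y)) x := by
  have h := (hasStrictFDerivAt_norm_sq (x - y)).hasFDerivAt.comp x ((hasFDerivAt_id x).sub_const y)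
  rw [ContinuousLinearMap.comp_id] at h
  exact h

theorem dibp_grad (y : V) {A : ℝ → ℝ} {t : ℝ} {x : V} (h : HasDerivAt A t (‖x - y‖ ^ 2)) :
    HasGradientAt (fun x => A (‖x - y‖ ^ 2)) ((2 * t) • (x - y)) x := by
  have h1 := h.comp_hasFDerivAt x (dibp_sq y x)
  rw [hasGradientAt_iff_hasFDerivAt]
  have e : (InnerProductSpace.toDual ℝ V) ((2 * t) • (x - y)) = t • 2 • (innerSL ℝ) (x - y) := by
    ext z
    simp only [map_smul, smul_apply, InnerProductSpace.toDual_apply_apply,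
      smul_eq_mul, innerSL_apply_apply, nsmul_eq_mul, Nat.cast_ofNat]
    ring
  rw [e]
  exact h1

theorem dibp_aux (hΩ : OB Ω) {φ : V → ℝ} (hφ : Tst Ω φ) (e : V) {g g' : V → ℝ}
    (hg : MemLp g 2 (mm Ω)) (hg' : MemLp g' 2 (mm Ω))
    (hd : ∀ x ∈ Ω, HasLineDerivAt ℝ g (g' x) x e) :
    ∫ x, φ x * g' x ∂mm Ω = -∫ x, ⟪gradient φ x, e⟫ * g x ∂mm Ω := by
  have h1 : MemLp φ 2 (mm Ω) := hφ.reg.memW hΩ 2
  have h2 : MemLp (fun x => ⟪gradient φ x, e⟫) 2 (mm Ω) := (hφ.reg.memF hΩ 2).inner_const e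
  have z1 : ∀ x, x ∉ Ω → φ x = 0 := fun x hx =>
    image_eq_zero_of_notMem_tsupport fun h => hx (hφ.2.2 h)
  have z2 : ∀ x, x ∉ Ω → ⟪gradient φ x, e⟫ = 0 := by
    intro x hx
    have : fderiv ℝ φ x = 0 := by
      by_contra h
      exact hx (hφ.2.2 (support_fderiv_subset ℝ h))
    simp [gradient, this]
  have hφd : ∀ x, HasLineDerivAt ℝ φ ⟪gradient φ x, e⟫ x e := by
    intro x
    have h3 : DifferentiableAt ℝ φ x := hφ.1.differentiable (by simp) x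
    have h4 := h3.hasGradientAt.hasFDerivAt.hasLineDerivAt e
    simpa using h4
  have i1 : Integrable (fun x => ⟪gradient φ x, e⟫ * g x) volume :=
    IntegrableOn.integrable_of_forall_notMem_eq_zero (int_mul h2 hg) fun x hx => by
      rw [z2 x hx, zero_mul]
  have i2 : Integrable (fun x => φ x * g' x) volume :=
    IntegrableOn.integrable_of_forall_notMem_eq_zero (int_mul h1 hg') fun x hx => by
      rw [z1 x hx, zero_mul]
  have i3 : Integrable (fun x => φ x * g x) volume :=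
    IntegrableOn.integrable_of_forall_notMem_eq_zero (int_mul h1 hg) fun x hx => by
      rw [z1 x hx, zero_mul]
  have key := integral_bilinear_hasLineDerivAt_right_eq_neg_left_of_integrable
    (μ := (volume : Measure V)) (B := ContinuousLinearMap.mul ℝ ℝ) (v := e) (f := φ)
    (f' := fun x => ⟪gradient φ x, e⟫) (g := g) (g' := g') i1 i2 i3 (fun x _ => hφd x)
    (fun x hx => hd x (hφ.2.2 hx))
  simp only [ContinuousLinearMap.mul_apply'] at key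
  rw [setIntegral_eq_integral_of_forall_compl_eq_zero fun x hx => by rw [z1 x hx, zero_mul],
    setIntegral_eq_integral_of_forall_compl_eq_zero fun x hx => by rw [z2 x hx, zero_mul]]
  exact key

theorem reg_radial (hΩ : OB Ω) (y : V) {A a : ℝ → ℝ}
    (hA : ∀ x ∈ Ω, HasDerivAt A (a (‖x - y‖ ^ 2)) (‖x - y‖ ^ 2))
    (hc : ContinuousOn (fun x => a (‖x - y‖ ^ 2)) Ω) {C : ℝ}
    (hb : ∀ x ∈ Ω, |A (‖x - y‖ ^ 2)| ≤ C ∧ |a (‖x - y‖ ^ 2)| ≤ C) :
    Reg Ω (fun x => A (‖x - y‖ ^ 2)) (fun x => (2 * a (‖x - y‖ ^ 2)) • (x - y)) := by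
  obtain ⟨R, hR, hR'⟩ := hΩ.radius y
  refine ⟨fun x hx => dibp_grad y (hA x hx),
    (continuousOn_const.mul hc).smul (continuousOn_id.sub continuousOn_const),
    max C (2 * C * R), fun x hx => ⟨(hb x hx).1.trans (le_max_left _ _), ?_⟩⟩
  refine le_trans ?_ (le_max_right _ _)
  rw [norm_smul, Real.norm_eq_abs, abs_mul, abs_two]
  have h1 := (hb x hx).2
  have h2 := abs_nonneg (a (‖x - y‖ ^ 2))
  exact mul_le_mul (by linarith) (hR' x hx) (norm_nonneg _) (by linarith)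

theorem weq_radial (hΩ : OB Ω) (y : V) {a a' : ℝ → ℝ}
    (ha : ∀ x ∈ Ω, HasDerivAt a (a' (‖x - y‖ ^ 2)) (‖x - y‖ ^ 2))
    (hc : ContinuousOn (fun x => a' (‖x - y‖ ^ 2)) Ω) {C : ℝ}
    (hb : ∀ x ∈ Ω, |a (‖x - y‖ ^ 2)| ≤ C ∧ |a' (‖x - y‖ ^ 2)| ≤ C) :
    WEq Ω (fun x => a (‖x - y‖ ^ 2) • (x - y))
      (fun x => -(finrank ℝ V * a (‖x - y‖ ^ 2) + 2 * ‖x - y‖ ^ 2 * a' (‖x - y‖ ^ 2))) := by
  obtain ⟨R, hR, hR'⟩ := hΩ.radius y
  have hreg := reg_radial hΩ y ha hc hb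
  have ca : ContinuousOn (fun x => a (‖x - y‖ ^ 2)) Ω := hreg.contW
  have cs : ContinuousOn (fun x : V => x - y) Ω := continuousOn_id.sub continuousOn_const
  have ma : MemLp (fun x => a (‖x - y‖ ^ 2)) ⊤ (mm Ω) := hreg.memW hΩ ⊤
  have ma2 : MemLp (fun x => a (‖x - y‖ ^ 2)) 2 (mm Ω) := hreg.memW hΩ 2
  have ma' : MemLp (fun x => a' (‖x - y‖ ^ 2)) ⊤ (mm Ω) :=
    hΩ.memLp_of_bdd hc (fun x hx => (hb x hx).2) ⊤
  have ms : ∀ p, MemLp (fun x : V => x - y) p (mm Ω) := hΩ.memLp_of_bdd cs hR'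
  have mq : MemLp (fun x : V => 2 * ‖x - y‖ ^ 2) 2 (mm Ω) := by
    refine hΩ.memLp_of_bdd (f := fun x : V => 2 * ‖x - y‖ ^ 2)
      (continuousOn_const.mul (cs.norm.pow 2)) (C := 2 * R ^ 2) (fun x hx => ?_) 2
    have h1 := hR' x hx
    have h2 := norm_nonneg (x - y)
    rw [Real.norm_eq_abs, abs_of_nonneg (by positivity)]
    nlinarith
  refine weq_of_tst hΩ (memLp_top_smul ma (ms 2))
    ((ma2.const_mul _).add (memLp_mul_top mq ma')).neg fun φ hφ => ?_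
  set b := stdOrthonormalBasis ℝ V with hbdef
  have mi : ∀ i p, MemLp (fun x : V => ⟪x - y, b i⟫) p (mm Ω) := fun i p => (ms p).inner_const _
  have mg : ∀ i, MemLp (fun x => ⟪x - y, b i⟫ * a (‖x - y‖ ^ 2)) 2 (mm Ω) :=
    fun i => memLp_mul_top (mi i 2) ma
  have mg' : ∀ i, MemLp (fun x => a (‖x - y‖ ^ 2) +
      2 * (⟪x - y, b i⟫ * ⟪x - y, b i⟫ * a' (‖x - y‖ ^ 2))) 2 (mm Ω) :=
    fun i => ma2.add ((memLp_mul_top (memLp_mul_top (mi i 2) (mi i ⊤)) ma').const_mul 2)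
  have hd : ∀ i, ∀ x ∈ Ω, HasLineDerivAt ℝ (fun x => ⟪x - y, b i⟫ * a (‖x - y‖ ^ 2))
      (a (‖x - y‖ ^ 2) + 2 * (⟪x - y, b i⟫ * ⟪x - y, b i⟫ * a' (‖x - y‖ ^ 2))) x (b i) := by
    intro i x hx
    have h1 : HasFDerivAt (fun x : V => ⟪x - y, b i⟫) (innerSL ℝ (b i)) x := by
      have h0 := ((innerSL ℝ (b i)).hasFDerivAt (x := x)).sub_const ⟪b i, y⟫
      refine h0.congr_of_eventuallyEq (Eventually.of_forall fun z => ?_)
      simp only [innerSL_apply_apply]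
      rw [real_inner_comm, inner_sub_right]
    have h2 := (h1.mul (dibp_grad y (ha x hx)).hasFDerivAt).hasLineDerivAt (b i)
    have e1 : ⟪b i, b i⟫ = (1 : ℝ) := by
      rw [real_inner_self_eq_norm_sq, b.orthonormal.1 i]
      norm_num
    refine h2.congr_deriv ?_
    simp only [add_apply, smul_apply,
      InnerProductSpace.toDual_apply_apply, smul_eq_mul, innerSL_apply_apply, e1,
      real_inner_smul_left]
    ring
  have key := fun i => dibp_aux hΩ hφ (b i) (mg i) (mg' i) (hd i)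
  have h1 : MemLp φ 2 (mm Ω) := hφ.reg.memW hΩ 2
  have h2 : ∀ i, MemLp (fun x => ⟪gradient φ x, b i⟫) 2 (mm Ω) :=
    fun i => (hφ.reg.memF hΩ 2).inner_const _
  have s1 := Finset.sum_congr (s₁ := Finset.univ) rfl fun i _ => key i
  rw [Finset.sum_neg_distrib, ← integral_finsetSum _ fun i _ => int_mul h1 (mg' i),
    ← integral_finsetSum _ fun i _ => int_mul (h2 i) (mg i)] at s1
  have e1 : ∀ x, ∑ i, ⟪gradient φ x, b i⟫ * (⟪x - y, b i⟫ * a (‖x - y‖ ^ 2)) =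
      ⟪a (‖x - y‖ ^ 2) • (x - y), gradient φ x⟫ := by
    intro x
    rw [real_inner_smul_left, real_inner_comm, ← b.sum_inner_mul_inner, Finset.mul_sum]
    refine Finset.sum_congr rfl fun i _ => ?_
    rw [real_inner_comm (x - y) (b i)]
    ring
  have e2 : ∀ x, ∑ i, φ x * (a (‖x - y‖ ^ 2) +
      2 * (⟪x - y, b i⟫ * ⟪x - y, b i⟫ * a' (‖x - y‖ ^ 2))) =
      -(-(finrank ℝ V * a (‖x - y‖ ^ 2) + 2 * ‖x - y‖ ^ 2 * a' (‖x - y‖ ^ 2)) * φ x) := by
    intro x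
    have e3 : ∑ i, ⟪x - y, b i⟫ * ⟪x - y, b i⟫ = ‖x - y‖ ^ 2 := by
      rw [← real_inner_self_eq_norm_sq, ← b.sum_inner_mul_inner]
      refine Finset.sum_congr rfl fun i _ => ?_
      rw [real_inner_comm (x - y) (b i)]
    rw [← Finset.mul_sum, Finset.sum_add_distrib, ← Finset.mul_sum, ← Finset.sum_mul, e3]
    simp only [Finset.sum_const, Finset.card_univ, Fintype.card_fin, nsmul_eq_mul]
    ring
  simp only [e1, e2] at s1
  rw [integral_neg] at s1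
  exact (neg_inj.1 s1).symm

end Pool.Agent.P.MP_0cf84d_an
end

-- part Pool.Agent.P.MP_0cf84d_an.DCmp
section

/-! Poincare inequality and comparison principle. -/

set_option linter.unusedSectionVars false
set_option linter.unusedVariables false

namespace Pool.Agent.P.MP_0cf84d_an

open MeasureTheory Filter Topology Metric Set Module
open scoped RealInnerProductSpace ENNReal NNReal

variable {V : Type*} [NormedAddCommGroup V] [InnerProductSpace ℝ V] [FiniteDimensional ℝ V]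
  [MeasurableSpace V] [BorelSpace V] [CompleteSpace V] {Ω : Set V}

theorem dcmp_tt (hΩ : OB Ω) {R : ℝ} (hR : ∀ x ∈ Ω, ‖x - 0‖ ≤ R) {v : V → ℝ} {H : V → V}
    (hv : TT Ω v H) : ∫ x, v x * v x ∂mm Ω ≤ R ^ 2 * ∫ x, ⟪H x, H x⟫ ∂mm Ω := by
  have hw := weq_radial hΩ (0 : V) (a := fun _ => 1) (a' := fun _ => 0) (C := 1)
    (fun x _ => hasDerivAt_const _ _) continuousOn_const (fun x _ => by simp)
  have hm := TT.mul hΩ hv hv
  have h1 := hw.eq _ _ hm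
  have i1 := int_inner hw.l2 hm.1.2.1
  have i2 := int_mul_top hw.l1 hm.2
  have i3 := int_mul hv.1.1 hv.1.1
  have i4 := (int_inner hv.1.2.1 hv.1.2.1).const_mul (R ^ 2)
  have hN : (2 : ℝ) ≤ finrank ℝ V := by exact_mod_cast hΩ.dim
  have h2 := integral_mono_ae (i3.sub i4) (i1.sub i2) (hΩ.mem.mono fun x hx => by
    have e1 := abs_real_inner_le_norm (x - 0) (H x)
    have e2 := mul_le_mul_of_nonneg_right (hR x hx) (norm_nonneg (H x))
    have e3 : |v x * ⟪x - 0, H x⟫| ≤ |v x| * (R * ‖H x‖) := by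
      rw [abs_mul]
      exact mul_le_mul_of_nonneg_left (e1.trans e2) (abs_nonneg _)
    have e4 := (abs_le.1 e3).1
    have e5 := sq_nonneg (|v x| - R * ‖H x‖)
    have e6 := sq_abs (v x)
    have e7 := mul_le_mul_of_nonneg_right hN (mul_self_nonneg (v x))
    simp only [Pi.sub_apply, one_smul, inner_add_right, real_inner_smul_right,
      real_inner_self_eq_norm_sq]
    nlinarith)
  simp only [Pi.sub_apply] at h2
  rw [integral_sub i3 i4, integral_sub i1 i2, h1, sub_self, integral_const_mul] at h2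
  linarith

theorem poincare (hΩ : OB Ω) : ∃ C, 0 < C ∧ ∀ v H, InH10 Ω v H →
    ∫ x, v x ^ 2 ∂mm Ω ≤ C * ∫ x, ‖H x‖ ^ 2 ∂mm Ω := by
  obtain ⟨R, hR0, hR⟩ := hΩ.radius (0 : V)
  refine ⟨R ^ 2, by positivity, fun v H hv => ?_⟩
  obtain ⟨φ, h1, h2, h3⟩ := hv.approx hΩ
  have h4 := le_of_tendsto_of_tendsto' (h2.mul h2) ((h3.inner h3).const_mul (R ^ 2))
    fun n => dcmp_tt hΩ hR ((h1 n).mem hΩ)
  simp only [real_inner_self_eq_norm_sq, ← sq] at h4
  exact h4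

theorem cmp (hΩ : OB Ω) {u W f : V → ℝ} {G F : V → V} (hu : InH10 Ω u G) (hW : Reg Ω W F)
    {K : Set V} (hK : IsCompact K) (hKΩ : K ⊆ Ω) (h0 : ∀ x ∈ Ω, x ∉ K → 0 ≤ W x)
    (h : WGe Ω (fun x => F x - G x) f) (hf : MemLp f 2 (mm Ω)) {κ Λ : ℝ} (hΛ : Λ ^ 2 ≤ 2 * κ)
    (hle : ∀ᵐ x ∂mm Ω, W x < u x → κ * (u x - W x) - Λ * ‖G x - F x‖ ≤ f x) :
    ∀ᵐ x ∂mm Ω, u x ≤ W x := by
  have hz := posPart hΩ hu hW hK hKΩ h0
  have h1 := h.ext hΩ hf hz (Eventually.of_forall fun x => le_max_right _ _)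
  have i1 := int_inner h.l2 hz.2.1
  have i2 := int_mul hf hz.1
  have i3 := (int_sq hz.2.1).const_mul (-(1 / 2 : ℝ))
  have h2 := integral_mono_ae (i1.sub i2) i3 (hle.mono fun x hx => by
    simp only [Pi.sub_apply]
    by_cases hx' : W x < u x
    · have e1 := mul_le_mul_of_nonneg_right (hx hx') (sub_pos.2 hx').le
      have e2 := sq_nonneg (‖G x - F x‖ - Λ * (u x - W x))
      have e3 := mul_le_mul_of_nonneg_right hΛ (sq_nonneg (u x - W x))
      rw [if_pos hx', max_eq_left (sub_pos.2 hx').le, ← neg_sub (G x) (F x), inner_neg_left,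
        real_inner_self_eq_norm_sq]
      nlinarith
    · rw [if_neg hx', max_eq_right (sub_nonpos.2 (not_lt.1 hx'))]
      simp)
  simp only [Pi.sub_apply] at h2
  rw [integral_sub i1 i2, integral_const_mul] at h2
  obtain ⟨C, hC, hP⟩ := poincare hΩ
  have h3 := hP _ _ hz
  have h4 : ∫ x, ‖if W x < u x then G x - F x else 0‖ ^ 2 ∂mm Ω ≤ 0 := by linarith
  have h5 : ∫ x, (max (u x - W x) 0) ^ 2 ∂mm Ω ≤ 0 :=
    h3.trans (mul_nonpos_of_nonneg_of_nonpos hC.le h4)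
  have i4 : Integrable (fun x => (max (u x - W x) 0) ^ 2) (mm Ω) := by
    simpa only [← sq] using int_mul hz.1 hz.1
  have h6 := (integral_eq_zero_iff_of_nonneg (fun x => sq_nonneg _) i4).1
    (le_antisymm h5 (integral_nonneg fun x => sq_nonneg _))
  refine h6.mono fun x hx => ?_
  have h7 : max (u x - W x) 0 = 0 := pow_eq_zero_iff two_ne_zero |>.1 hx
  have h8 := le_max_left (u x - W x) 0
  linarith

/-- the weak maximum principle -/
theorem max_pr (hΩ : OB Ω) {u f : V → ℝ} {G : V → V} (hu : InH10 Ω u G) (h : WGe Ω G f)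
    (h0 : ∀ᵐ x ∂mm Ω, 0 ≤ f x) : ∀ᵐ x ∂mm Ω, 0 ≤ u x := by
  have h1 : WGe Ω G fun _ => 0 := h.mono' (integrable_zero _ _ _) h0
  have h2 : WGe Ω (fun x => (fun _ => (0 : V)) x - (fun x => -G x) x) fun _ => 0 :=
    h1.congr (Eventually.of_forall fun x => by simp) (EventuallyEq.refl _ _)
  have h3 := cmp hΩ (hu.neg hΩ) (reg_const Ω 0) isCompact_empty (empty_subset _)
    (fun _ _ _ => le_rfl) h2 MemLp.zero' (κ := 0) (Λ := 0) (by norm_num)
    (Eventually.of_forall fun x _ => by simp)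
  exact h3.mono fun x hx => neg_nonpos.1 hx

end Pool.Agent.P.MP_0cf84d_an
end

-- part Pool.Agent.P.MP_0cf84d_an.DLin
section

/-! The linear problem. -/

set_option linter.unusedSectionVars false
set_option linter.unusedVariables false

namespace Pool.Agent.P.MP_0cf84d_an

open MeasureTheory Filter Topology Metric Set Module
open scoped RealInnerProductSpace ENNReal NNReal

variable {V : Type*} [NormedAddCommGroup V] [InnerProductSpace ℝ V] [FiniteDimensional ℝ V]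
  [MeasurableSpace V] [BorelSpace V] [CompleteSpace V] {Ω : Set V}

theorem dlin_abs {A B : Type*} [NormedAddCommGroup A] [InnerProductSpace ℝ A] [CompleteSpace A]
    [NormedAddCommGroup B] [InnerProductSpace ℝ B] [CompleteSpace B]
    (S : Submodule ℝ (WithLp 2 (A × B))) (hS : IsClosed (S : Set (WithLp 2 (A × B)))) {K C : ℝ}
    (hK : 0 ≤ K) (hC : 0 < C) (hP : ∀ p ∈ S, ‖p.fst‖ ^ 2 ≤ C * ‖p.snd‖ ^ 2) (f : A) :
    ∃ p ∈ S, ∀ p' ∈ S, ⟪p.snd, p'.snd⟫ + K * ⟪p.fst, p'.fst⟫ = ⟪f, p'.fst⟫ := by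
  have := hS.completeSpace_coe
  obtain ⟨a, ha⟩ : ∃ a : S →L[ℝ] A, ∀ p, a p = p.1.fst :=
    ⟨(WithLp.fstL 2 ℝ A B).comp S.subtypeL, fun _ => rfl⟩
  obtain ⟨b, hb⟩ : ∃ b : S →L[ℝ] B, ∀ p, b p = p.1.snd :=
    ⟨(WithLp.sndL 2 ℝ A B).comp S.subtypeL, fun _ => rfl⟩
  obtain ⟨Q, hQ⟩ : ∃ Q : S →L[ℝ] S →L[ℝ] ℝ, ∀ p p', Q p p' = ⟪b p, b p'⟫ + K * ⟪a p, a p'⟫ :=
    ⟨(innerSL ℝ).bilinearComp b b + K • (innerSL ℝ).bilinearComp a a, fun _ _ => rfl⟩
  have hc : IsCoercive Q := by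
    refine ⟨1 / (C + 1), by positivity, fun p => ?_⟩
    have h1 : ‖p‖ ^ 2 = ‖p.1.fst‖ ^ 2 + ‖p.1.snd‖ ^ 2 := WithLp.prod_norm_sq_eq_of_L2 p.1
    have h2 := hP p.1 p.2
    rw [hQ, ha, hb, real_inner_self_eq_norm_sq, real_inner_self_eq_norm_sq, mul_assoc, ← sq, h1,
      one_div, inv_mul_le_iff₀ (by positivity)]
    have h3 : 0 ≤ K * ‖p.1.fst‖ ^ 2 := by positivity
    nlinarith [mul_nonneg hC.le h3]
  obtain ⟨p, hp⟩ := hc.continuousLinearEquivOfBilin.surjective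
    ((InnerProductSpace.toDual ℝ S).symm ((innerSL ℝ f).comp a))
  refine ⟨p.1, p.2, fun p' hp' => ?_⟩
  have h := hc.continuousLinearEquivOfBilin_apply p ⟨p', hp'⟩
  rw [hp, InnerProductSpace.toDual_symm_apply, hQ, ha, ha, hb, hb] at h
  rw [← h, ContinuousLinearMap.comp_apply, ha]
  rfl

theorem dlin_norm_sq {E : Type*} [NormedAddCommGroup E] [InnerProductSpace ℝ E]
    (g : Lp E 2 (mm Ω)) : ‖g‖ ^ 2 = ∫ x, ‖g x‖ ^ 2 ∂mm Ω := by
  rw [← real_inner_self_eq_norm_sq, L2.inner_def]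
  simp only [real_inner_self_eq_norm_sq]

theorem dlin_l2t {E : Type*} [NormedAddCommGroup E] {g : ℕ → Lp E 2 (mm Ω)} {g₀ : Lp E 2 (mm Ω)}
    (h : Tendsto g atTop (𝓝 g₀)) : L2T (mm Ω) (fun n => g n) g₀ :=
  (l2t_iff (fun n => Lp.memLp (g n)) (Lp.memLp g₀)).2
    ((Lp.tendsto_Lp_iff_tendsto_eLpNorm' g g₀).1 h)

/-- `H^1_0` as a subspace of `L^2 × L^2` -/
def dlin_S (hΩ : OB Ω) : Submodule ℝ (WithLp 2 (Lp ℝ 2 (mm Ω) × Lp V 2 (mm Ω))) where
  carrier := {p | InH10 Ω p.fst p.snd}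
  add_mem' {p p'} h h' := (InH10.add hΩ h h').congr (Lp.coeFn_add p.fst p'.fst).symm
    (Lp.coeFn_add p.snd p'.snd).symm
  zero_mem' := (inH10_zero Ω).congr (Lp.coeFn_zero ℝ 2 (mm Ω)).symm (Lp.coeFn_zero V 2 (mm Ω)).symm
  smul_mem' a p h := (InH10.smul hΩ h a).congr (Lp.coeFn_smul a p.fst).symm
    (Lp.coeFn_smul a p.snd).symm

theorem dlin_closed (hΩ : OB Ω) :
    IsClosed (dlin_S hΩ : Set (WithLp 2 (Lp ℝ 2 (mm Ω) × Lp V 2 (mm Ω)))) := by
  refine IsSeqClosed.isClosed fun p p₀ hp h => ?_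
  exact inH10_limit hΩ hp (dlin_l2t (((WithLp.fstL 2 ℝ _ _).continuous.tendsto p₀).comp h))
    (dlin_l2t (((WithLp.sndL 2 ℝ _ _).continuous.tendsto p₀).comp h))

theorem solve_lin (hΩ : OB Ω) {K : ℝ} (hK : 0 ≤ K) {f : V → ℝ} (hf : MemLp f 2 (mm Ω)) :
    ∃ y Y, InH10 Ω y Y ∧ WEq Ω Y (fun x => f x - K * y x) := by
  have := hΩ.fin
  obtain ⟨C, hC, hP⟩ := poincare hΩ
  obtain ⟨p, hp, h⟩ := dlin_abs (dlin_S hΩ) (dlin_closed hΩ) hK hC (fun p hp => by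
    rw [dlin_norm_sq, dlin_norm_sq]
    simpa only [Real.norm_eq_abs, sq_abs] using hP _ _ hp) (hf.toLp f)
  have hy : MemLp p.fst 2 (mm Ω) := Lp.memLp _
  refine ⟨p.fst, p.snd, hp, Lp.memLp _,
    (hf.sub (hy.const_mul K)).integrable one_le_two, fun v H hv => ?_⟩
  have hv2 : MemLp v 2 (mm Ω) := hv.1.1
  have hH2 : MemLp H 2 (mm Ω) := hv.1.2.1
  have h1 := h (WithLp.toLp 2 (hv2.toLp v, hH2.toLp H))
    (hv.1.congr hv2.coeFn_toLp.symm hH2.coeFn_toLp.symm)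
  have e1 : ⟪p.snd, hH2.toLp H⟫ = ∫ x, ⟪p.snd x, H x⟫ ∂mm Ω := by
    rw [L2.inner_def]
    exact integral_congr_ae (hH2.coeFn_toLp.mono fun x hx => by simp only [hx])
  have e2 : ⟪p.fst, hv2.toLp v⟫ = ∫ x, p.fst x * v x ∂mm Ω := by
    rw [L2.inner_def]
    exact integral_congr_ae (hv2.coeFn_toLp.mono fun x hx => by simp [hx, mul_comm])
  have e3 : ⟪hf.toLp f, hv2.toLp v⟫ = ∫ x, f x * v x ∂mm Ω := by
    rw [L2.inner_def]
    refine integral_congr_ae ?_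
    filter_upwards [hv2.coeFn_toLp, hf.coeFn_toLp] with x h2 h3
    simp [h2, h3, mul_comm]
  have h2 : ∫ x, ⟪p.snd x, H x⟫ ∂mm Ω + K * ∫ x, p.fst x * v x ∂mm Ω = ∫ x, f x * v x ∂mm Ω := by
    rw [← e1, ← e2, ← e3]
    exact h1
  have e4 : ∀ x, (f x - K * p.fst x) * v x = f x * v x - K * (p.fst x * v x) := fun x => by ring
  simp only [e4]
  rw [integral_sub (int_mul hf hv2) ((int_mul hy hv2).const_mul K), integral_const_mul]
  linarith

end Pool.Agent.P.MP_0cf84d_an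
end

-- part Pool.Agent.P.MP_0cf84d_an.DTrunc
section

/-! The problem with a Lipschitz Hamiltonian. -/

set_option linter.unusedSectionVars false
set_option linter.unusedVariables false

namespace Pool.Agent.P.MP_0cf84d_an

open MeasureTheory Filter Topology Metric Set Module
open scoped RealInnerProductSpace ENNReal NNReal

variable {V : Type*} [NormedAddCommGroup V] [InnerProductSpace ℝ V] [FiniteDimensional ℝ V]
  [MeasurableSpace V] [BorelSpace V] [CompleteSpace V] {Ω : Set V}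

variable {μ f f' z z' : V → ℝ} {Z Z' : V → V} {μ₂ K B₀ : ℝ} {Hk : V → ℝ} {Λ : ℝ≥0}

theorem dtrunc_sq {α : Type*} [MeasurableSpace α] {m : Measure α} {a : α → ℝ}
    (ha : MemLp a 2 m) : Integrable (fun x => a x ^ 2) m :=
  (int_mul ha ha).congr (Eventually.of_forall fun x => (sq (a x)).symm)

theorem lin_stab (hΩ : OB Ω) (hK : 0 < K) (hf : MemLp f 2 (mm Ω)) (hf' : MemLp f' 2 (mm Ω))
    (hz : InH10 Ω z Z) (hz' : InH10 Ω z' Z') (h : WEq Ω Z (fun x => f x - K * z x))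
    (h' : WEq Ω Z' (fun x => f' x - K * z' x)) :
    ∫ x, ‖Z x - Z' x‖ ^ 2 ∂mm Ω + K / 2 * ∫ x, (z x - z' x) ^ 2 ∂mm Ω ≤
      1 / (2 * K) * ∫ x, (f x - f' x) ^ 2 ∂mm Ω := by
  have hw := hz.sub hΩ hz'
  have m1 : MemLp (fun x => f x - K * z x) 2 (mm Ω) := hf.sub (hz.1.const_mul K)
  have m2 : MemLp (fun x => f' x - K * z' x) 2 (mm Ω) := hf'.sub (hz'.1.const_mul K)
  have e1 := h.ext hΩ m1 hw
  have e2 := h'.ext hΩ m2 hw
  have e3 : ∫ x, ‖Z x - Z' x‖ ^ 2 ∂mm Ω =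
      ∫ x, ⟪Z x, Z x - Z' x⟫ ∂mm Ω - ∫ x, ⟪Z' x, Z x - Z' x⟫ ∂mm Ω := by
    rw [← integral_sub (int_inner hz.2.1 hw.2.1) (int_inner hz'.2.1 hw.2.1)]
    refine integral_congr_ae (Eventually.of_forall fun x => ?_)
    simp only
    rw [← inner_sub_left, real_inner_self_eq_norm_sq]
  have i1 := int_mul m1 hw.1
  have i2 := int_mul m2 hw.1
  have i3 : Integrable (fun x => K / 2 * (z x - z' x) ^ 2) (mm Ω) := (dtrunc_sq hw.1).const_mul _
  have i4 : Integrable (fun x => (f x - K * z x) * (z x - z' x) - (f' x - K * z' x) * (z x - z' x))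
      (mm Ω) := i1.sub i2
  have i5 : Integrable (fun x => 1 / (2 * K) * (f x - f' x) ^ 2) (mm Ω) :=
    (dtrunc_sq (a := fun x => f x - f' x) (hf.sub hf')).const_mul _
  rw [e3, e1, e2, ← integral_sub i1 i2, ← integral_const_mul, ← integral_const_mul,
    ← integral_add i4 i3]
  refine integral_mono (i4.add i3) i5 fun x => ?_
  have e : 1 / (2 * K) * (f x - f' x) ^ 2 - ((f x - K * z x) * (z x - z' x) -
      (f' x - K * z' x) * (z x - z' x) + K / 2 * (z x - z' x) ^ 2) =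
      (f x - f' x - K * (z x - z' x)) ^ 2 / (2 * K) := by
    field_simp
    ring
  have := div_nonneg (sq_nonneg (f x - f' x - K * (z x - z' x))) (by linarith : 0 ≤ 2 * K)
  simp only
  linarith

theorem dtrunc_mem (hΩ : OB Ω) (hμm : AEStronglyMeasurable μ (mm Ω))
    (hμ : ∀ᵐ x ∂mm Ω, |μ x| ≤ μ₂) (hH : LipschitzWith Λ Hk) (hB : ∀ p, |Hk p| ≤ B₀)
    (hZ : MemLp Z 2 (mm Ω)) : MemLp (fun x => μ x * Hk (Z x)) 2 (mm Ω) := by
  have := hΩ.fin
  refine MemLp.of_bound (hμm.mul (hH.continuous.comp_aestronglyMeasurable hZ.1)) (μ₂ * B₀)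
    (hμ.mono fun x hx => ?_)
  rw [Real.norm_eq_abs, abs_mul]
  exact mul_le_mul hx (hB _) (abs_nonneg _) ((abs_nonneg _).trans hx)

theorem dtrunc_pt (hμ : ∀ᵐ x ∂mm Ω, |μ x| ≤ μ₂) (hH : LipschitzWith Λ Hk) (Z Z' : V → V) :
    ∀ᵐ x ∂mm Ω, ‖μ x * Hk (Z x) - μ x * Hk (Z' x)‖ ≤ Λ * μ₂ * ‖Z x - Z' x‖ :=
  hμ.mono fun x hx => by
    have h1 := hH.dist_le_mul (Z x) (Z' x)
    rw [Real.dist_eq, dist_eq_norm] at h1
    rw [Real.norm_eq_abs, ← mul_sub, abs_mul, mul_comm (Λ : ℝ), mul_assoc]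
    exact mul_le_mul hx h1 (abs_nonneg _) ((abs_nonneg _).trans hx)

theorem dtrunc_int (hΩ : OB Ω) (hμm : AEStronglyMeasurable μ (mm Ω))
    (hμ : ∀ᵐ x ∂mm Ω, |μ x| ≤ μ₂) (hH : LipschitzWith Λ Hk) (hB : ∀ p, |Hk p| ≤ B₀)
    (hf : MemLp f 2 (mm Ω)) (hf' : MemLp f' 2 (mm Ω)) (hZ : MemLp Z 2 (mm Ω))
    (hZ' : MemLp Z' 2 (mm Ω)) {s t : ℝ} (ht : 0 ≤ t)
    (hst : ∀ x (b : ℝ), (f x - f' x + b) ^ 2 ≤ s * (f x - f' x) ^ 2 + t * b ^ 2) :
    ∫ x, (f x + μ x * Hk (Z x) - (f' x + μ x * Hk (Z' x))) ^ 2 ∂mm Ω ≤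
      s * ∫ x, (f x - f' x) ^ 2 ∂mm Ω + t * (Λ * μ₂) ^ 2 * ∫ x, ‖Z x - Z' x‖ ^ 2 ∂mm Ω := by
  have i1 : Integrable (fun x => s * (f x - f' x) ^ 2) (mm Ω) :=
    (dtrunc_sq (a := fun x => f x - f' x) (hf.sub hf')).const_mul _
  have i2 : Integrable (fun x => t * (Λ * μ₂) ^ 2 * ‖Z x - Z' x‖ ^ 2) (mm Ω) :=
    (int_sq (g := fun x => Z x - Z' x) (hZ.sub hZ')).const_mul _
  rw [← integral_const_mul, ← integral_const_mul, ← integral_add i1 i2]
  refine integral_mono_ae (dtrunc_sq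
    (a := fun x => f x + μ x * Hk (Z x) - (f' x + μ x * Hk (Z' x)))
    ((hf.add (dtrunc_mem hΩ hμm hμ hH hB hZ)).sub (hf'.add (dtrunc_mem hΩ hμm hμ hH hB hZ'))))
    (i1.add i2) ((dtrunc_pt hμ hH Z Z').mono fun x hx => ?_)
  have h1 := hst x (μ x * Hk (Z x) - μ x * Hk (Z' x))
  have h2 := pow_le_pow_left₀ (norm_nonneg _) hx 2
  rw [Real.norm_eq_abs, sq_abs, mul_pow] at h2
  have h3 := mul_le_mul_of_nonneg_left h2 ht
  have e : f x + μ x * Hk (Z x) - (f' x + μ x * Hk (Z' x)) =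
      f x - f' x + (μ x * Hk (Z x) - μ x * Hk (Z' x)) := by ring
  simp only [e]
  linarith

theorem trunc_stab (hΩ : OB Ω) (hμm : AEStronglyMeasurable μ (mm Ω))
    (hμ : ∀ᵐ x ∂mm Ω, |μ x| ≤ μ₂) (hH : LipschitzWith Λ Hk) (hB : ∀ p, |Hk p| ≤ B₀) (hK : 2 ≤ K)
    (hK' : 2 * (Λ * μ₂) ^ 2 ≤ K) (hf : MemLp f 2 (mm Ω)) (hf' : MemLp f' 2 (mm Ω))
    (hz : InH10 Ω z Z) (hz' : InH10 Ω z' Z')
    (h : WEq Ω Z (fun x => f x + μ x * Hk (Z x) - K * z x))
    (h' : WEq Ω Z' (fun x => f' x + μ x * Hk (Z' x) - K * z' x)) :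
    ∫ x, ‖Z x - Z' x‖ ^ 2 ∂mm Ω ≤ ∫ x, (f x - f' x) ^ 2 ∂mm Ω := by
  have hK0 : 0 < K := by linarith
  have h1 := lin_stab (f := fun x => f x + μ x * Hk (Z x)) (f' := fun x => f' x + μ x * Hk (Z' x))
    hΩ hK0 (hf.add (dtrunc_mem hΩ hμm hμ hH hB hz.2.1))
    (hf'.add (dtrunc_mem hΩ hμm hμ hH hB hz'.2.1)) hz hz' h h'
  have h2 := dtrunc_int hΩ hμm hμ hH hB hf hf' hz.2.1 hz'.2.1 (s := 2) (t := 2) two_pos.le
    fun x b => by nlinarith [sq_nonneg (f x - f' x - b)]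
  have p1 : 0 ≤ ∫ x, ‖Z x - Z' x‖ ^ 2 ∂mm Ω := integral_nonneg fun x => sq_nonneg _
  have p2 : 0 ≤ ∫ x, (z x - z' x) ^ 2 ∂mm Ω := integral_nonneg fun x => sq_nonneg _
  have p3 : 0 ≤ ∫ x, (f x - f' x) ^ 2 ∂mm Ω := integral_nonneg fun x => sq_nonneg _
  generalize ∫ x, ‖Z x - Z' x‖ ^ 2 ∂mm Ω = A at *
  generalize ∫ x, (z x - z' x) ^ 2 ∂mm Ω = B at *
  generalize ∫ x, (f x - f' x) ^ 2 ∂mm Ω = C at *
  generalize ∫ x, (f x + μ x * Hk (Z x) - (f' x + μ x * Hk (Z' x))) ^ 2 ∂mm Ω = D at *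
  rw [one_div, inv_mul_eq_div, le_div_iff₀ (by linarith)] at h1
  have h3 := mul_le_mul_of_nonneg_right hK' p1
  have h4 := mul_le_mul_of_nonneg_right hK p3
  have h5 := mul_nonneg (mul_nonneg hK0.le hK0.le) p2
  refine le_of_mul_le_mul_left (?_ : K * A ≤ K * C) hK0
  nlinarith

theorem dtrunc_geo {α E : Type*} [MeasurableSpace α] {m : Measure α} [NormedAddCommGroup E]
    [CompleteSpace E] {F : ℕ → α → E} (hF : ∀ n, MemLp (F n) 2 m) {C : ℝ}
    (h : ∀ n, ∫ x, ‖F (n + 1) x - F n x‖ ^ 2 ∂m ≤ C * (1 / 4) ^ n) : ∃ g, L2T m F g := by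
  have i0 : ∀ i j, Integrable (fun x => ‖F i x - F j x‖ ^ 2) m := fun i j =>
    int_sq (g := fun x => F i x - F j x) ((hF i).sub (hF j))
  have hC : 0 ≤ C := by
    have := (integral_nonneg fun x => sq_nonneg _).trans (h 0)
    simpa using this
  have key : ∀ k i, ∫ x, ‖F (i + k) x - F i x‖ ^ 2 ∂m ≤ 4 * C * (1 / 4) ^ i := by
    intro k
    induction k with
    | zero =>
      intro i
      simp only [add_zero, sub_self, norm_zero, ne_eq, OfNat.ofNat_ne_zero, not_false_eq_true,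
        zero_pow, integral_zero]
      positivity
    | succ k ih =>
      intro i
      have h1 := ih (i + 1)
      have h2 := h i
      have h3 : ∫ x, ‖F (i + (k + 1)) x - F i x‖ ^ 2 ∂m ≤
          2 * ∫ x, ‖F (i + 1 + k) x - F (i + 1) x‖ ^ 2 ∂m +
            2 * ∫ x, ‖F (i + 1) x - F i x‖ ^ 2 ∂m := by
        rw [← integral_const_mul, ← integral_const_mul,
          ← integral_add ((i0 _ _).const_mul 2) ((i0 _ _).const_mul 2),
          show i + (k + 1) = i + 1 + k by ring]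
        refine integral_mono (i0 _ _) (((i0 _ _).const_mul 2).add ((i0 _ _).const_mul 2))
          fun x => ?_
        have h4 := pow_le_pow_left₀ (norm_nonneg _)
          (norm_sub_le_norm_sub_add_norm_sub (F (i + 1 + k) x) (F (i + 1) x) (F i x)) 2
        simp only
        nlinarith [sq_nonneg (‖F (i + 1 + k) x - F (i + 1) x‖ - ‖F (i + 1) x - F i x‖)]
      rw [pow_succ (1 / 4 : ℝ)] at h1
      linarith
  refine exists_l2t hF fun ε hε => ?_
  have ht : Tendsto (fun i : ℕ => 4 * C * (1 / 4 : ℝ) ^ i) atTop (𝓝 (4 * C * 0)) :=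
    (tendsto_pow_atTop_nhds_zero_of_lt_one (by norm_num) (by norm_num)).const_mul _
  rw [mul_zero] at ht
  obtain ⟨N, hN⟩ := eventually_atTop.1 (ht.eventually (gt_mem_nhds hε))
  refine ⟨N, fun i j hi hij => ?_⟩
  obtain ⟨k, rfl⟩ := Nat.exists_eq_add_of_le hij
  exact (key k i).trans (hN i hi).le

theorem solve_trunc (hΩ : OB Ω) (hμm : AEStronglyMeasurable μ (mm Ω))
    (hμ : ∀ᵐ x ∂mm Ω, |μ x| ≤ μ₂) (hH : LipschitzWith Λ Hk) (hB : ∀ p, |Hk p| ≤ B₀) (hK : 2 ≤ K)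
    (hK' : 2 * (Λ * μ₂) ^ 2 ≤ K) (hf : MemLp f 2 (mm Ω)) :
    ∃ z Z, InH10 Ω z Z ∧ WEq Ω Z (fun x => f x + μ x * Hk (Z x) - K * z x) := by
  have := hΩ.fin
  have hK0 : 0 < K := by linarith
  have hm : ∀ {Z : V → V}, MemLp Z 2 (mm Ω) → MemLp (fun x => f x + μ x * Hk (Z x)) 2 (mm Ω) :=
    fun hZ => hf.add (dtrunc_mem hΩ hμm hμ hH hB hZ)
  obtain ⟨y, S, hS, h1, h2⟩ : ∃ (y : ℕ → V → ℝ) (S : ℕ → V → V), (∀ n, MemLp (S n) 2 (mm Ω)) ∧
      (∀ n, InH10 Ω (y n) (S (n + 1))) ∧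
      ∀ n, WEq Ω (S (n + 1)) fun x => f x + μ x * Hk (S n x) - K * y n x := by
    choose y Y hy hY using fun Z : {Z : V → V // MemLp Z 2 (mm Ω)} => solve_lin hΩ hK0.le (hm Z.2)
    obtain ⟨S, hS⟩ : ∃ S : ℕ → {Z : V → V // MemLp Z 2 (mm Ω)}, ∀ n, (S (n + 1)).1 = Y (S n) :=
      ⟨fun n => Nat.rec ⟨0, MemLp.zero⟩ (fun _ Z => ⟨Y Z, (hy Z).2.1⟩) n, fun _ => rfl⟩
    exact ⟨fun n => y (S n), fun n => (S n).1, fun n => (S n).2, fun n => by
      simpa only [hS] using hy (S n), fun n => by simpa only [hS] using hY (S n)⟩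
  have st : ∀ n, ∫ x, ‖S (n + 2) x - S (n + 1) x‖ ^ 2 ∂mm Ω +
      ∫ x, ‖y (n + 1) x - y n x‖ ^ 2 ∂mm Ω ≤ (∫ x, ‖S (n + 1) x - S n x‖ ^ 2 ∂mm Ω) / 4 := by
    intro n
    have a1 := lin_stab hΩ hK0 (hm (hS (n + 1))) (hm (hS n)) (h1 (n + 1)) (h1 n) (h2 (n + 1)) (h2 n)
    have a2 := dtrunc_int hΩ hμm hμ hH hB hf hf (hS (n + 1)) (hS n) (s := 0) (t := 1) one_pos.le
      fun x b => by simp
    have p1 : 0 ≤ ∫ x, ‖S (n + 1) x - S n x‖ ^ 2 ∂mm Ω := integral_nonneg fun x => sq_nonneg _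
    have p2 : 0 ≤ ∫ x, (y (n + 1) x - y n x) ^ 2 ∂mm Ω := integral_nonneg fun x => sq_nonneg _
    simp only [Real.norm_eq_abs, sq_abs]
    rw [zero_mul, zero_add, one_mul] at a2
    generalize ∫ x, ‖S (n + 1) x - S n x‖ ^ 2 ∂mm Ω = A at *
    generalize ∫ x, (y (n + 1) x - y n x) ^ 2 ∂mm Ω = B at *
    generalize ∫ x, ‖S (n + 2) x - S (n + 1) x‖ ^ 2 ∂mm Ω = C at *
    generalize ∫ x, (f x + μ x * Hk (S (n + 1) x) - (f x + μ x * Hk (S n x))) ^ 2 ∂mm Ω = D at *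
    rw [one_div, inv_mul_eq_div, le_div_iff₀ (by linarith)] at a1
    have a3 := mul_le_mul_of_nonneg_right hK' p1
    have a4 := mul_le_mul_of_nonneg_left (mul_le_mul_of_nonneg_right hK p2) hK0.le
    refine le_of_mul_le_mul_left (?_ : K * (C + B) ≤ K * (A / 4)) hK0
    nlinarith
  have g1 : ∀ n, ∫ x, ‖S (n + 1) x - S n x‖ ^ 2 ∂mm Ω ≤
      (∫ x, ‖S 1 x - S 0 x‖ ^ 2 ∂mm Ω) * (1 / 4) ^ n := by
    intro n
    induction n with
    | zero => simp
    | succ n ih =>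
      have p : 0 ≤ ∫ x, ‖y (n + 1) x - y n x‖ ^ 2 ∂mm Ω := integral_nonneg fun x => sq_nonneg _
      rw [pow_succ (1 / 4 : ℝ)]
      linarith [st n]
  have g2 : ∀ n, ∫ x, ‖y (n + 1) x - y n x‖ ^ 2 ∂mm Ω ≤
      (∫ x, ‖S 1 x - S 0 x‖ ^ 2 ∂mm Ω) * (1 / 4) ^ n := fun n => by
    have p : 0 ≤ ∫ x, ‖S (n + 2) x - S (n + 1) x‖ ^ 2 ∂mm Ω := integral_nonneg fun x => sq_nonneg _
    have p' : 0 ≤ ∫ x, ‖S (n + 1) x - S n x‖ ^ 2 ∂mm Ω := integral_nonneg fun x => sq_nonneg _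
    linarith [st n, g1 n]
  obtain ⟨Z, hZ⟩ := dtrunc_geo hS g1
  obtain ⟨z, hz⟩ := dtrunc_geo (fun n => (h1 n).1) g2
  have hZ1 := hZ.comp (tendsto_add_atTop_nat 1)
  have l1 : L2T (mm Ω) (fun n x => μ x * Hk (S n x)) fun x => μ x * Hk (Z x) :=
    hZ.of_le (fun n => dtrunc_mem hΩ hμm hμ hH hB (hS n)) (dtrunc_mem hΩ hμm hμ hH hB hZ.2.1)
      (Λ * μ₂) fun n => dtrunc_pt hμ hH (S n) Z
  have l2 : L2T (mm Ω) (fun n x => K * y n x) fun x => K * z x :=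
    hz.of_le (fun n => (hz.1 n).const_mul K) (hz.2.1.const_mul K) K fun n =>
      Eventually.of_forall fun x => by
        rw [← mul_sub, norm_mul, Real.norm_of_nonneg hK0.le]
  have l3 := ((l2t_const hf).add l1).sub l2
  refine ⟨z, Z, inH10_limit hΩ h1 hz hZ1, hZ.2.1, l3.2.1.integrable one_le_two, fun v H hv => ?_⟩
  exact tendsto_nhds_unique (hZ1.inner (l2t_const hv.1.2.1))
    ((l3.mul (l2t_const hv.1.1)).congr fun n => ((h2 n).eq v H hv).symm)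

end Pool.Agent.P.MP_0cf84d_an
end

-- part Pool.Agent.P.MP_0cf84d_an.DStep
section

/-! One step of the monotone iteration. -/

set_option linter.unusedSectionVars false
set_option linter.unusedVariables false

namespace Pool.Agent.P.MP_0cf84d_an

open MeasureTheory Filter Topology Metric Set Module
open scoped RealInnerProductSpace ENNReal NNReal

variable {V : Type*} [NormedAddCommGroup V] [InnerProductSpace ℝ V] [FiniteDimensional ℝ V]
  [MeasurableSpace V] [BorelSpace V] [CompleteSpace V] {Ω : Set V}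

variable {q μ₁ μ₂ l K B₀ : ℝ} {c h μ y W β : V → ℝ} {Y F B : V → V} {Hk : V → ℝ} {Λ : ℝ≥0}

theorem dstep_lip (hH : LipschitzWith Λ Hk) {m m₂ : ℝ} (hm : |m| ≤ m₂) (p p' : V) :
    -(Λ * m₂ * ‖p - p'‖) ≤ m * (Hk p' - Hk p) := by
  have h1 := hH.dist_le_mul p p'
  rw [Real.dist_eq, dist_eq_norm, abs_sub_comm] at h1
  have h2 : |m * (Hk p' - Hk p)| ≤ m₂ * (Λ * ‖p - p'‖) := by
    rw [abs_mul]
    exact mul_le_mul hm h1 (abs_nonneg _) ((abs_nonneg _).trans hm)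
  have h3 := neg_abs_le (m * (Hk p' - Hk p))
  linarith

theorem step (hΩ : OB Ω) (hD : Dat Ω q c h μ μ₁ μ₂) (hl : 0 ≤ l) (hH : LipschitzWith Λ Hk)
    (hB : ∀ p, |Hk p| ≤ B₀) (hK : 2 ≤ K) (hK' : 2 * (Λ * μ₂) ^ 2 ≤ K) (hy : TT Ω y Y)
    (hW : Reg Ω W F) (hW0 : ∀ x ∈ Ω, 0 ≤ W x)
    (hlow : WGe Ω (fun x => F x - Y x)
      (fun x => -rhs c h μ l Hk (fun x => y x - W x) (fun x => Y x - F x) x))
    (hβ : TT Ω β B) (hup : WGe Ω B (rhs c h μ l Hk β B)) (hle : ∀ᵐ x ∂mm Ω, y x - W x ≤ β x) :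
    ∃ z Z, TT Ω z Z ∧
      WEq Ω Z (fun x => (l * (c x * (y x - W x)) + K * (y x - W x) + h x) + μ x * Hk (Z x) -
        K * z x) ∧
      (∀ᵐ x ∂mm Ω, y x - W x ≤ z x ∧ z x ≤ β x) ∧
      WGe Ω (fun x => -Z x) (fun x => -rhs c h μ l Hk z Z x) := by
  have hfin := hΩ.fin
  have hμ : ∀ᵐ x ∂mm Ω, |μ x| ≤ μ₂ := hD.mu.mono fun x hx =>
    abs_le.2 ⟨by linarith [hD.pos, hD.le, hx.1], hx.2⟩
  have hal : MemLp (fun x => y x - W x) ⊤ (mm Ω) := hy.2.sub (hW.memW hΩ ⊤)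
  have hal2 : MemLp (fun x => y x - W x) 2 (mm Ω) := hal.mono_exponent le_top
  have hf : MemLp (fun x => l * (c x * (y x - W x)) + K * (y x - W x) + h x) 2 (mm Ω) :=
    (((memLp_mul_top (hΩ.two_of_q hD.hq hD.cq) hal).const_mul l).add (hal2.const_mul K)).add
      (hΩ.two_of_q hD.hq hD.hh)
  obtain ⟨z, Z, hz, he⟩ := solve_trunc hΩ hD.mum hμ hH hB hK hK' hf
  have hz2 : MemLp z 2 (mm Ω) := by
    obtain ⟨_, -, h1, -⟩ := hz.approx hΩ
    exact h1.2.1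
  have hg : MemLp (fun x => (l * (c x * (y x - W x)) + K * (y x - W x) + h x) + μ x * Hk (Z x) -
      K * z x) 2 (mm Ω) := by
    have h1 := ((hD.l2_rhs hΩ l hH.continuous hB hal he.l2.1).add (hal2.const_mul K)).sub
      (hz2.const_mul K)
    refine (memLp_congr_ae (Eventually.of_forall fun x => ?_)).1 h1
    simp only [rhs, Pi.add_apply, Pi.sub_apply]
    ring
  have hΛ : (Λ * μ₂) ^ 2 ≤ 2 * K := by nlinarith [sq_nonneg (Λ * μ₂)]
  have hYF : AEStronglyMeasurable (fun x => Y x - F x) (mm Ω) :=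
    hlow.l2.neg.1.congr (Eventually.of_forall fun x => neg_sub _ _)
  have h1 : ∀ᵐ x ∂mm Ω, y x - z x ≤ W x := by
    refine cmp hΩ (hy.1.sub hΩ hz) hW isCompact_empty (empty_subset _) (fun x hx _ => hW0 x hx)
      ((hlow.add he.ge).congr (Eventually.of_forall fun x => ?_) EventuallyEq.rfl)
      ((hD.l2_rhs hΩ l hH.continuous hB hal hYF).neg.add hg) hΛ ?_
    · show F x - Y x + Z x = F x - (Y x - Z x)
      abel
    · filter_upwards [hμ] with x hx _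
      have h2 := dstep_lip hH hx (Y x - F x) (Z x)
      rw [sub_right_comm] at h2
      simp only [rhs]
      linarith
  have h2 : ∀ᵐ x ∂mm Ω, z x - β x ≤ (fun _ => (0 : ℝ)) x := by
    refine cmp hΩ (hz.sub hΩ hβ.1) (reg_const Ω 0) isCompact_empty (empty_subset _)
      (fun x _ _ => le_rfl)
      ((hup.add he.le).congr (Eventually.of_forall fun x => ?_) EventuallyEq.rfl)
      ((hD.l2_rhs hΩ l hH.continuous hB hβ.2 hup.l2.1).add hg.neg) hΛ ?_
    · show B x + -Z x = 0 - (Z x - B x)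
      abel
    · filter_upwards [hμ, hD.c0, hle] with x hx hc hx' _
      have h3 := dstep_lip hH hx (Z x) (B x)
      have h4 : 0 ≤ l * (c x * (β x - (y x - W x))) :=
        mul_nonneg hl (mul_nonneg hc (sub_nonneg.2 hx'))
      have h5 : K * (y x - W x) ≤ K * β x := mul_le_mul_of_nonneg_left hx' (by linarith)
      simp only [rhs, sub_zero]
      linarith
  have h3 : ∀ᵐ x ∂mm Ω, y x - W x ≤ z x ∧ z x ≤ β x := by
    filter_upwards [h1, h2] with x hx hx'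
    exact ⟨by linarith, by linarith⟩
  obtain ⟨M₁, hM₁, hb₁⟩ := top_bound hal
  obtain ⟨M₂, hM₂, hb₂⟩ := top_bound hβ.2
  have hT : TT Ω z Z := hz.tt (M := M₁ + M₂) (by
    filter_upwards [h3, hb₁, hb₂] with x hx hx1 hx2
    exact abs_le.2 ⟨by linarith [(abs_le.1 hx1).1, hx.1], by linarith [(abs_le.1 hx2).2, hx.2]⟩)
  refine ⟨z, Z, hT, he, h3, he.le.mono'
    ((hD.l2_rhs hΩ l hH.continuous hB hT.2 he.l2.1).integrable one_le_two).neg ?_⟩
  filter_upwards [h3, hD.c0] with x hx hc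
  have h4 : 0 ≤ l * (c x * (z x - (y x - W x))) :=
    mul_nonneg hl (mul_nonneg hc (sub_nonneg.2 hx.1))
  have h5 : K * (y x - W x) ≤ K * z x := mul_le_mul_of_nonneg_left hx.1 (by linarith)
  simp only [rhs]
  linarith

theorem step0 (hΩ : OB Ω) (hD : Dat Ω q c h μ μ₁ μ₂) (hl : 0 ≤ l) (hH : LipschitzWith Λ Hk)
    (hB : ∀ p, |Hk p| ≤ B₀) (hK : 2 ≤ K) (hK' : 2 * (Λ * μ₂) ^ 2 ≤ K) (hy : TT Ω y Y)
    (hlow : WGe Ω (fun x => -Y x) (fun x => -rhs c h μ l Hk y Y x))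
    (hβ : TT Ω β B) (hup : WGe Ω B (rhs c h μ l Hk β B)) (hle : ∀ᵐ x ∂mm Ω, y x ≤ β x) :
    ∃ z Z, TT Ω z Z ∧
      WEq Ω Z (fun x => (l * (c x * y x) + K * y x + h x) + μ x * Hk (Z x) - K * z x) ∧
      (∀ᵐ x ∂mm Ω, y x ≤ z x ∧ z x ≤ β x) ∧
      WGe Ω (fun x => -Z x) (fun x => -rhs c h μ l Hk z Z x) := by
  have := step hΩ hD hl hH hB hK hK' hy (reg_const Ω 0) (fun _ _ => le_rfl)
    (by simpa only [sub_zero, zero_sub] using hlow) hβ hup (by simpa only [sub_zero] using hle)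
  simpa only [sub_zero] using this

end Pool.Agent.P.MP_0cf84d_an
end

-- part Pool.Agent.P.MP_0cf84d_an.DIter
section

/-! A solution between a lower and an upper solution, Lipschitz Hamiltonian. -/

set_option linter.unusedSectionVars false
set_option linter.unusedVariables false

namespace Pool.Agent.P.MP_0cf84d_an

open MeasureTheory Filter Topology Metric Set Module
open scoped RealInnerProductSpace ENNReal NNReal

variable {V : Type*} [NormedAddCommGroup V] [InnerProductSpace ℝ V] [FiniteDimensional ℝ V]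
  [MeasurableSpace V] [BorelSpace V] [CompleteSpace V] {Ω : Set V}

variable {q μ₁ μ₂ l B₀ : ℝ} {c h μ y β : V → ℝ} {Y B : V → V} {Hk : V → ℝ} {Λ : ℝ≥0}

theorem diter_seq {K : ℝ} (hΩ : OB Ω) (hD : Dat Ω q c h μ μ₁ μ₂) (hl : 0 ≤ l)
    (hH : LipschitzWith Λ Hk) (hB : ∀ p, |Hk p| ≤ B₀) (hK : 2 ≤ K) (hK' : 2 * (Λ * μ₂) ^ 2 ≤ K)
    (hy : TT Ω y Y) (hlow : WGe Ω (fun x => -Y x) (fun x => -rhs c h μ l Hk y Y x))
    (hβ : TT Ω β B) (hup : WGe Ω B (rhs c h μ l Hk β B)) (hle : ∀ᵐ x ∂mm Ω, y x ≤ β x) :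
    ∃ (z : ℕ → V → ℝ) (Z : ℕ → V → V), z 0 = y ∧ (∀ n, TT Ω (z n) (Z n)) ∧
      (∀ n, WEq Ω (Z (n + 1)) (fun x => (l * (c x * z n x) + K * z n x + h x) +
        μ x * Hk (Z (n + 1) x) - K * z (n + 1) x)) ∧
      (∀ n, ∀ᵐ x ∂mm Ω, z n x ≤ z (n + 1) x) ∧ ∀ n, ∀ᵐ x ∂mm Ω, z n x ≤ β x := by
  have hstep : ∀ p : {p : (V → ℝ) × (V → V) // TT Ω p.1 p.2 ∧
      WGe Ω (fun x => -p.2 x) (fun x => -rhs c h μ l Hk p.1 p.2 x) ∧ ∀ᵐ x ∂mm Ω, p.1 x ≤ β x},
      ∃ p' : {p : (V → ℝ) × (V → V) // TT Ω p.1 p.2 ∧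
        WGe Ω (fun x => -p.2 x) (fun x => -rhs c h μ l Hk p.1 p.2 x) ∧ ∀ᵐ x ∂mm Ω, p.1 x ≤ β x},
      WEq Ω p'.1.2 (fun x => (l * (c x * p.1.1 x) + K * p.1.1 x + h x) + μ x * Hk (p'.1.2 x) -
        K * p'.1.1 x) ∧ ∀ᵐ x ∂mm Ω, p.1.1 x ≤ p'.1.1 x := by
    rintro ⟨⟨a, A⟩, h1, h2, h3⟩
    obtain ⟨z, Z, k1, k2, k3, k4⟩ := step0 hΩ hD hl hH hB hK hK' h1 h2 hβ hup h3
    exact ⟨⟨(z, Z), k1, k4, k3.mono fun x hx => hx.2⟩, k2, k3.mono fun x hx => hx.1⟩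
  choose F hF using hstep
  refine ⟨fun n => (F^[n] ⟨(y, Y), hy, hlow, hle⟩).1.1, fun n => (F^[n] ⟨(y, Y), hy, hlow, hle⟩).1.2,
    rfl, fun n => (F^[n] ⟨(y, Y), hy, hlow, hle⟩).2.1, fun n => ?_, fun n => ?_,
    fun n => (F^[n] ⟨(y, Y), hy, hlow, hle⟩).2.2.2⟩
  · simp only [Function.iterate_succ_apply']
    exact (hF _).1
  · simp only [Function.iterate_succ_apply']
    exact (hF _).2

theorem diter_top {a : V → ℝ} (ha : AEStronglyMeasurable a (mm Ω)) {M : ℝ}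
    (hM : ∀ᵐ x ∂mm Ω, |a x| ≤ M) : MemLp a ⊤ (mm Ω) :=
  memLp_top_of_bound ha M hM

theorem level (hΩ : OB Ω) (hD : Dat Ω q c h μ μ₁ μ₂) (hl : 0 ≤ l) (hH : LipschitzWith Λ Hk)
    (hB : ∀ p, |Hk p| ≤ B₀) (hy : TT Ω y Y)
    (hlow : WGe Ω (fun x => -Y x) (fun x => -rhs c h μ l Hk y Y x))
    (hβ : TT Ω β B) (hup : WGe Ω B (rhs c h μ l Hk β B)) (hle : ∀ᵐ x ∂mm Ω, y x ≤ β x) :
    ∃ u G, TT Ω u G ∧ WEq Ω G (rhs c h μ l Hk u G) ∧ ∀ᵐ x ∂mm Ω, y x ≤ u x ∧ u x ≤ β x := by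
  have hfin := hΩ.fin
  obtain ⟨K, hK, hK'⟩ : ∃ K : ℝ, 2 ≤ K ∧ 2 * (Λ * μ₂) ^ 2 ≤ K :=
    ⟨max 2 (2 * (Λ * μ₂) ^ 2), le_max_left _ _, le_max_right _ _⟩
  obtain ⟨z, Z, z0, hT, hE, hm, hb⟩ := diter_seq hΩ hD hl hH hB hK hK' hy hlow hβ hup hle
  obtain ⟨M1, hM1, b1⟩ := top_bound hy.2
  obtain ⟨M2, hM2, b2⟩ := top_bound hβ.2
  have hc2 : MemLp c 2 (mm Ω) := hΩ.two_of_q hD.hq hD.cq
  have hh2 : MemLp h 2 (mm Ω) := hΩ.two_of_q hD.hq hD.hh
  have hμ : ∀ᵐ x ∂mm Ω, |μ x| ≤ μ₂ := hD.mu.mono fun x hx =>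
    abs_le.2 ⟨by linarith [hD.pos, hD.le, hx.1], hx.2⟩
  obtain ⟨u, hu⟩ : ∃ u : V → ℝ, u = fun x => ⨆ n, z n x := ⟨_, rfl⟩
  have key : ∀ᵐ x ∂mm Ω, (∀ n, |z n x| ≤ M1 + M2) ∧ Tendsto (fun n => z n x) atTop (𝓝 (u x)) ∧
      y x ≤ u x ∧ u x ≤ β x ∧ |u x| ≤ M1 + M2 := by
    filter_upwards [ae_all_iff.2 hm, ae_all_iff.2 hb, b1, b2] with x h1 h2 h3 h4
    have hmono : Monotone fun n => z n x := monotone_nat_of_le_succ h1
    have hbdd : BddAbove (range fun n => z n x) := ⟨β x, forall_mem_range.2 h2⟩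
    have h5 : ∀ n, y x ≤ z n x := fun n => by
      have := hmono (Nat.zero_le n)
      simpa only [z0] using this
    have h6 : y x ≤ u x := by rw [hu]; exact (h5 0).trans (le_ciSup hbdd 0)
    have h7 : u x ≤ β x := by rw [hu]; exact ciSup_le h2
    obtain ⟨h3a, h3b⟩ := abs_le.1 h3
    obtain ⟨h4a, h4b⟩ := abs_le.1 h4
    refine ⟨fun n => abs_le.2 ⟨by linarith [h5 n], by linarith [h2 n]⟩, ?_, h6, h7,
      abs_le.2 ⟨by linarith, by linarith⟩⟩
    rw [hu]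
    exact tendsto_atTop_ciSup hmono hbdd
  have hz : L2T (mm Ω) z u :=
    l2t_of_dom (fun n => (hT n).2.1) (memLp_const (M1 + M2)) (fun n => key.mono fun x hx => hx.1 n)
      (key.mono fun x hx => hx.2.1)
  have hf2 : ∀ n, MemLp (fun x => l * (c x * z n x) + K * z n x + h x) 2 (mm Ω) := fun n =>
    (((memLp_mul_top hc2 (hT n).2).const_mul l).add ((hT n).1.1.const_mul K)).add hh2
  have hf : L2T (mm Ω) (fun n x => l * (c x * z n x) + K * z n x + h x)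
      (fun x => l * (c x * u x) + K * u x + h x) := by
    refine l2t_of_dom (fun n => (hf2 n).1)
      (b := fun x => l * (M1 + M2) * ‖c x‖ + K * (M1 + M2) + ‖h x‖)
      (((hc2.norm.const_mul _).add (memLp_const _)).add hh2.norm) (fun n => ?_) ?_
    · filter_upwards [key] with x hx
      have h1 := hx.1 n
      have h2 : |l * (c x * z n x)| ≤ l * (M1 + M2) * |c x| := by
        rw [abs_mul, abs_mul, abs_of_nonneg hl, mul_assoc, mul_comm (M1 + M2)]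
        gcongr
      have h3 : |K * z n x| ≤ K * (M1 + M2) := by
        rw [abs_mul, abs_of_nonneg (by linarith : (0 : ℝ) ≤ K)]
        gcongr
      simp only [Real.norm_eq_abs]
      linarith [abs_add_three (l * (c x * z n x)) (K * z n x) (h x)]
    · filter_upwards [key] with x hx
      exact (((hx.2.1.const_mul (c x)).const_mul l).add (hx.2.1.const_mul K)).add_const (h x)
  obtain ⟨G, hG⟩ : ∃ G, L2T (mm Ω) (fun n => Z (n + 1)) G := by
    refine exists_l2t (fun n => (hT (n + 1)).1.2.1) fun ε hε => ?_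
    obtain ⟨N, hN⟩ := hf.cauchy hε
    refine ⟨N, fun i j hi hij => ?_⟩
    have h1 := trunc_stab hΩ hD.mum hμ hH hB hK hK' (hf2 j) (hf2 i) (hT (j + 1)).1 (hT (i + 1)).1
      (hE j) (hE i)
    have h2 := hN i j hi (hi.trans hij)
    simp only [Real.norm_eq_abs, sq_abs] at h2
    exact h1.trans h2
  have hz' : L2T (mm Ω) (fun n => z (n + 1)) u := hz.comp (tendsto_add_atTop_nat 1)
  have huH : InH10 Ω u G := inH10_limit hΩ (fun n => (hT (n + 1)).1) hz' hG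
  have huT : TT Ω u G := huH.tt (key.mono fun x hx => hx.2.2.2.2)
  have hHk : ∀ D : V → V, AEStronglyMeasurable D (mm Ω) →
      MemLp (fun x => μ x * Hk (D x)) 2 (mm Ω) := by
    intro D hDm
    have h1 : MemLp (fun x => Hk (D x)) ⊤ (mm Ω) :=
      diter_top (hH.continuous.comp_aestronglyMeasurable hDm) (Eventually.of_forall fun x => hB _)
    exact memLp_mul_top (hD.mu_top.mono_exponent le_top) h1
  have hq : L2T (mm Ω) (fun n x => μ x * Hk (Z (n + 1) x)) (fun x => μ x * Hk (G x)) := by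
    refine hG.of_le (fun n => hHk _ (hT (n + 1)).1.2.1.1) (hHk _ hG.2.1.1) (μ₂ * Λ) fun n => ?_
    filter_upwards [hμ] with x hx
    have h1 := hH.norm_sub_le (Z (n + 1) x) (G x)
    rw [← mul_sub, norm_mul, mul_assoc]
    exact mul_le_mul hx h1 (norm_nonneg _) ((abs_nonneg _).trans hx)
  have hKz : L2T (mm Ω) (fun n x => K * z (n + 1) x) (fun x => K * u x) := by
    refine hz'.of_le (fun n => (hT (n + 1)).1.1.const_mul K) (huH.1.const_mul K) |K| fun n => ?_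
    refine Eventually.of_forall fun x => ?_
    rw [← mul_sub, norm_mul, Real.norm_eq_abs]
  have hall := ((hf.add hq).sub hKz).congr (fun n => EventuallyEq.rfl)
    (g' := rhs c h μ l Hk u G) (Eventually.of_forall fun x => by simp only [rhs]; ring)
  refine ⟨u, G, huT, ⟨hG.2.1, hall.2.1.integrable one_le_two, fun v H hv => ?_⟩,
    key.mono fun x hx => ⟨hx.2.2.1, hx.2.2.2.1⟩⟩
  have t1 := hG.inner (l2t_const hv.1.2.1)
  have t2 := hall.mul (l2t_const hv.1.1)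
  exact tendsto_nhds_unique t1 (t2.congr fun n => ((hE n).eq v H hv).symm)

end Pool.Agent.P.MP_0cf84d_an
end

-- part Pool.Agent.P.MP_0cf84d_an.DLim
section

/-! Removing the truncation. -/

set_option linter.unusedSectionVars false
set_option linter.unusedVariables false

namespace Pool.Agent.P.MP_0cf84d_an

open MeasureTheory Filter Topology Metric Set Module
open scoped RealInnerProductSpace ENNReal NNReal

variable {V : Type*} [NormedAddCommGroup V] [InnerProductSpace ℝ V] [FiniteDimensional ℝ V]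
  [MeasurableSpace V] [BorelSpace V] [CompleteSpace V] {Ω : Set V}

variable {q μ₁ μ₂ l : ℝ} {c h μ : V → ℝ}

theorem dlim_min {a b k : ℝ} (ha : 0 ≤ a) (hk : 0 ≤ k) : min (a ^ 2) (k ^ 2) = min a k * min a k := by
  rcases le_total a k with h | h
  · rw [min_eq_left h, min_eq_left (pow_le_pow_left₀ ha h 2), sq]
  · rw [min_eq_right h, min_eq_right (pow_le_pow_left₀ hk h 2), sq]

theorem dlim_HH {k : ℝ} (hk : 0 ≤ k) (p : V) : HH k p = min ‖p‖ k * min ‖p‖ k :=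
  dlim_min (b := 0) (norm_nonneg p) hk

theorem dlim_min_sub (k : ℝ) (p p' : V) : |min ‖p‖ k - min ‖p'‖ k| ≤ ‖p - p'‖ := by
  have h1 := abs_min_sub_min_le_max ‖p‖ k ‖p'‖ k
  rw [sub_self, abs_zero, max_eq_left (abs_nonneg _)] at h1
  exact h1.trans (abs_norm_sub_norm_le p p')

theorem HH_lip {k : ℝ} (hk : 0 ≤ k) : LipschitzWith (Real.toNNReal (2 * k)) (HH (V := V) k) := by
  refine LipschitzWith.of_dist_le_mul fun p p' => ?_
  rw [Real.coe_toNNReal _ (by linarith), Real.dist_eq, dist_eq_norm, dlim_HH hk, dlim_HH hk,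
    mul_self_sub_mul_self, abs_mul]
  have h1 : 0 ≤ min ‖p‖ k := le_min (norm_nonneg p) hk
  have h2 : 0 ≤ min ‖p'‖ k := le_min (norm_nonneg p') hk
  have h3 : min ‖p‖ k ≤ k := min_le_right _ _
  have h4 : min ‖p'‖ k ≤ k := min_le_right _ _
  refine mul_le_mul ?_ (dlim_min_sub k p p') (abs_nonneg _) (by linarith)
  rw [abs_of_nonneg (by linarith)]
  linarith

theorem dlim_HH_nonneg (k : ℝ) (p : V) : 0 ≤ HH k p := le_min (sq_nonneg _) (sq_nonneg _)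

theorem HH_abs (k : ℝ) (p : V) : |HH k p| ≤ k ^ 2 := by
  rw [abs_of_nonneg (dlim_HH_nonneg k p)]
  exact min_le_right _ _

theorem dlim_cauchy {a e : ℕ → ℝ} {d : ℕ → ℕ → ℝ} {B : ℝ} (hB : ∀ n, a n ≤ B)
    (he : Tendsto e atTop (𝓝 0)) (hd0 : ∀ i j, 0 ≤ d i j)
    (hd : ∀ i j, i ≤ j → d i j ≤ a j - a i + 2 * e i) (ε : ℝ) (hε : 0 < ε) :
    ∃ N, ∀ i j, N ≤ i → i ≤ j → d i j ≤ ε := by
  have hb : BddAbove (range fun i => a i - 2 * e i) := by
    refine ⟨B, ?_⟩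
    rintro _ ⟨i, rfl⟩
    have h1 := hd i i le_rfl
    have h2 := hd0 i i
    have h3 := hB i
    show a i - 2 * e i ≤ B
    linarith
  obtain ⟨i₀, hi₀⟩ := exists_lt_of_lt_ciSup
    (show (⨆ i, (a i - 2 * e i)) - ε / 2 < ⨆ i, (a i - 2 * e i) by linarith)
  obtain ⟨N, hN⟩ := eventually_atTop.1 (he.eventually (gt_mem_nhds (show (0 : ℝ) < ε / 8 by linarith)))
  refine ⟨max i₀ N, fun i j hi hij => ?_⟩
  have h1 := hd i₀ i ((le_max_left _ _).trans hi)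
  have h2 := hd0 i₀ i
  have h3 := le_ciSup hb j
  have h4 := hN i ((le_max_right _ _).trans hi)
  have h5 := hN j (((le_max_right _ _).trans hi).trans hij)
  have h6 := hd i j hij
  linarith

theorem dlim_split {α : Type*} [MeasurableSpace α] {m : Measure α} {c h μ u v s f : α → ℝ}
    (hc : MemLp c 2 m) (hh : MemLp h 2 m) (hμ : MemLp μ ⊤ m) (hv : MemLp v ⊤ m)
    (hv2 : MemLp v 2 m) (hu : MemLp u 2 m) (hs : MemLp s 2 m) (l : ℝ)
    (hf : ∀ x, f x = l * (c x * u x) + μ x * (s x * s x) + h x) :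
    ∫ x, f x * v x ∂m = l * (∫ x, c x * v x * u x ∂m) + (∫ x, s x * μ x * v x * s x ∂m) +
      ∫ x, h x * v x ∂m := by
  have i1 : Integrable (fun x => l * (c x * v x * u x)) m :=
    (int_mul (memLp_mul_top hc hv) hu).const_mul l
  have i2 : Integrable (fun x => s x * μ x * v x * s x) m :=
    int_mul (memLp_mul_top (memLp_mul_top hs hμ) hv) hs
  have i3 : Integrable (fun x => h x * v x) m := int_mul hh hv2
  have i4 : Integrable (fun x => l * (c x * v x * u x) + s x * μ x * v x * s x) m := i1.add i2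
  rw [← integral_const_mul, ← integral_add i1 i2, ← integral_add i4 i3]
  refine integral_congr_ae (Eventually.of_forall fun x => ?_)
  show f x * v x = l * (c x * v x * u x) + s x * μ x * v x * s x + h x * v x
  rw [hf x]
  ring

theorem dlim_trunc {α : Type*} [MeasurableSpace α] {m : Measure α} {G : ℕ → α → V} {D : α → V}
    (hG : L2T m G D) {k₀ : ℝ} (hk : 0 ≤ k₀) :
    L2T m (fun n x => min ‖G n x‖ (k₀ + n)) (fun x => ‖D x‖) := by
  have hkn : ∀ n : ℕ, 0 ≤ k₀ + n := fun n => add_nonneg hk (Nat.cast_nonneg n)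
  have hle : ∀ (n : ℕ) (p : V), ‖min ‖p‖ (k₀ + n)‖ ≤ ‖p‖ := fun n p => by
    rw [Real.norm_eq_abs, abs_of_nonneg (le_min (norm_nonneg p) (hkn n))]
    exact min_le_left _ _
  have hmeas : ∀ (n : ℕ) {F : α → V}, MemLp F 2 m →
      AEStronglyMeasurable (fun x => min ‖F x‖ (k₀ + n)) m := fun n F hF =>
    (continuous_norm.min continuous_const).comp_aestronglyMeasurable hF.1
  have hmem : ∀ (n : ℕ) {F : α → V}, MemLp F 2 m → MemLp (fun x => min ‖F x‖ (k₀ + n)) 2 m :=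
    fun n F hF => hF.of_le (hmeas n hF) (Eventually.of_forall fun x => hle n (F x))
  have h1 : L2T m (fun (n : ℕ) x => min ‖D x‖ (k₀ + n)) (fun x => ‖D x‖) := by
    refine l2t_of_dom (fun n => hmeas n hG.2.1) hG.2.1.norm
      (fun n => Eventually.of_forall fun x => hle n (D x)) (Eventually.of_forall fun x => ?_)
    obtain ⟨N, hN⟩ := exists_nat_ge ‖D x‖
    refine tendsto_const_nhds.congr' (eventually_atTop.2 ⟨N, fun n hn => ?_⟩)
    have h2 : (N : ℝ) ≤ n := Nat.cast_le.2 hn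
    exact (min_eq_left (by linarith)).symm
  have h2 : L2T m (fun (n : ℕ) x => min ‖G n x‖ (k₀ + n) - min ‖D x‖ (k₀ + n)) (fun _ => (0 : ℝ)) := by
    refine hG.of_le (fun n => (hmem n (hG.1 n)).sub (hmem n hG.2.1)) MemLp.zero' 1
      fun n => Eventually.of_forall fun x => ?_
    rw [sub_zero, one_mul]
    exact dlim_min_sub _ _ _
  refine (h2.add h1).congr (fun n => Eventually.of_forall fun x => ?_)
    (Eventually.of_forall fun x => ?_)
  · exact sub_add_cancel _ _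
  · exact zero_add _

theorem dlim_mul_top {α : Type*} [MeasurableSpace α] {m : Measure α} {s : ℕ → α → ℝ} {t b : α → ℝ}
    (hs : L2T m s t) (hb : MemLp b ⊤ m) : L2T m (fun n x => s n x * b x) (fun x => t x * b x) := by
  obtain ⟨M, -, hM⟩ := top_bound hb
  refine hs.of_le (fun n => memLp_mul_top (hs.1 n) hb) (memLp_mul_top hs.2.1 hb) M
    fun n => hM.mono fun x hx => ?_
  rw [← sub_mul, norm_mul, mul_comm]
  exact mul_le_mul_of_nonneg_right hx (norm_nonneg _)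

theorem dlim_energy {α : Type*} [MeasurableSpace α] {m : Measure α} {F F' : α → V}
    (hF : MemLp F 2 m) (hF' : MemLp F' 2 m) :
    ∫ x, ‖F' x - F x‖ ^ 2 ∂m = (∫ x, ‖F' x‖ ^ 2 ∂m) - (∫ x, ‖F x‖ ^ 2 ∂m) -
      2 * ∫ x, ⟪F x, F' x - F x⟫ ∂m := by
  have i1 := int_sq hF
  have i2 := int_sq hF'
  have i3 : Integrable (fun x => 2 * ⟪F x, F' x - F x⟫) m :=
    (int_inner (g' := fun x => F' x - F x) hF (hF'.sub hF)).const_mul 2
  have i4 : Integrable (fun x => ‖F' x‖ ^ 2 - ‖F x‖ ^ 2) m := i2.sub i1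
  rw [← integral_const_mul, ← integral_sub i2 i1, ← integral_sub i4 i3]
  refine integral_congr_ae (Eventually.of_forall fun x => ?_)
  show ‖F' x - F x‖ ^ 2 = ‖F' x‖ ^ 2 - ‖F x‖ ^ 2 - 2 * ⟪F x, F' x - F x⟫
  rw [norm_sub_sq_real, inner_sub_right, real_inner_self_eq_norm_sq, real_inner_comm]
  ring

theorem lim_sol (hΩ : OB Ω) (hD : Dat Ω q c h μ μ₁ μ₂) {k₀ : ℝ} (hk : 0 ≤ k₀) {u : ℕ → V → ℝ}
    {G : ℕ → V → V} (hu : ∀ n, TT Ω (u n) (G n))
    (he : ∀ n : ℕ, WEq Ω (G n) (rhs c h μ l (HH (k₀ + n)) (u n) (G n)))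
    (hm : ∀ n, ∀ᵐ x ∂mm Ω, u n x ≤ u (n + 1) x) (h0 : ∀ n, ∀ᵐ x ∂mm Ω, u n x ≤ 0) :
    ∃ w D, TT Ω w D ∧ WEq Ω D (rhs c h μ l H2 w D) ∧ ∀ᵐ x ∂mm Ω, w x ≤ 0 := by
  have := hΩ.fin
  have hc2 := hΩ.two_of_q hD.hq hD.cq
  have hh2 := hΩ.two_of_q hD.hq hD.hh
  obtain ⟨M, hM0, hM⟩ := top_bound (hu 0).2
  set w : V → ℝ := fun x => ⨆ n, u n x with hw
  set b : V → ℝ := fun x => |l| * M * |c x| + |h x| with hb
  have hb2 : MemLp b 2 (mm Ω) := (hc2.abs.const_mul (|l| * M)).add hh2.abs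
  have hb0 : ∀ x, 0 ≤ b x := fun x => by
    simp only [hb]
    positivity
  have key : ∀ᵐ x ∂mm Ω, Monotone (fun n => u n x) ∧ (∀ n, -M ≤ u n x ∧ u n x ≤ w x) ∧ w x ≤ 0 ∧
      Tendsto (fun n => u n x) atTop (𝓝 (w x)) ∧
      ∀ n : ℕ, -b x ≤ rhs c h μ l (HH (k₀ + n)) (u n) (G n) x := by
    filter_upwards [ae_all_iff.2 hm, ae_all_iff.2 h0, hM, hD.mu] with x h1 h2 h3 h4
    have hmono : Monotone (fun n => u n x) := monotone_nat_of_le_succ h1
    have hbd : BddAbove (range fun n => u n x) := ⟨0, by rintro _ ⟨n, rfl⟩; exact h2 n⟩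
    have hlow : ∀ n, -M ≤ u n x := fun n => (abs_le.1 h3).1.trans (hmono (Nat.zero_le n))
    refine ⟨hmono, fun n => ⟨hlow n, le_ciSup hbd n⟩, ciSup_le h2, tendsto_atTop_ciSup hmono hbd,
      fun n => ?_⟩
    have h5 : 0 ≤ μ x * HH (k₀ + n) (G n x) :=
      mul_nonneg (hD.pos.le.trans h4.1) (dlim_HH_nonneg _ _)
    have h6 : |l * (c x * u n x)| ≤ |l| * M * |c x| := by
      have h7 : |u n x| ≤ M := abs_le.2 ⟨hlow n, (h2 n).trans hM0.le⟩
      rw [abs_mul, abs_mul, mul_assoc, mul_comm M]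
      exact mul_le_mul_of_nonneg_left (mul_le_mul_of_nonneg_left h7 (abs_nonneg _)) (abs_nonneg _)
    have h8 := (abs_le.1 h6).1
    have h9 := neg_abs_le (h x)
    simp only [hb, rhs]
    linarith
  have huw : L2T (mm Ω) u w := by
    refine l2t_of_dom (fun n => (hu n).2.1) (memLp_const M) (fun n => key.mono fun x hx => ?_)
      (key.mono fun x hx => hx.2.2.2.1)
    exact abs_le.2 ⟨(hx.2.1 n).1, ((hx.2.1 n).2.trans hx.2.2.1).trans hM0.le⟩
  have hG2 : ∀ n, MemLp (G n) 2 (mm Ω) := fun n => (he n).l2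
  have hB : ∀ n, ∫ x, ‖G n x‖ ^ 2 ∂mm Ω ≤ ∫ x, b x * M ∂mm Ω := fun n => by
    have h1 := (he n).eq _ _ (hu n)
    simp only [real_inner_self_eq_norm_sq] at h1
    rw [h1]
    refine integral_mono_ae (int_mul_top (he n).l1 (hu n).2) (int_mul hb2 (memLp_const M))
      (key.mono fun x hx => ?_)
    have h2 := hx.2.2.2.2 n
    have h3 := (hx.2.1 n).1
    have h4 := (hx.2.1 n).2.trans hx.2.2.1
    have h5 := hb0 x
    show rhs c h μ l (HH (k₀ + n)) (u n) (G n) x * u n x ≤ b x * M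
    nlinarith
  have hE : Tendsto (fun n => ∫ x, b x * (w x - u n x) ∂mm Ω) atTop (𝓝 0) := by
    have h1 := (l2t_const hb2).mul ((l2t_const huw.2.1).sub huw)
    simpa only [sub_self, mul_zero, integral_zero] using h1
  obtain ⟨D, hGD⟩ := exists_l2t hG2 (dlim_cauchy hB hE
    (fun i j => integral_nonneg fun x => sq_nonneg _) fun i j hij => by
      have h1 := ((he i).eq _ _ (TT.sub hΩ (hu j) (hu i)))
      have h2 : ∫ x, -(b x * (w x - u i x)) ∂mm Ω ≤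
          ∫ x, rhs c h μ l (HH (k₀ + i)) (u i) (G i) x * (u j x - u i x) ∂mm Ω := by
        refine integral_mono_ae (int_mul hb2 (huw.2.1.sub (huw.1 i))).neg
          (int_mul_top (he i).l1 (TT.sub hΩ (hu j) (hu i)).2) (key.mono fun x hx => ?_)
        have h3 := hx.2.2.2.2 i
        have h4 : u i x ≤ u j x := hx.1 hij
        have h5 := (hx.2.1 j).2
        have h6 := hb0 x
        show -(b x * (w x - u i x)) ≤ rhs c h μ l (HH (k₀ + i)) (u i) (G i) x * (u j x - u i x)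
        nlinarith
      rw [integral_neg] at h2
      rw [dlim_energy (hG2 i) (hG2 j), h1]
      linarith)
  have hT : TT Ω w D := by
    refine (inH10_limit hΩ (fun n => (hu n).1) huw hGD).tt (M := M) (key.mono fun x hx => ?_)
    exact abs_le.2 ⟨(hx.2.1 0).1.trans (hx.2.1 0).2, hx.2.2.1.trans hM0.le⟩
  refine ⟨w, D, hT, ⟨hGD.2.1, hD.int_rhs hΩ l hT.2 hGD.2.1, fun v H hv => ?_⟩,
    key.mono fun x hx => hx.2.2.1⟩
  have hs := dlim_trunc hGD hk
  have h1 := hGD.inner (l2t_const hv.1.2.1)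
  have h2 := (((l2t_const (memLp_mul_top hc2 hv.2)).mul huw).const_mul l).add
    ((dlim_mul_top (dlim_mul_top hs hD.mu_top) hv.2).mul hs)
  have h3 := h2.add_const (∫ x, h x * v x ∂mm Ω)
  rw [dlim_split hc2 hh2 hD.mu_top hv.2 hv.1.1 huw.2.1 hs.2.1 l
    (f := rhs c h μ l H2 w D) (fun x => by simp only [rhs, H2, sq])]
  refine tendsto_nhds_unique h1 (h3.congr fun n => ?_)
  rw [(he n).eq v H hv, dlim_split hc2 hh2 hD.mu_top hv.2 hv.1.1 (huw.1 n) (hs.1 n) l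
    (f := rhs c h μ l (HH (k₀ + n)) (u n) (G n))
    (fun x => by simp only [rhs, dlim_HH (add_nonneg hk (Nat.cast_nonneg n))])]

end Pool.Agent.P.MP_0cf84d_an
end

-- part Pool.Agent.P.MP_0cf84d_an.DParam
section

/-! Integrals that depend on a parameter. -/

set_option linter.unusedSectionVars false
set_option linter.unusedVariables false

namespace Pool.Agent.P.MP_0cf84d_an

open MeasureTheory Filter Topology Metric Set Module
open scoped RealInnerProductSpace ENNReal NNReal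

variable {V : Type*} [NormedAddCommGroup V] [InnerProductSpace ℝ V] [FiniteDimensional ℝ V]
  [MeasurableSpace V] [BorelSpace V] [CompleteSpace V] {Ω : Set V}

section
variable {E : Type*} [NormedAddCommGroup E] [InnerProductSpace ℝ E] [CompleteSpace E]
  {Γ : V → V → E} {C : ℝ} {g : V → ℝ}

theorem dparam_meas (hΩ : OB Ω) (hΓ : ContinuousOn (fun p : V × V => Γ p.1 p.2) (Ω ×ˢ Ω))
    (hg : Integrable g (mm Ω)) {x : V} (hx : x ∈ Ω) :
    AEStronglyMeasurable (fun z => g z • Γ z x) (mm Ω) := by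
  have h1 : ContinuousOn (fun z => Γ z x) Ω :=
    hΓ.comp (f := fun z : V => (z, x)) (by fun_prop) (fun z hz => ⟨hz, hx⟩)
  exact hg.1.smul (h1.aestronglyMeasurable hΩ.op.measurableSet)

theorem dparam_le (hΩ : OB Ω) (hb : ∀ z ∈ Ω, ∀ x ∈ Ω, ‖Γ z x‖ ≤ C) (g : V → ℝ) :
    ∀ᵐ z ∂mm Ω, ∀ x ∈ Ω, ‖g z • Γ z x‖ ≤ ‖g z‖ * C := by
  filter_upwards [hΩ.mem] with z hz x hx
  rw [norm_smul]
  exact mul_le_mul_of_nonneg_left (hb z hz x hx) (norm_nonneg _)

theorem dparam_int (hΩ : OB Ω) (hΓ : ContinuousOn (fun p : V × V => Γ p.1 p.2) (Ω ×ˢ Ω))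
    (hb : ∀ z ∈ Ω, ∀ x ∈ Ω, ‖Γ z x‖ ≤ C) (hg : Integrable g (mm Ω)) {x : V} (hx : x ∈ Ω) :
    Integrable (fun z => g z • Γ z x) (mm Ω) :=
  (hg.norm.mul_const C).mono' (dparam_meas hΩ hΓ hg hx)
    ((dparam_le hΩ hb g).mono fun z hz => hz x hx)

theorem dparam_cont (hΩ : OB Ω) (hΓ : ContinuousOn (fun p : V × V => Γ p.1 p.2) (Ω ×ˢ Ω))
    (hb : ∀ z ∈ Ω, ∀ x ∈ Ω, ‖Γ z x‖ ≤ C) (hg : Integrable g (mm Ω)) :
    ContinuousOn (fun x => ∫ z, g z • Γ z x ∂mm Ω) Ω := by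
  refine continuousOn_of_dominated (bound := fun z => ‖g z‖ * C)
    (fun x hx => dparam_meas hΩ hΓ hg hx)
    (fun x hx => (dparam_le hΩ hb g).mono fun z hz => hz x hx) (hg.norm.mul_const C) ?_
  filter_upwards [hΩ.mem] with z hz
  have h1 : ContinuousOn (fun x => Γ z x) Ω :=
    hΓ.comp (f := fun x : V => (z, x)) (by fun_prop) (fun x hx => ⟨hz, hx⟩)
  exact h1.const_smul (g z)

theorem dparam_bd (hΩ : OB Ω) (hb : ∀ z ∈ Ω, ∀ x ∈ Ω, ‖Γ z x‖ ≤ C) (hg : Integrable g (mm Ω))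
    {x : V} (hx : x ∈ Ω) : ‖∫ z, g z • Γ z x ∂mm Ω‖ ≤ ∫ z, ‖g z‖ * C ∂mm Ω :=
  norm_integral_le_of_norm_le (hg.norm.mul_const C)
    ((dparam_le hΩ hb g).mono fun z hz => hz x hx)

theorem dparam_swap (hΩ : OB Ω) (hΓ : ContinuousOn (fun p : V × V => Γ p.1 p.2) (Ω ×ˢ Ω))
    (hb : ∀ z ∈ Ω, ∀ x ∈ Ω, ‖Γ z x‖ ≤ C) (hg : Integrable g (mm Ω)) {H : V → E}
    (hH : Integrable H (mm Ω)) :
    ∫ x, ⟪∫ z, g z • Γ z x ∂mm Ω, H x⟫ ∂mm Ω = ∫ z, g z * ∫ x, ⟪Γ z x, H x⟫ ∂mm Ω ∂mm Ω := by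
  have hms : MeasurableSet (Ω ×ˢ Ω) := hΩ.op.measurableSet.prod hΩ.op.measurableSet
  have e : (mm Ω).prod (mm Ω) = ((volume : Measure V).prod volume).restrict (Ω ×ˢ Ω) :=
    Measure.prod_restrict Ω Ω
  have h1 : AEStronglyMeasurable (fun p : V × V => Γ p.1 p.2) ((mm Ω).prod (mm Ω)) := by
    rw [e]; exact hΓ.aestronglyMeasurable hms
  have h2 : ∀ᵐ p : V × V ∂(mm Ω).prod (mm Ω), p ∈ Ω ×ˢ Ω := by
    rw [e]; exact ae_restrict_mem hms
  have h3 : Integrable (fun p : V × V => ‖g p.1‖ * C * ‖H p.2‖) ((mm Ω).prod (mm Ω)) :=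
    (hg.norm.mul_const C).mul_prod hH.norm
  have h4 : Integrable (Function.uncurry fun z x => g z * ⟪Γ z x, H x⟫) ((mm Ω).prod (mm Ω)) := by
    refine h3.mono' (hg.1.comp_fst.mul (h1.inner hH.1.comp_snd)) ?_
    filter_upwards [h2] with p hp
    change ‖g p.1 * ⟪Γ p.1 p.2, H p.2⟫‖ ≤ _
    rw [norm_mul, mul_assoc]
    refine mul_le_mul_of_nonneg_left ?_ (norm_nonneg _)
    exact (norm_inner_le_norm _ _).trans
      (mul_le_mul_of_nonneg_right (hb _ hp.1 _ hp.2) (norm_nonneg _))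
  have h5 : ∫ x, ⟪∫ z, g z • Γ z x ∂mm Ω, H x⟫ ∂mm Ω =
      ∫ x, ∫ z, g z * ⟪Γ z x, H x⟫ ∂mm Ω ∂mm Ω := by
    refine integral_congr_ae ?_
    filter_upwards [hΩ.mem] with x hx
    rw [real_inner_comm, ← integral_inner (dparam_int hΩ hΓ hb hg hx)]
    refine integral_congr_ae (Eventually.of_forall fun z => ?_)
    simp only [inner_smul_right]
    rw [real_inner_comm]
  rw [h5, ← integral_integral_swap h4]
  refine integral_congr_ae (Eventually.of_forall fun z => ?_)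
  exact integral_const_mul _ _

end

theorem param (hΩ : OB Ω) {Φ ρ : V → V → ℝ} {Γ : V → V → V}
    (hΦ : ContinuousOn (fun p : V × V => Φ p.1 p.2) (Ω ×ˢ Ω))
    (hΓ : ContinuousOn (fun p : V × V => Γ p.1 p.2) (Ω ×ˢ Ω))
    (hρ : ContinuousOn (fun p : V × V => ρ p.1 p.2) (Ω ×ˢ Ω)) {C : ℝ}
    (hb : ∀ z ∈ Ω, ∀ x ∈ Ω, |Φ z x| ≤ C ∧ ‖Γ z x‖ ≤ C ∧ |ρ z x| ≤ C)
    (hr : ∀ z ∈ Ω, ∀ x ∈ Ω, HasGradientAt (Φ z) (Γ z x) x) (he : ∀ z ∈ Ω, WEq Ω (Γ z) (ρ z))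
    {g : V → ℝ} (hg : Integrable g (mm Ω)) :
    Reg Ω (fun x => ∫ z, Φ z x * g z ∂mm Ω) (fun x => ∫ z, g z • Γ z x ∂mm Ω) ∧
      WEq Ω (fun x => ∫ z, g z • Γ z x ∂mm Ω) (fun x => ∫ z, ρ z x * g z ∂mm Ω) := by
  have := hΩ.fin
  have b1 : ∀ z ∈ Ω, ∀ x ∈ Ω, ‖Φ z x‖ ≤ C := fun z hz x hx => (hb z hz x hx).1
  have b2 : ∀ z ∈ Ω, ∀ x ∈ Ω, ‖Γ z x‖ ≤ C := fun z hz x hx => (hb z hz x hx).2.1
  have b3 : ∀ z ∈ Ω, ∀ x ∈ Ω, ‖ρ z x‖ ≤ C := fun z hz x hx => (hb z hz x hx).2.2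
  have e1 : (fun x => ∫ z, Φ z x * g z ∂mm Ω) = fun x => ∫ z, g z • Φ z x ∂mm Ω := by
    funext x; simp only [smul_eq_mul, mul_comm]
  have e3 : (fun x => ∫ z, ρ z x * g z ∂mm Ω) = fun x => ∫ z, g z • ρ z x ∂mm Ω := by
    funext x; simp only [smul_eq_mul, mul_comm]
  rw [e1, e3]
  have c2 := dparam_cont hΩ hΓ b2 hg
  have c3 := dparam_cont hΩ hρ b3 hg
  refine ⟨⟨fun x hx => ?_, c2, ∫ z, ‖g z‖ * C ∂mm Ω, fun x hx =>
    ⟨dparam_bd hΩ b1 hg hx, dparam_bd hΩ b2 hg hx⟩⟩,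
    hΩ.memLp_of_bdd c2 (fun x hx => dparam_bd hΩ b2 hg hx) 2,
    memLp_one_iff_integrable.1 (hΩ.memLp_of_bdd c3 (fun x hx => dparam_bd hΩ b3 hg hx) 1),
    fun v H hv => ?_⟩
  · have hn : Ω ∈ 𝓝 x := hΩ.op.mem_nhds hx
    have h := hasFDerivAt_integral_of_dominated_of_fderiv_le (𝕜 := ℝ) (μ := mm Ω)
      (F := fun x z => g z • Φ z x)
      (F' := fun x z => InnerProductSpace.toDual ℝ V (g z • Γ z x))
      (bound := fun z => ‖g z‖ * C) hn
      (Filter.eventually_of_mem hn fun y hy => dparam_meas hΩ hΦ hg hy)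
      (dparam_int hΩ hΦ b1 hg hx)
      ((InnerProductSpace.toDual ℝ V).continuous.comp_aestronglyMeasurable
        (dparam_meas hΩ hΓ hg hx))
      ((dparam_le hΩ b2 g).mono fun z hz y hy => by
        rw [LinearIsometryEquiv.norm_map]; exact hz y hy)
      (hg.norm.mul_const C)
      (hΩ.mem.mono fun z hz y hy => by
        have h1 := (hr z hz y hy).hasFDerivAt.const_smul (g z)
        refine h1.congr_fderiv ?_
        ext w
        simp)
    refine hasGradientAt_iff_hasFDerivAt.2 (h.congr_fderiv ?_)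
    ext w
    have hi : Integrable (fun z => InnerProductSpace.toDual ℝ V (g z • Γ z x)) (mm Ω) := by
      refine (dparam_int hΩ hΓ b2 hg hx).mono
        ((InnerProductSpace.toDual ℝ V).continuous.comp_aestronglyMeasurable
          (dparam_meas hΩ hΓ hg hx)) (Eventually.of_forall fun z => ?_)
      rw [LinearIsometryEquiv.norm_map]
    rw [ContinuousLinearMap.integral_apply hi, InnerProductSpace.toDual_apply_apply,
      real_inner_comm, ← integral_inner (dparam_int hΩ hΓ b2 hg hx)]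
    refine integral_congr_ae (Eventually.of_forall fun z => ?_)
    simp only [InnerProductSpace.toDual_apply_apply]
    rw [real_inner_comm]
  · have hH : Integrable H (mm Ω) := hv.1.2.1.integrable (by norm_num)
    have hv' : Integrable v (mm Ω) := hv.1.1.integrable (by norm_num)
    have h1 := dparam_swap hΩ hΓ b2 hg hH
    have h2 := dparam_swap hΩ hρ b3 hg hv'
    have e : ∀ a b : ℝ, ⟪a, b⟫ = a * b := fun a b => by simp [mul_comm]
    simp only [e] at h2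
    rw [h1, h2]
    refine integral_congr_ae ?_
    filter_upwards [hΩ.mem] with z hz
    rw [(he z hz).eq v H hv]

end Pool.Agent.P.MP_0cf84d_an
end

-- part Pool.Agent.P.MP_0cf84d_an.DKer
section

/-! Kernel estimates. -/

set_option linter.unusedSectionVars false
set_option linter.unusedVariables false

namespace Pool.Agent.P.MP_0cf84d_an

open MeasureTheory Filter Topology Metric Set Module
open scoped RealInnerProductSpace ENNReal NNReal

variable {V : Type*} [NormedAddCommGroup V] [InnerProductSpace ℝ V] [FiniteDimensional ℝ V]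
  [MeasurableSpace V] [BorelSpace V] [CompleteSpace V] {Ω : Set V}

theorem ker_bound (hΩ : OB Ω) {q γ : ℝ} (hq : 1 < q) (hγ0 : 0 ≤ γ)
    (hγ : γ < finrank ℝ V * (1 - 1 / q)) : ∃ C, 0 ≤ C ∧ ∀ g : V → ℝ,
      MemLp g (ENNReal.ofReal q) (mm Ω) → ∀ x ∈ Ω,
        Integrable (fun z => ‖x - z‖ ^ (-γ) * |g z|) (mm Ω) ∧
          ∫ z, ‖x - z‖ ^ (-γ) * |g z| ∂mm Ω ≤ C * nq Ω q g := by
  obtain ⟨p, hpq⟩ : ∃ p : ℝ, p.HolderConjugate q := ⟨_, (Real.HolderConjugate.conjExponent hq).symm⟩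
  have hp := hpq.pos
  have hα : γ * p < finrank ℝ V := by
    rw [one_div, hpq.symm.one_sub_inv] at hγ
    exact (lt_div_iff₀ hp).1 hγ
  obtain ⟨R, hR, hR'⟩ := hΩ.radius 0
  have hm : Measurable fun w : V => ‖w‖ ^ (-(γ * p)) := by fun_prop
  have hK : Integrable ((ball (0 : V) (2 * R + 1)).indicator fun w : V => ‖w‖ ^ (-(γ * p))) :=
    (integrable_indicator_iff measurableSet_ball).2
      (integrableOn_ball_of_norm_le_rpow (C := 1) (le_trans one_le_two hΩ.dim) hα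
        (Eventually.of_forall fun w => by
          rw [one_mul, Real.norm_of_nonneg (Real.rpow_nonneg (norm_nonneg w) _)])
        hm.aestronglyMeasurable)
  have hK0 : ∀ w, 0 ≤ (ball (0 : V) (2 * R + 1)).indicator (fun w : V => ‖w‖ ^ (-(γ * p))) w :=
    fun w => indicator_nonneg (fun w _ => Real.rpow_nonneg (norm_nonneg w) _) w
  have hKe : ∀ x ∈ Ω, ∀ z ∈ Ω, (ball (0 : V) (2 * R + 1)).indicator
      (fun w : V => ‖w‖ ^ (-(γ * p))) (x - z) = ‖‖x - z‖ ^ (-γ)‖ ^ p := by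
    intro x hx z hz
    have h1 := hR' x hx
    have h2 := hR' z hz
    rw [sub_zero] at h1 h2
    rw [indicator_of_mem (mem_ball_zero_iff.2 ((norm_sub_le x z).trans_lt (by linarith))),
      Real.norm_of_nonneg (Real.rpow_nonneg (norm_nonneg _) _), ← Real.rpow_mul (norm_nonneg _),
      neg_mul]
  generalize (ball (0 : V) (2 * R + 1)).indicator (fun w : V => ‖w‖ ^ (-(γ * p))) = K
    at hK hK0 hKe
  refine ⟨(∫ w, K w) ^ (1 / p), Real.rpow_nonneg (integral_nonneg hK0) _, fun g hg x hx => ?_⟩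
  have h1 : (fun z => K (x - z)) =ᵐ[mm Ω] fun z => ‖‖x - z‖ ^ (-γ)‖ ^ p :=
    hΩ.mem.mono (hKe x hx)
  have h2 : Integrable fun z => K (x - z) := hK.comp_sub_left x
  have hm2 : Measurable fun z : V => ‖x - z‖ ^ (-γ) := by fun_prop
  have h3 : MemLp (fun z => ‖x - z‖ ^ (-γ)) (ENNReal.ofReal p) (mm Ω) := by
    rw [← integrable_norm_rpow_iff hm2.aestronglyMeasurable (ENNReal.ofReal_pos.2 hp).ne'
      ENNReal.ofReal_ne_top, ENNReal.toReal_ofReal hp.le]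
    exact h2.restrict.congr h1
  have h4 : ∫ z, ‖‖x - z‖ ^ (-γ)‖ ^ p ∂mm Ω ≤ ∫ w, K w := by
    rw [← integral_congr_ae h1, ← integral_sub_left_eq_self K volume x]
    exact setIntegral_le_integral h2 (Eventually.of_forall fun z => hK0 _)
  have h5 : nq Ω q g = (∫ z, ‖g z‖ ^ q ∂mm Ω) ^ (1 / q) := by
    rw [nq, hg.eLpNorm_eq_integral_rpow_norm (ENNReal.ofReal_pos.2 hpq.symm.pos).ne'
      ENNReal.ofReal_ne_top, ENNReal.toReal_ofReal hpq.symm.pos.le, one_div, ENNReal.toReal_ofReal]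
    exact Real.rpow_nonneg (integral_nonneg fun z => Real.rpow_nonneg (norm_nonneg _) _) _
  have := hpq.ennrealOfReal
  refine ⟨h3.integrable_mul hg.abs, ?_⟩
  have h6 : ∫ z, ‖x - z‖ ^ (-γ) * |g z| ∂mm Ω = ∫ z, ‖‖x - z‖ ^ (-γ)‖ * ‖g z‖ ∂mm Ω :=
    integral_congr_ae (Eventually.of_forall fun z => by
      simp only [Real.norm_of_nonneg (Real.rpow_nonneg (norm_nonneg (x - z)) (-γ)),
        Real.norm_eq_abs (g z)])
  rw [h6, h5]
  refine (integral_mul_norm_le_Lp_mul_Lq hpq h3 hg).trans (mul_le_mul_of_nonneg_right ?_ ?_)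
  · exact Real.rpow_le_rpow (integral_nonneg fun z => Real.rpow_nonneg (norm_nonneg _) _) h4
      (one_div_pos.2 hp).le
  · exact Real.rpow_nonneg (integral_nonneg fun z => Real.rpow_nonneg (norm_nonneg _) _) _

theorem dker_ii (e : ℝ) {ε a b : ℝ} (ha : 0 < a + ε) (hb : 0 < b + ε) :
    IntervalIntegrable (fun t => (t + ε) ^ e) volume a b := by
  refine ContinuousOn.intervalIntegrable fun t ht => ?_
  have h1 : 0 < t + ε := by
    rcases mem_uIcc.1 ht with h | h <;> linarith [h.1]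
  exact ((continuousAt_id.add continuousAt_const).rpow_const (Or.inl h1.ne')).continuousWithinAt

theorem kap_deriv (N : ℕ) {D ε s : ℝ} (hD : 0 < D + ε) (hs : 0 < s + ε) :
    HasDerivAt (kap N D ε) (-(1 / 2) * (s + ε) ^ (-(N : ℝ) / 2)) s := by
  have hm : Measurable fun t : ℝ => (t + ε) ^ (-(N : ℝ) / 2) := by fun_prop
  have h1 := (intervalIntegral.integral_hasDerivAt_left (dker_ii (-(N : ℝ) / 2) hs hD)
    hm.stronglyMeasurable.stronglyMeasurableAtFilter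
    ((continuousAt_id.add continuousAt_const).rpow_const (Or.inl hs.ne'))).const_mul (1 / 2)
  rw [neg_mul_comm]
  exact h1

theorem dker_int {f : ℝ → ℝ} {a b M : ℝ} (ha : 0 < a) (hab : a ≤ b)
    (hf : IntervalIntegrable f volume a b) (h0 : ∀ t ∈ Icc a b, 0 ≤ f t)
    (h1 : ∀ t ∈ Icc a b, f t ≤ M * t ^ (-(1 / 2) : ℝ)) :
    0 ≤ 1 / 2 * ∫ t in a..b, f t ∧ 1 / 2 * ∫ t in a..b, f t ≤ M * (√b - √a) := by
  refine ⟨mul_nonneg one_half_pos.le (intervalIntegral.integral_nonneg hab h0), ?_⟩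
  have h2 := intervalIntegral.integral_mono_on hab hf
    ((intervalIntegral.intervalIntegrable_rpow' (by norm_num : (-1 : ℝ) < -(1 / 2))).const_mul M) h1
  rw [intervalIntegral.integral_const_mul, integral_rpow (Or.inl (by norm_num)),
    show (-(1 / 2) + 1 : ℝ) = 1 / 2 by norm_num, ← Real.sqrt_eq_rpow, ← Real.sqrt_eq_rpow] at h2
  linarith

theorem dker_pow {a t e : ℝ} (ha : 0 < a) (hat : a ≤ t) (he : e ≤ 0) :
    t ^ (e + -(1 / 2)) ≤ a ^ e * t ^ (-(1 / 2) : ℝ) := by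
  have ht := ha.trans_le hat
  rw [Real.rpow_add ht]
  exact mul_le_mul_of_nonneg_right (Real.rpow_le_rpow_of_nonpos ha hat he)
    (Real.rpow_nonneg ht.le _)

theorem kap_sub {N : ℕ} (hN : 1 ≤ N) {D ε a b : ℝ} (hD : 0 < D) (hε : 0 ≤ ε) (ha : 0 < a)
    (hab : a ≤ b) : 0 ≤ kap N D ε a - kap N D ε b ∧
      kap N D ε a - kap N D ε b ≤ a ^ (-((N : ℝ) - 1) / 2) * (√b - √a) := by
  have hN' : (1 : ℝ) ≤ N := by exact_mod_cast hN
  have h1 := dker_ii (-(N : ℝ) / 2) (ε := ε) (a := a) (b := b) (by linarith) (by linarith)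
  have h2 : kap N D ε a - kap N D ε b = 1 / 2 * ∫ t in a..b, (t + ε) ^ (-(N : ℝ) / 2) := by
    rw [kap, kap, ← intervalIntegral.integral_add_adjacent_intervals h1
      (dker_ii _ (b := D) (by linarith) (by linarith))]
    ring
  rw [h2]
  refine dker_int ha hab h1 (fun t ht => Real.rpow_nonneg (by linarith [ht.1]) _) fun t ht => ?_
  refine le_trans ?_ (dker_pow ha ht.1 (by linarith))
  rw [show -((N : ℝ) - 1) / 2 + -(1 / 2) = -(N : ℝ) / 2 by ring]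
  exact Real.rpow_le_rpow_of_nonpos (ha.trans_le ht.1) (by linarith) (by linarith)

theorem kap_self (N : ℕ) (D ε : ℝ) : kap N D ε D = 0 := by
  rw [kap, intervalIntegral.integral_same, mul_zero]

theorem dker_u {n u β : ℝ} (hn : 1 ≤ n) (hu : 0 ≤ u) (hβ : 0 < β) (hβ1 : β ≤ 1) :
    1 - (1 + u) ^ (-n / 2) ≤ n * u ^ β := by
  have h0 : 0 < 1 + u := by linarith
  rcases le_total u 1 with h | h
  · have h1 := Real.add_one_le_exp (Real.log (1 + u) * (-n / 2))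
    have h2 := Real.log_le_sub_one_of_pos h0
    have h3 := Real.self_le_rpow_of_le_one hu h hβ1
    rw [Real.rpow_def_of_pos h0]
    nlinarith
  · have h1 := Real.rpow_nonneg h0.le (-n / 2)
    have h2 := Real.one_le_rpow h hβ.le
    nlinarith

theorem pow_reg {N : ℕ} (hN : 1 ≤ N) {ε s β : ℝ} (hε : 0 ≤ ε) (hs : 0 < s) (hβ : 0 < β)
    (hβ1 : β ≤ 1) : 0 ≤ s ^ (-(N : ℝ) / 2) - (s + ε) ^ (-(N : ℝ) / 2) ∧
      s ^ (-(N : ℝ) / 2) - (s + ε) ^ (-(N : ℝ) / 2) ≤ N * ε ^ β * s ^ (-(N : ℝ) / 2 - β) := by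
  have hN' : (1 : ℝ) ≤ N := by exact_mod_cast hN
  refine ⟨sub_nonneg.2 (Real.rpow_le_rpow_of_nonpos hs (by linarith) (by linarith)), ?_⟩
  have hu : 0 ≤ ε / s := div_nonneg hε hs.le
  have h1 := mul_le_mul_of_nonneg_left (dker_u hN' hu hβ hβ1)
    (Real.rpow_nonneg hs.le (-(N : ℝ) / 2))
  rw [mul_sub, mul_one, ← Real.mul_rpow hs.le (by linarith), mul_add, mul_one,
    mul_div_cancel₀ _ hs.ne', Real.div_rpow hε hs.le] at h1
  rw [Real.rpow_sub hs]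
  refine h1.trans_eq ?_
  ring

theorem kap_reg {N : ℕ} (hN : 1 ≤ N) {D ε s β : ℝ} (hε : 0 ≤ ε) (hs : 0 < s) (hsD : s ≤ D)
    (hβ : 0 < β) (hβ1 : β ≤ 1) :
    |kap N D ε s - kap N D 0 s| ≤ N * ε ^ β * √D * s ^ (-((N : ℝ) - 1) / 2 - β) := by
  have hN' : (1 : ℝ) ≤ N := by exact_mod_cast hN
  have h1 := dker_ii (-(N : ℝ) / 2) (ε := ε) (a := s) (b := D) (by linarith) (by linarith)
  have h2 := dker_ii (-(N : ℝ) / 2) (ε := 0) (a := s) (b := D) (by linarith) (by linarith)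
  have h3 : kap N D 0 s - kap N D ε s =
      1 / 2 * ∫ t in s..D, ((t + 0) ^ (-(N : ℝ) / 2) - (t + ε) ^ (-(N : ℝ) / 2)) := by
    rw [kap, kap, intervalIntegral.integral_sub h2 h1, mul_sub]
  have hc : 0 ≤ N * ε ^ β := mul_nonneg (by linarith) (Real.rpow_nonneg hε _)
  obtain ⟨h4, h5⟩ := dker_int (M := N * ε ^ β * s ^ (-((N : ℝ) - 1) / 2 - β)) hs hsD (h2.sub h1)
    (fun t ht => by
      rw [add_zero]
      exact (pow_reg hN hε (hs.trans_le ht.1) hβ hβ1).1) fun t ht => by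
      rw [add_zero, mul_assoc]
      refine (pow_reg hN hε (hs.trans_le ht.1) hβ hβ1).2.trans
        (mul_le_mul_of_nonneg_left (le_trans (le_of_eq ?_) (dker_pow hs ht.1 (by linarith))) hc)
      congr 1
      ring
  rw [abs_sub_comm, h3, abs_of_nonneg h4, mul_right_comm]
  exact h5.trans (mul_le_mul_of_nonneg_left (sub_le_self _ (Real.sqrt_nonneg s))
    (mul_nonneg hc (Real.rpow_nonneg hs.le _)))

end Pool.Agent.P.MP_0cf84d_an
end

-- part Pool.Agent.P.MP_0cf84d_an.DPot1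
section

/-! Regularised potentials. -/

set_option linter.unusedSectionVars false
set_option linter.unusedVariables false

namespace Pool.Agent.P.MP_0cf84d_an

open MeasureTheory Filter Topology Metric Set Module
open scoped RealInnerProductSpace ENNReal NNReal

variable {V : Type*} [NormedAddCommGroup V] [InnerProductSpace ℝ V] [FiniteDimensional ℝ V]
  [MeasurableSpace V] [BorelSpace V] [CompleteSpace V] {Ω : Set V}

theorem dpot1_bdd (hΩ : OB Ω) {E : Type*} [NormedAddCommGroup E] {f : V → E} (hf : Continuous f) :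
    ∃ C, ∀ z ∈ Ω, ∀ x ∈ Ω, ‖f (x - z)‖ ≤ C := by
  obtain ⟨R, -, hR⟩ := hΩ.radius 0
  obtain ⟨C, hC⟩ := (isCompact_closedBall (0 : V) (R + R)).exists_bound_of_continuousOn
    hf.continuousOn
  refine ⟨C, fun z hz x hx => hC _ (mem_closedBall_zero_iff.2 ((norm_sub_le _ _).trans ?_))⟩
  have h1 := hR x hx
  have h2 := hR z hz
  rw [sub_zero] at h1 h2
  exact add_le_add h1 h2

theorem dpot1_pow {ε : ℝ} (hε : 0 < ε) (e : ℝ) :
    Continuous fun w : V => (‖w‖ ^ 2 + ε) ^ e :=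
  Continuous.rpow_const (by fun_prop) fun w => Or.inl (by positivity)

theorem dpot1_kap (N : ℕ) {D ε : ℝ} (hD : 0 < D) (hε : 0 < ε) :
    Continuous fun w : V => kap N D ε (‖w‖ ^ 2) := by
  refine continuous_iff_continuousAt.2 fun w => ?_
  have h1 : ContinuousAt (kap N D ε) (‖w‖ ^ 2) :=
    (kap_deriv N (add_pos hD hε) (by positivity)).continuousAt
  exact ContinuousAt.comp (f := fun w : V => ‖w‖ ^ 2) h1 (by fun_prop)

theorem dpot1_deriv {ε s : ℝ} (hs : 0 < s + ε) (e : ℝ) :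
    HasDerivAt (fun s : ℝ => -(s + ε) ^ e) (-e * (s + ε) ^ (e - 1)) s := by
  have h1 := (((hasDerivAt_id s).add_const ε).rpow_const (p := e) (Or.inl hs.ne')).neg
  refine h1.congr_deriv ?_
  simp

theorem pot_reg (hΩ : OB Ω) {D ε : ℝ} (hD : 0 < D) (hε : 0 < ε) {g : V → ℝ}
    (hg : Integrable g (mm Ω)) :
    Reg Ω (fun x => ∫ z, kap (finrank ℝ V) D ε (‖x - z‖ ^ 2) * g z ∂mm Ω)
      (fun x => ∫ z, g z • (-(‖x - z‖ ^ 2 + ε) ^ (-(finrank ℝ V : ℝ) / 2)) • (x - z) ∂mm Ω) ∧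
    WEq Ω (fun x => ∫ z, g z • (-(‖x - z‖ ^ 2 + ε) ^ (-(finrank ℝ V : ℝ) / 2)) • (x - z) ∂mm Ω)
      (fun x => ∫ z, rho (finrank ℝ V) ε (‖x - z‖ ^ 2) * g z ∂mm Ω) := by
  have c1 : Continuous fun w : V => kap (finrank ℝ V) D ε (‖w‖ ^ 2) := dpot1_kap _ hD hε
  have c2 : Continuous fun w : V => -(‖w‖ ^ 2 + ε) ^ (-(finrank ℝ V : ℝ) / 2) :=
    (dpot1_pow hε _).neg
  have c3 : Continuous fun w : V => (-(‖w‖ ^ 2 + ε) ^ (-(finrank ℝ V : ℝ) / 2)) • w :=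
    c2.smul continuous_id
  have c4 : Continuous fun w : V => rho (finrank ℝ V) ε (‖w‖ ^ 2) :=
    continuous_const.mul (dpot1_pow hε _)
  have c5 : Continuous fun w : V =>
      -(1 / 2 : ℝ) * (‖w‖ ^ 2 + ε) ^ (-(finrank ℝ V : ℝ) / 2) :=
    continuous_const.mul (dpot1_pow hε _)
  have c6 : Continuous fun w : V =>
      -(-(finrank ℝ V : ℝ) / 2) * (‖w‖ ^ 2 + ε) ^ (-(finrank ℝ V : ℝ) / 2 - 1) :=
    continuous_const.mul (dpot1_pow hε _)
  have cs : Continuous fun p : V × V => p.2 - p.1 := by fun_prop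
  obtain ⟨C1, b1⟩ := dpot1_bdd hΩ c1
  obtain ⟨C2, b2⟩ := dpot1_bdd hΩ c2
  obtain ⟨C3, b3⟩ := dpot1_bdd hΩ c3
  obtain ⟨C4, b4⟩ := dpot1_bdd hΩ c4
  obtain ⟨C5, b5⟩ := dpot1_bdd hΩ c5
  obtain ⟨C6, b6⟩ := dpot1_bdd hΩ c6
  refine param hΩ (Φ := fun z x => kap (finrank ℝ V) D ε (‖x - z‖ ^ 2))
    (ρ := fun z x => rho (finrank ℝ V) ε (‖x - z‖ ^ 2))
    (Γ := fun z x => (-(‖x - z‖ ^ 2 + ε) ^ (-(finrank ℝ V : ℝ) / 2)) • (x - z))
    (c1.comp cs).continuousOn (c3.comp cs).continuousOn (c4.comp cs).continuousOn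
    (C := max C1 (max C3 C4)) (fun z hz x hx => ⟨(b1 z hz x hx).trans (le_max_left _ _),
      (b3 z hz x hx).trans ((le_max_left _ _).trans (le_max_right _ _)),
      (b4 z hz x hx).trans ((le_max_right _ _).trans (le_max_right _ _))⟩)
    (fun z hz x hx => ?_) (fun z hz => ?_) hg
  · have h1 := (reg_radial hΩ z (A := kap (finrank ℝ V) D ε)
      (a := fun s => -(1 / 2 : ℝ) * (s + ε) ^ (-(finrank ℝ V : ℝ) / 2))
      (fun x _ => kap_deriv _ (add_pos hD hε) (by positivity))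
      (c5.comp (continuous_id.sub continuous_const)).continuousOn (C := max C1 C5)
      (fun x hx => ⟨(b1 z hz x hx).trans (le_max_left _ _),
        (b5 z hz x hx).trans (le_max_right _ _)⟩)).grad x hx
    have e : 2 * (-(1 / 2 : ℝ) * (‖x - z‖ ^ 2 + ε) ^ (-(finrank ℝ V : ℝ) / 2)) =
        -(‖x - z‖ ^ 2 + ε) ^ (-(finrank ℝ V : ℝ) / 2) := by ring
    rw [e] at h1
    exact h1
  · have h1 := weq_radial hΩ z (a := fun s => -(s + ε) ^ (-(finrank ℝ V : ℝ) / 2))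
      (a' := fun s => -(-(finrank ℝ V : ℝ) / 2) * (s + ε) ^ (-(finrank ℝ V : ℝ) / 2 - 1))
      (fun x _ => dpot1_deriv (by positivity) _)
      (c6.comp (continuous_id.sub continuous_const)).continuousOn (C := max C2 C6)
      (fun x hx => ⟨(b2 z hz x hx).trans (le_max_left _ _),
        (b6 z hz x hx).trans (le_max_right _ _)⟩)
    have e : (fun x : V => -((finrank ℝ V : ℝ) * -(‖x - z‖ ^ 2 + ε) ^ (-(finrank ℝ V : ℝ) / 2) +
        2 * ‖x - z‖ ^ 2 * (-(-(finrank ℝ V : ℝ) / 2) *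
          (‖x - z‖ ^ 2 + ε) ^ (-(finrank ℝ V : ℝ) / 2 - 1)))) =
        fun x => rho (finrank ℝ V) ε (‖x - z‖ ^ 2) := by
      funext x
      have hp : 0 < ‖x - z‖ ^ 2 + ε := by positivity
      have e1 : (‖x - z‖ ^ 2 + ε) ^ (-(finrank ℝ V : ℝ) / 2) =
          (‖x - z‖ ^ 2 + ε) ^ (-(finrank ℝ V : ℝ) / 2 - 1) * (‖x - z‖ ^ 2 + ε) := by
        rw [Real.rpow_sub_one hp.ne', div_mul_cancel₀ _ hp.ne']
      rw [rho, e1]
      ring
    rw [e] at h1
    exact h1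

end Pool.Agent.P.MP_0cf84d_an
end

-- part Pool.Agent.P.MP_0cf84d_an.DPot2
section

/-! An approximate identity. -/

set_option linter.unusedSectionVars false
set_option linter.unusedVariables false

namespace Pool.Agent.P.MP_0cf84d_an

open MeasureTheory Filter Topology Metric Set Module
open scoped RealInnerProductSpace ENNReal NNReal

variable {V : Type*} [NormedAddCommGroup V] [InnerProductSpace ℝ V] [FiniteDimensional ℝ V]
  [MeasurableSpace V] [BorelSpace V] [CompleteSpace V] {Ω : Set V}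

theorem dpot2_scale (N : ℕ) {δ s : ℝ} (hδ : 0 < δ) (hs : 0 ≤ s) :
    rho N (δ ^ 2) (δ ^ 2 * s) = (δ ^ N)⁻¹ * rho N 1 s := by
  have h1 : δ ^ 2 * s + δ ^ 2 = δ ^ 2 * (s + 1) := by ring
  have h2 : (δ ^ 2) ^ (-(N : ℝ) / 2 - 1) = (δ ^ N)⁻¹ * (δ ^ 2)⁻¹ := by
    rw [← Real.rpow_natCast δ 2, ← Real.rpow_mul hδ.le, ← Real.rpow_natCast δ N,
      ← Real.rpow_neg hδ.le, ← Real.rpow_neg hδ.le, ← Real.rpow_add hδ]
    congr 1
    push_cast
    ring
  rw [rho, rho, h1, Real.mul_rpow (by positivity) (by positivity), h2]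
  field_simp

theorem dpot2_nonneg (N : ℕ) {ε s : ℝ} (hε : 0 < ε) (hs : 0 ≤ s) : 0 ≤ rho N ε s := by
  unfold rho
  positivity

theorem dpot2_le (N : ℕ) {ε s : ℝ} (hε : 0 < ε) (hs : 0 ≤ s) : rho N ε s ≤ rho N ε 0 := by
  unfold rho
  refine mul_le_mul_of_nonneg_left ?_ (by positivity)
  refine Real.rpow_le_rpow_of_nonpos (by linarith) (by linarith) ?_
  have : (0 : ℝ) ≤ N := Nat.cast_nonneg N
  linarith

theorem dpot2_cont (N : ℕ) {ε : ℝ} (hε : 0 < ε) : Continuous fun w : V => rho N ε (‖w‖ ^ 2) := by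
  unfold rho
  refine continuous_const.mul (Continuous.rpow_const (by fun_prop) fun w => Or.inl ?_)
  positivity

theorem dpot2_int : Integrable fun w : V => rho (finrank ℝ V) 1 (‖w‖ ^ 2) := by
  have h := (integrable_rpow_neg_one_add_norm_sq (E := V) (μ := volume)
    (r := (finrank ℝ V : ℝ) + 2) (by linarith)).const_mul (finrank ℝ V : ℝ)
  refine h.congr (Eventually.of_forall fun w => ?_)
  simp only [rho]
  rw [mul_one, add_comm (‖w‖ ^ 2) 1]
  congr 2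
  ring

theorem dpot2_pos (h : 2 ≤ finrank ℝ V) : 0 < ∫ w : V, rho (finrank ℝ V) 1 (‖w‖ ^ 2) := by
  rw [integral_pos_iff_support_of_nonneg (fun w => dpot2_nonneg _ one_pos (by positivity))
    dpot2_int]
  have : (Function.support fun w : V => rho (finrank ℝ V) 1 (‖w‖ ^ 2)) = univ := by
    refine eq_univ_of_forall fun w => ?_
    have h1 : (0 : ℝ) < finrank ℝ V := by exact_mod_cast (by omega : 0 < finrank ℝ V)
    have h2 : 0 < rho (finrank ℝ V) 1 (‖w‖ ^ 2) := by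
      unfold rho
      positivity
    exact h2.ne'
  rw [this]
  exact isOpen_univ.measure_pos volume univ_nonempty

theorem dpot2_conv {δ : ℝ} (hδ : 0 < δ) (φ : V → ℝ) (z : V) :
    ∫ x, rho (finrank ℝ V) (δ ^ 2) (‖x - z‖ ^ 2) * φ x =
      ∫ w, rho (finrank ℝ V) 1 (‖w‖ ^ 2) * φ (z + δ • w) := by
  have hp : 0 < (δ ^ finrank ℝ V)⁻¹ := by positivity
  have h1 := Measure.integral_comp_smul (volume : Measure V)
    (fun x => rho (finrank ℝ V) (δ ^ 2) (‖z + x - z‖ ^ 2) * φ (z + x)) δ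
  rw [integral_add_left_eq_self (fun x => rho (finrank ℝ V) (δ ^ 2) (‖x - z‖ ^ 2) * φ x) z,
    abs_of_pos hp, smul_eq_mul] at h1
  apply mul_left_cancel₀ hp.ne'
  rw [← h1, ← integral_const_mul]
  refine integral_congr_ae (Eventually.of_forall fun w => ?_)
  simp only []
  rw [add_sub_cancel_left, norm_smul, mul_pow, Real.norm_eq_abs, sq_abs,
    dpot2_scale _ hδ (by positivity), mul_assoc]

theorem dpot2_lim {φ : V → ℝ} (hφ : Continuous φ) {M : ℝ} (hM : ∀ x, ‖φ x‖ ≤ M) (z : V)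
    {δ : ℕ → ℝ} (hδ : Tendsto δ atTop (𝓝 0)) :
    Tendsto (fun n => ∫ w, rho (finrank ℝ V) 1 (‖w‖ ^ 2) * φ (z + δ n • w)) atTop
      (𝓝 ((∫ w : V, rho (finrank ℝ V) 1 (‖w‖ ^ 2)) * φ z)) := by
  rw [← integral_mul_const]
  refine tendsto_integral_of_dominated_convergence
    (fun w : V => rho (finrank ℝ V) 1 (‖w‖ ^ 2) * M) (fun n => ?_) (dpot2_int.mul_const M)
    (fun n => Eventually.of_forall fun w => ?_) (Eventually.of_forall fun w => ?_)
  · exact ((dpot2_cont _ one_pos).mul (hφ.comp (by fun_prop))).aestronglyMeasurable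
  · rw [norm_mul, Real.norm_of_nonneg (dpot2_nonneg _ one_pos (by positivity))]
    exact mul_le_mul_of_nonneg_left (hM _) (dpot2_nonneg _ one_pos (by positivity))
  · refine Tendsto.const_mul _ ((hφ.tendsto z).comp ?_)
    have := (hδ.smul_const w).const_add z
    simpa using this

theorem dpot2_bd {φ : V → ℝ} {M : ℝ} (hM : ∀ x, ‖φ x‖ ≤ M) (z : V) (δ : ℝ) :
    ‖∫ w, rho (finrank ℝ V) 1 (‖w‖ ^ 2) * φ (z + δ • w)‖ ≤
      (∫ w : V, rho (finrank ℝ V) 1 (‖w‖ ^ 2)) * M := by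
  rw [← integral_mul_const]
  refine norm_integral_le_of_norm_le (dpot2_int.mul_const M) (Eventually.of_forall fun w => ?_)
  rw [norm_mul, Real.norm_of_nonneg (dpot2_nonneg _ one_pos (by positivity))]
  exact mul_le_mul_of_nonneg_left (hM _) (dpot2_nonneg _ one_pos (by positivity))

theorem approx_id (hΩ : OB Ω) : ∃ cN : ℝ, 0 < cN ∧ ∀ φ g : V → ℝ, Tst Ω φ → Integrable g (mm Ω) →
    Tendsto (fun n : ℕ => ∫ x, (∫ z, rho (finrank ℝ V) (1 / (n + 1)) (‖x - z‖ ^ 2) * g z ∂mm Ω) *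
      φ x ∂mm Ω) atTop (𝓝 (∫ z, cN * g z * φ z ∂mm Ω)) := by
  refine ⟨∫ w : V, rho (finrank ℝ V) 1 (‖w‖ ^ 2), dpot2_pos hΩ.dim, fun φ g hφ hg => ?_⟩
  have hc : Continuous φ := hφ.1.continuous
  obtain ⟨M, hM⟩ := hc.bounded_above_of_compact_support hφ.2.1
  have hi : Integrable φ (mm Ω) := (hc.integrable_of_hasCompactSupport hφ.2.1).restrict
  have hε : ∀ n : ℕ, (0 : ℝ) < 1 / (n + 1) := fun n => by positivity
  have hP : ∀ n : ℕ, Integrable (Function.uncurry fun x z : V =>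
      rho (finrank ℝ V) (1 / (n + 1)) (‖x - z‖ ^ 2) * (φ x * g z)) ((mm Ω).prod (mm Ω)) := by
    intro n
    refine Integrable.bdd_mul (c := rho (finrank ℝ V) (1 / (n + 1)) 0) (hi.mul_prod hg) ?_
      (Eventually.of_forall fun p => ?_)
    · exact ((dpot2_cont _ (hε n)).comp (continuous_fst.sub continuous_snd)).aestronglyMeasurable
    · rw [Real.norm_of_nonneg (dpot2_nonneg _ (hε n) (by positivity))]
      exact dpot2_le _ (hε n) (by positivity)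
  have hF : ∀ (n : ℕ) (z : V),
      ∫ x, rho (finrank ℝ V) (1 / (n + 1)) (‖x - z‖ ^ 2) * (φ x * g z) ∂mm Ω =
      (∫ w, rho (finrank ℝ V) 1 (‖w‖ ^ 2) * φ (z + √(1 / (n + 1) : ℝ) • w)) * g z := by
    intro n z
    rw [← dpot2_conv (Real.sqrt_pos.2 (hε n)), Real.sq_sqrt (hε n).le, ← integral_mul_const,
      setIntegral_eq_integral_of_forall_compl_eq_zero]
    · simp only [mul_assoc]
    · intro x hx
      rw [image_eq_zero_of_notMem_tsupport fun h => hx (hφ.2.2 h)]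
      simp
  have e : ∀ n : ℕ,
      ∫ x, (∫ z, rho (finrank ℝ V) (1 / (n + 1)) (‖x - z‖ ^ 2) * g z ∂mm Ω) * φ x ∂mm Ω =
      ∫ z, (∫ x, rho (finrank ℝ V) (1 / (n + 1)) (‖x - z‖ ^ 2) * (φ x * g z) ∂mm Ω) ∂mm Ω := by
    intro n
    rw [← integral_integral_swap (hP n)]
    refine integral_congr_ae (Eventually.of_forall fun x => ?_)
    simp only []
    rw [← integral_mul_const]
    refine integral_congr_ae (Eventually.of_forall fun z => ?_)
    simp only []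
    ring
  simp only [e]
  have hδ : Tendsto (fun n : ℕ => √(1 / (n + 1) : ℝ)) atTop (𝓝 0) := by
    have := (tendsto_one_div_add_atTop_nhds_zero_nat (𝕜 := ℝ)).sqrt
    simpa using this
  refine tendsto_integral_of_dominated_convergence
    (fun z => (∫ w : V, rho (finrank ℝ V) 1 (‖w‖ ^ 2)) * M * ‖g z‖)
    (fun n => (hP n).integral_prod_right.aestronglyMeasurable) (hg.norm.const_mul _)
    (fun n => Eventually.of_forall fun z => ?_) (Eventually.of_forall fun z => ?_)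
  · rw [hF, norm_mul]
    exact mul_le_mul_of_nonneg_right (dpot2_bd hM z _) (norm_nonneg _)
  · simp only [hF]
    rw [mul_right_comm]
    exact (dpot2_lim hc hM z hδ).mul_const _

end Pool.Agent.P.MP_0cf84d_an
end

-- part Pool.Agent.P.MP_0cf84d_an.DPot
section

/-! The Newton potential. -/

set_option linter.unusedSectionVars false
set_option linter.unusedVariables false

namespace Pool.Agent.P.MP_0cf84d_an

open MeasureTheory Filter Topology Metric Set Module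
open scoped RealInnerProductSpace ENNReal NNReal

variable {V : Type*} [NormedAddCommGroup V] [InnerProductSpace ℝ V] [FiniteDimensional ℝ V]
  [MeasurableSpace V] [BorelSpace V] [CompleteSpace V] {Ω : Set V}

theorem dpot_ne (hΩ : OB Ω) (x : V) : ∀ᵐ z ∂mm Ω, z ∈ Ω ∧ 0 < ‖x - z‖ := by
  have : Nontrivial V := Module.nontrivial_of_finrank_pos (R := ℝ) (by have := hΩ.dim; omega)
  filter_upwards [hΩ.mem, ae_restrict_of_ae (Measure.ae_ne volume x)] with z h1 h2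
  exact ⟨h1, norm_pos_iff.2 (sub_ne_zero.2 h2.symm)⟩

theorem dpot_rp {t : ℝ} (ht : 0 < t) (a : ℝ) : (t ^ 2) ^ a = t ^ (2 * a) := by
  rw [Real.rpow_mul ht.le, Real.rpow_two]

theorem dpot_meas (hΩ : OB Ω) (N : ℕ) {D ε : ℝ} (hD : 0 < D) (hε : 0 ≤ ε) (x : V) :
    AEStronglyMeasurable (fun z => kap N D ε (‖x - z‖ ^ 2)) (mm Ω) := by
  have : Nontrivial V := Module.nontrivial_of_finrank_pos (R := ℝ) (by have := hΩ.dim; omega)
  have h1 : ContinuousOn (fun z => kap N D ε (‖x - z‖ ^ 2)) {x}ᶜ := fun z hz => by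
    have h2 : 0 < ‖x - z‖ := norm_pos_iff.2 (sub_ne_zero.2 (Ne.symm hz))
    have h3 := (kap_deriv N (D := D) (ε := ε) (s := ‖x - z‖ ^ 2) (by positivity)
      (by positivity)).continuousAt
    exact (ContinuousAt.comp (f := fun z => ‖x - z‖ ^ 2) h3 (by fun_prop)).continuousWithinAt
  have h2 := h1.aestronglyMeasurable (μ := volume) (measurableSet_singleton x).compl
  rw [restrict_compl_singleton] at h2
  exact h2.restrict

theorem dpot_bound {E : Type*} [NormedAddCommGroup E] [NormedSpace ℝ E] {k : V → E} {b : V → ℝ}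
    (hk : AEStronglyMeasurable k (mm Ω)) (hb : Integrable b (mm Ω)) {A B : ℝ} (hA : 0 ≤ A)
    (hB : ∫ z, b z ∂mm Ω ≤ B) (h : ∀ᵐ z ∂mm Ω, ‖k z‖ ≤ A * b z) :
    Integrable k (mm Ω) ∧ ‖∫ z, k z ∂mm Ω‖ ≤ A * B := by
  refine ⟨(hb.const_mul A).mono' hk h,
    (norm_integral_le_of_norm_le (hb.const_mul A) h).trans ?_⟩
  rw [integral_const_mul]
  exact mul_le_mul_of_nonneg_left hB hA

theorem dpot_a {N : ℕ} (hN : 1 ≤ N) {D ε t : ℝ} (hε : 0 ≤ ε) (ht : 0 < t) (hD : t ^ 2 ≤ D) :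
    |kap N D ε (t ^ 2)| ≤ √D * t ^ (-((N : ℝ) - 1)) := by
  have h0 : 0 < t ^ 2 := by positivity
  have h := kap_sub hN (h0.trans_le hD) hε h0 hD
  rw [kap_self, sub_zero, dpot_rp ht] at h
  have e : 2 * (-((N : ℝ) - 1) / 2) = -((N : ℝ) - 1) := by ring
  rw [e] at h
  rw [abs_of_nonneg h.1, mul_comm]
  refine h.2.trans (mul_le_mul_of_nonneg_left ?_ (Real.rpow_nonneg ht.le _))
  linarith [Real.sqrt_nonneg (t ^ 2)]

theorem dpot_b {N : ℕ} (hN : 1 ≤ N) {D ε t β : ℝ} (hε : 0 ≤ ε) (ht : 0 < t) (hD : t ^ 2 ≤ D)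
    (hβ : 0 < β) (hβ1 : β ≤ 1) : |kap N D ε (t ^ 2) - kap N D 0 (t ^ 2)| ≤
      N * ε ^ β * √D * t ^ (-((N : ℝ) - 1 + 2 * β)) := by
  have h := kap_reg hN hε (by positivity : 0 < t ^ 2) hD hβ hβ1
  have e : 2 * (-((N : ℝ) - 1) / 2 - β) = -((N : ℝ) - 1 + 2 * β) := by ring
  rwa [dpot_rp ht, e] at h

theorem dpot_c {N : ℕ} (hN : 1 ≤ N) {ε t : ℝ} (hε : 0 ≤ ε) (ht : 0 < t) :
    |-(t ^ 2 + ε) ^ (-(N : ℝ) / 2)| * t ≤ t ^ (-((N : ℝ) - 1)) := by
  have h := (pow_reg hN hε (by positivity : 0 < t ^ 2) one_pos le_rfl).1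
  have e : -((N : ℝ) - 1) = 2 * (-(N : ℝ) / 2) + 1 := by ring
  rw [dpot_rp ht] at h
  rw [abs_neg, abs_of_nonneg (Real.rpow_nonneg (by positivity) _), e, Real.rpow_add_one ht.ne']
  exact mul_le_mul_of_nonneg_right (by linarith) ht.le

theorem dpot_d {N : ℕ} (hN : 1 ≤ N) {ε t β : ℝ} (hε : 0 ≤ ε) (ht : 0 < t) (hβ : 0 < β)
    (hβ1 : β ≤ 1) : |-(t ^ 2 + ε) ^ (-(N : ℝ) / 2) - -(t ^ 2 + 0) ^ (-(N : ℝ) / 2)| * t ≤
      N * ε ^ β * t ^ (-((N : ℝ) - 1 + 2 * β)) := by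
  have h := pow_reg hN hε (by positivity : 0 < t ^ 2) hβ hβ1
  have e : -((N : ℝ) - 1 + 2 * β) = 2 * (-(N : ℝ) / 2 - β) + 1 := by ring
  rw [add_zero, neg_sub_neg, abs_of_nonneg h.1, e, Real.rpow_add_one ht.ne', ← mul_assoc,
    ← dpot_rp ht]
  exact mul_le_mul_of_nonneg_right h.2 ht.le

theorem dpot_unif {E : Type*} [NormedAddCommGroup E] {f : ℕ → V → E} {f₀ : V → E} {A β : ℝ}
    (hβ : 0 < β) (h : ∀ n : ℕ, ∀ x ∈ Ω, ‖f n x - f₀ x‖ ≤ (1 / ((n : ℝ) + 1)) ^ β * A) :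
    TendstoUniformlyOn f f₀ atTop Ω := by
  have h1 : Tendsto (fun n : ℕ => (1 / ((n : ℝ) + 1)) ^ β * A) atTop (𝓝 0) := by
    have h2 := (tendsto_one_div_add_atTop_nhds_zero_nat (𝕜 := ℝ)).rpow_const (Or.inr hβ.le)
    rw [Real.zero_rpow hβ.ne'] at h2
    simpa only [zero_mul] using h2.mul_const A
  refine Metric.tendstoUniformlyOn_iff.2 fun δ hδ => ?_
  filter_upwards [h1.eventually (gt_mem_nhds hδ)] with n hn x hx
  rw [dist_comm, dist_eq_norm]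
  exact (h n x hx).trans_lt hn

/-- the potential -/
noncomputable def dpotW (Ω : Set V) (D : ℝ) (g : V → ℝ) (ε : ℝ) (x : V) : ℝ :=
  ∫ z, kap (finrank ℝ V) D ε (‖x - z‖ ^ 2) * g z ∂mm Ω

/-- its gradient -/
noncomputable def dpotF (Ω : Set V) (g : V → ℝ) (ε : ℝ) (x : V) : V :=
  ∫ z, g z • (-(‖x - z‖ ^ 2 + ε) ^ (-(finrank ℝ V : ℝ) / 2)) • (x - z) ∂mm Ω

theorem dpot_est (hΩ : OB Ω) {q D : ℝ} (hq : (finrank ℝ V : ℝ) < q) (hD0 : 0 < D)
    (hD : ∀ x ∈ Ω, ∀ z ∈ Ω, ‖x - z‖ ^ 2 ≤ D) : ∃ C β : ℝ, 0 ≤ C ∧ 0 < β ∧ ∀ g : V → ℝ,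
      MemLp g (ENNReal.ofReal q) (mm Ω) → ∀ x ∈ Ω, ∀ ε, 0 ≤ ε →
        Integrable (fun z => kap (finrank ℝ V) D ε (‖x - z‖ ^ 2) * g z) (mm Ω) ∧
        |dpotW Ω D g ε x| ≤ C * nq Ω q g ∧ ‖dpotF Ω g ε x‖ ≤ C * nq Ω q g ∧
        ‖dpotW Ω D g ε x - dpotW Ω D g 0 x‖ ≤ ε ^ β * (C * nq Ω q g) ∧
        ‖dpotF Ω g ε x - dpotF Ω g 0 x‖ ≤ ε ^ β * (C * nq Ω q g) := by
  have hN : 1 ≤ finrank ℝ V := by have := hΩ.dim; omega
  have hN' : (2 : ℝ) ≤ finrank ℝ V := by exact_mod_cast hΩ.dim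
  have hq0 : 0 < q := by linarith
  have h1 : (finrank ℝ V : ℝ) / q < 1 := (div_lt_one hq0).2 hq
  have h2 : 0 < (finrank ℝ V : ℝ) / q := by positivity
  have e : (finrank ℝ V : ℝ) * (1 - 1 / q) = finrank ℝ V - finrank ℝ V / q := by ring
  obtain ⟨β, hβ, hβ1, hβ2⟩ : ∃ β : ℝ, 0 < β ∧ β ≤ 1 ∧ 2 * β < 1 - finrank ℝ V / q :=
    ⟨(1 - finrank ℝ V / q) / 4, by linarith, by linarith, by linarith⟩
  obtain ⟨C₀, hC₀, k₀⟩ := ker_bound hΩ (q := q) (γ := finrank ℝ V - 1) (by linarith) (by linarith)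
    (by rw [e]; linarith)
  obtain ⟨C₁, hC₁, k₁⟩ := ker_bound hΩ (q := q) (γ := finrank ℝ V - 1 + 2 * β) (by linarith)
    (by linarith) (by rw [e]; linarith)
  have hs := Real.sqrt_nonneg D
  refine ⟨(√D + 1) * (C₀ + finrank ℝ V * C₁), β, by positivity, hβ, fun g hg x hx => ?_⟩
  have hn : 0 ≤ nq Ω q g := ENNReal.toReal_nonneg
  have mW : ∀ ε, 0 ≤ ε → AEStronglyMeasurable
      (fun z => kap (finrank ℝ V) D ε (‖x - z‖ ^ 2) * g z) (mm Ω) :=
    fun ε hε => (dpot_meas hΩ _ hD0 hε x).mul hg.1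
  have mF : ∀ ε, AEStronglyMeasurable (fun z =>
      g z • (-(‖x - z‖ ^ 2 + ε) ^ (-(finrank ℝ V : ℝ) / 2)) • (x - z)) (mm Ω) := fun ε =>
    hg.1.smul (AEStronglyMeasurable.smul (Measurable.aestronglyMeasurable (by fun_prop))
      (Continuous.aestronglyMeasurable (by fun_prop)))
  have bW : ∀ (ε : ℝ) (hε : 0 ≤ ε), _ := fun ε hε =>
    dpot_bound (mW ε hε) (k₀ g hg x hx).1 hs (k₀ g hg x hx).2 (by
      filter_upwards [dpot_ne hΩ x] with z hz
      rw [norm_mul, ← mul_assoc]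
      exact mul_le_mul_of_nonneg_right (dpot_a hN hε hz.2 (hD x hx z hz.1)) (norm_nonneg _))
  have bF : ∀ (ε : ℝ) (hε : 0 ≤ ε), _ := fun ε hε =>
    dpot_bound (mF ε) (k₀ g hg x hx).1 zero_le_one (k₀ g hg x hx).2 (by
      filter_upwards [dpot_ne hΩ x] with z hz
      rw [norm_smul, norm_smul, one_mul, mul_comm]
      exact mul_le_mul_of_nonneg_right (dpot_c hN hε hz.2) (norm_nonneg _))
  intro ε hε
  have hp : 0 ≤ ε ^ β := Real.rpow_nonneg hε β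
  have dW := dpot_bound ((mW ε hε).sub (mW 0 le_rfl)) (k₁ g hg x hx).1
    (A := finrank ℝ V * ε ^ β * √D) (by positivity) (k₁ g hg x hx).2 (by
      filter_upwards [dpot_ne hΩ x] with z hz
      rw [Pi.sub_apply, ← sub_mul, norm_mul, ← mul_assoc]
      exact mul_le_mul_of_nonneg_right (dpot_b hN hε hz.2 (hD x hx z hz.1) hβ hβ1)
        (norm_nonneg _))
  have dF := dpot_bound ((mF ε).sub (mF 0)) (k₁ g hg x hx).1
    (A := finrank ℝ V * ε ^ β) (by positivity) (k₁ g hg x hx).2 (by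
      filter_upwards [dpot_ne hΩ x] with z hz
      rw [Pi.sub_apply, ← smul_sub, ← sub_smul, norm_smul, norm_smul, mul_comm, ← mul_assoc]
      exact mul_le_mul_of_nonneg_right (dpot_d hN hε hz.2 hβ hβ1) (norm_nonneg _))
  have a0 : 0 ≤ C₀ * nq Ω q g := by positivity
  have a1 : 0 ≤ finrank ℝ V * C₁ * nq Ω q g := by positivity
  have a2 := mul_nonneg hs a0
  have a3 := mul_nonneg hs a1
  refine ⟨(bW ε hε).1, (bW ε hε).2.trans (by nlinarith), (bF ε hε).2.trans (by nlinarith), ?_, ?_⟩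
  · rw [dpotW, dpotW, ← integral_sub (bW ε hε).1 (bW 0 le_rfl).1]
    refine dW.2.trans ?_
    nlinarith [mul_nonneg hp a0, mul_nonneg hp a1, mul_nonneg hp a2]
  · rw [dpotF, dpotF, ← integral_sub (bF ε hε).1 (bF 0 le_rfl).1]
    refine dF.2.trans ?_
    nlinarith [mul_nonneg hp a0, mul_nonneg hp a3, mul_nonneg hp a2]

theorem pot (hΩ : OB Ω) {q D : ℝ} (hq : (finrank ℝ V : ℝ) < q) (hD0 : 0 < D)
    (hD : ∀ x ∈ Ω, ∀ z ∈ Ω, ‖x - z‖ ^ 2 ≤ D) : ∃ cN C : ℝ, 0 < cN ∧ 0 ≤ C ∧ ∀ g : V → ℝ,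
      MemLp g (ENNReal.ofReal q) (mm Ω) → ∃ F,
        Reg Ω (fun x => ∫ z, kap (finrank ℝ V) D 0 (‖x - z‖ ^ 2) * g z ∂mm Ω) F ∧
        WEq Ω F (fun x => cN * g x) ∧ ∀ x ∈ Ω,
          Integrable (fun z => kap (finrank ℝ V) D 0 (‖x - z‖ ^ 2) * g z) (mm Ω) ∧
          |∫ z, kap (finrank ℝ V) D 0 (‖x - z‖ ^ 2) * g z ∂mm Ω| ≤ C * nq Ω q g ∧
          ‖F x‖ ≤ C * nq Ω q g := by
  have := hΩ.fin
  obtain ⟨C, β, hC, hβ, hest⟩ := dpot_est hΩ hq hD0 hD
  obtain ⟨cN, hcN, hid⟩ := approx_id hΩ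
  refine ⟨cN, C, hcN, hC, fun g hg => ?_⟩
  have g2 := hΩ.two_of_q hq hg
  have g1 : Integrable g (mm Ω) := g2.integrable one_le_two
  have hp : ∀ n : ℕ, (0 : ℝ) < 1 / ((n : ℝ) + 1) := fun n => Nat.one_div_pos_of_nat
  have hr : ∀ n : ℕ, Reg Ω (dpotW Ω D g (1 / ((n : ℝ) + 1))) (dpotF Ω g (1 / ((n : ℝ) + 1))) :=
    fun n => (pot_reg hΩ hD0 (hp n) g1).1
  have he : ∀ n : ℕ, WEq Ω (dpotF Ω g (1 / ((n : ℝ) + 1))) (fun x =>
      ∫ z, rho (finrank ℝ V) (1 / ((n : ℝ) + 1)) (‖x - z‖ ^ 2) * g z ∂mm Ω) :=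
    fun n => (pot_reg hΩ hD0 (hp n) g1).2
  have uW : TendstoUniformlyOn (fun n : ℕ => dpotW Ω D g (1 / ((n : ℝ) + 1))) (dpotW Ω D g 0)
      atTop Ω := dpot_unif hβ fun n x hx => (hest g hg x hx _ (hp n).le).2.2.2.1
  have uF : TendstoUniformlyOn (fun n : ℕ => dpotF Ω g (1 / ((n : ℝ) + 1))) (dpotF Ω g 0)
      atTop Ω := dpot_unif hβ fun n x hx => (hest g hg x hx _ (hp n).le).2.2.2.2
  have hR : Reg Ω (dpotW Ω D g 0) (dpotF Ω g 0) := by
    refine ⟨fun x hx => ?_, uF.continuousOn (Frequently.of_forall fun n => (hr n).cont),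
      C * nq Ω q g, fun x hx => ⟨(hest g hg x hx 0 le_rfl).2.1, (hest g hg x hx 0 le_rfl).2.2.1⟩⟩
    exact hasGradientAt_iff_hasFDerivAt.2 (hasFDerivAt_of_tendstoUniformlyOn hΩ.op
      ((InnerProductSpace.toDual ℝ V).isometry.uniformContinuous.comp_tendstoUniformlyOn uF)
      (fun n y hy => ((hr n).grad y hy).hasFDerivAt) (fun y hy => uW.tendsto_at hy) hx)
  refine ⟨dpotF Ω g 0, hR, weq_of_tst hΩ (hR.memF hΩ 2) (g2.const_mul cN) fun φ hφ => ?_,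
    fun x hx => ⟨(hest g hg x hx 0 le_rfl).1, (hest g hg x hx 0 le_rfl).2.1,
      (hest g hg x hx 0 le_rfl).2.2.1⟩⟩
  have h1 : L2T (mm Ω) (fun n : ℕ => dpotF Ω g (1 / ((n : ℝ) + 1))) (dpotF Ω g 0) :=
    l2t_of_dom (fun n => ((hr n).memF hΩ 2).1) (memLp_const (C * nq Ω q g))
      (fun n => hΩ.mem.mono fun x hx => (hest g hg x hx _ (hp n).le).2.2.1)
      (hΩ.mem.mono fun x hx => uF.tendsto_at hx)
  have h2 := h1.inner (l2t_const (hφ.mem hΩ).1.2.1)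
  simp only [fun n => (he n).eq φ _ (hφ.mem hΩ)] at h2
  exact tendsto_nhds_unique h2 (hid φ g hφ g1)

theorem pot' (hΩ : OB Ω) {q : ℝ} (hq : (finrank ℝ V : ℝ) < q) : ∃ C : ℝ, 0 ≤ C ∧ ∀ g : V → ℝ,
    MemLp g (ENNReal.ofReal q) (mm Ω) → ∃ W F, Reg Ω W F ∧ WEq Ω F g ∧
      ∀ x ∈ Ω, |W x| ≤ C * nq Ω q g ∧ ‖F x‖ ≤ C * nq Ω q g := by
  obtain ⟨R, hR, h1⟩ := hΩ.radius 0
  obtain ⟨cN, C, hcN, hC, h⟩ := pot hΩ hq (D := (2 * R) ^ 2) (by positivity) fun x hx z hz => by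
    have h2 := h1 x hx
    have h3 := h1 z hz
    rw [sub_zero] at h2 h3
    exact pow_le_pow_left₀ (norm_nonneg _) ((norm_sub_le _ _).trans (by linarith)) 2
  have hi : 0 < cN⁻¹ := inv_pos.2 hcN
  refine ⟨cN⁻¹ * C, by positivity, fun g hg => ?_⟩
  obtain ⟨F, hF, he, hb⟩ := h g hg
  refine ⟨_, _, hF.smul cN⁻¹, (he.smul cN⁻¹).congr EventuallyEq.rfl
    (Eventually.of_forall fun x => inv_mul_cancel_left₀ hcN.ne' _), fun x hx => ⟨?_, ?_⟩⟩
  · rw [abs_mul, abs_of_pos hi, mul_assoc]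
    exact mul_le_mul_of_nonneg_left (hb x hx).2.1 hi.le
  · rw [norm_smul, Real.norm_of_nonneg hi.le, mul_assoc]
    exact mul_le_mul_of_nonneg_left (hb x hx).2.2 hi.le

end Pool.Agent.P.MP_0cf84d_an
end

-- part Pool.Agent.P.MP_0cf84d_an.DLow
section

/-! A lower solution. -/

set_option linter.unusedSectionVars false
set_option linter.unusedVariables false

namespace Pool.Agent.P.MP_0cf84d_an

open MeasureTheory Filter Topology Metric Set Module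
open scoped RealInnerProductSpace ENNReal NNReal

variable {V : Type*} [NormedAddCommGroup V] [InnerProductSpace ℝ V] [FiniteDimensional ℝ V]
  [MeasurableSpace V] [BorelSpace V] [CompleteSpace V] {Ω : Set V}

/-- a function in `L^q` is a bounded function plus a small one -/
theorem dlow_split {q : ℝ} {c : V → ℝ} (hc : MemLp c (ENNReal.ofReal q) (mm Ω)) {δ : ℝ}
    (hδ : 0 < δ) : ∃ (R0 : ℝ) (c2 : V → ℝ), 0 ≤ R0 ∧ MemLp c2 (ENNReal.ofReal q) (mm Ω) ∧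
      nq Ω q c2 ≤ δ ∧ ∀ x, c x ≤ R0 + c2 x := by
  have h0 : ENNReal.ofReal δ ≠ 0 := (ENNReal.ofReal_pos.2 hδ).ne'
  obtain ⟨g, hg, hgm⟩ := hc.exists_simpleFunc_eLpNorm_sub_lt ENNReal.ofReal_ne_top h0
  obtain ⟨C, hC⟩ := g.exists_forall_norm_le
  refine ⟨C, c - ⇑g, (norm_nonneg _).trans (hC 0), hc.sub hgm, ?_, fun x => ?_⟩
  · exact ENNReal.toReal_le_of_le_ofReal hδ.le hg.le
  · have h1 : g x ≤ C := (le_abs_self _).trans (hC x)
    simp only [Pi.sub_apply]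
    linarith

/-- the choice of the constants -/
theorem dlow_num {l M Ch R1 R0 μ₁ ρ : ℝ} (hl : 0 ≤ l) (hM : 0 ≤ M) (hCh : 0 ≤ Ch) (hR0 : 0 ≤ R0)
    (hμ : 0 < μ₁) (hρ : 0 ≤ ρ) (h1 : l * ρ ≤ 1 / 4) (h2 : l * ρ * R1 ^ 2 ≤ 1 / 2) :
    ∃ A B : ℝ, 0 ≤ A ∧ 0 ≤ B ∧ l * (M + 2 * (B * ρ) + 2 * Ch + A * R1 ^ 2 / 2) ≤ B ∧
      ∀ t, A - B * ρ - Ch ≤ t → R0 * B ≤ μ₁ * t ^ 2 := by
  obtain ⟨C', hC'⟩ : ∃ C', C' = (M + 2 * Ch) / 2 + Ch := ⟨_, rfl⟩
  obtain ⟨a, ha⟩ : ∃ a, a = R0 * (2 * l * (M + 2 * Ch)) := ⟨_, rfl⟩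
  obtain ⟨b, hb⟩ : ∃ b, b = R0 * (l * R1 ^ 2) := ⟨_, rfl⟩
  have hC0 : 0 ≤ C' := by rw [hC']; positivity
  have ha0 : 0 ≤ a := by rw [ha]; positivity
  have hb0 : 0 ≤ b := by rw [hb]; positivity
  obtain ⟨k, hk⟩ : ∃ k, k = (a + 2 * b * C' + 2 * b) / μ₁ := ⟨_, rfl⟩
  have hk0 : 0 ≤ k := by rw [hk]; positivity
  have hk1 : μ₁ * k = a + 2 * b * C' + 2 * b := by rw [hk]; field_simp
  obtain ⟨A, hA⟩ : ∃ A, A = 2 * (1 + k + C') := ⟨_, rfl⟩
  have hA0 : 0 ≤ A := by rw [hA]; positivity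
  obtain ⟨B, hB⟩ : ∃ B, B = 2 * l * (M + 2 * Ch + A * R1 ^ 2 / 2) := ⟨_, rfl⟩
  have hB0 : 0 ≤ B := by rw [hB]; positivity
  refine ⟨A, B, hA0, hB0, ?_, fun t ht => ?_⟩
  · have h3 : l * ρ * B ≤ 1 / 4 * B := mul_le_mul_of_nonneg_right h1 hB0
    have h4 : l * (M + 2 * (B * ρ) + 2 * Ch + A * R1 ^ 2 / 2) = B / 2 + 2 * (l * ρ * B) := by
      rw [hB]; ring
    rw [h4]; linarith
  · have h3 : B * ρ = 2 * (l * ρ * (M + 2 * Ch)) + l * ρ * R1 ^ 2 * A := by rw [hB]; ring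
    have h4 : l * ρ * (M + 2 * Ch) ≤ 1 / 4 * (M + 2 * Ch) :=
      mul_le_mul_of_nonneg_right h1 (by positivity)
    have h5 : l * ρ * R1 ^ 2 * A ≤ 1 / 2 * A := mul_le_mul_of_nonneg_right h2 hA0
    have h6 : 1 + k ≤ t := by linarith
    have h7 : (1 + k) ^ 2 ≤ t ^ 2 := pow_le_pow_left₀ (by positivity) h6 2
    have h8 : R0 * B = a + b * A := by rw [hB, ha, hb]; ring
    have h9 : μ₁ * (1 + k) ^ 2 ≤ μ₁ * t ^ 2 := mul_le_mul_of_nonneg_left h7 hμ.le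
    have h10 : μ₁ * (1 + k) ^ 2 = μ₁ * (1 + k) + (μ₁ * k) * (1 + k) := by ring
    have h11 : 0 ≤ μ₁ * (1 + k) := by positivity
    have h12 : 0 ≤ (a + 2 * b * C') * k := by positivity
    rw [hk1] at h10
    have h13 : (a + 2 * b * C' + 2 * b) * (1 + k) =
        a + b * A + (a + 2 * b * C') * k := by rw [hA]; ring
    rw [h8]
    linarith

/-- a point at distance at least one from the domain -/
theorem dlow_pt (hΩ : OB Ω) : ∃ (y : V) (R1 : ℝ), ∀ x ∈ Ω, 1 ≤ ‖x - y‖ ∧ ‖x - y‖ ≤ R1 := by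
  have hd : 0 < finrank ℝ V := lt_of_lt_of_le (by norm_num) hΩ.dim
  have : Nontrivial V := Module.nontrivial_of_finrank_pos hd
  obtain ⟨R, hR, h1⟩ := hΩ.radius 0
  obtain ⟨y, hy⟩ := exists_norm_eq V (show 0 ≤ R + 1 by positivity)
  obtain ⟨R1, -, h2⟩ := hΩ.radius y
  refine ⟨y, R1, fun x hx => ⟨?_, h2 x hx⟩⟩
  have h3 := h1 x hx
  rw [sub_zero] at h3
  have h4 : ‖y‖ - ‖x‖ ≤ ‖x - y‖ := by
    rw [norm_sub_rev]; exact norm_sub_norm_le y x
  linarith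

theorem dlow_reg (hΩ : OB Ω) (y : V) {R1 : ℝ} (hy : ∀ x ∈ Ω, ‖x - y‖ ≤ R1) (M' A : ℝ) :
    Reg Ω (fun x => M' + A * (R1 ^ 2 - ‖x - y‖ ^ 2) / 2) (fun x => (-A) • (x - y)) := by
  have h := reg_radial hΩ y (A := fun s => M' + A * (R1 ^ 2 - s) / 2) (a := fun _ => -A / 2)
    (fun x _ => by
      have h1 := ((((hasDerivAt_id (‖x - y‖ ^ 2)).const_sub (R1 ^ 2)).const_mul A).div_const
        2).const_add M'
      exact h1.congr_deriv (by ring))
    continuousOn_const (C := |M'| + |A| * R1 ^ 2 + |A|) (fun x hx => by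
      have h1 : ‖x - y‖ ^ 2 ≤ R1 ^ 2 := pow_le_pow_left₀ (norm_nonneg _) (hy x hx) 2
      have h2 : 0 ≤ ‖x - y‖ ^ 2 := by positivity
      have h3 : |A * (R1 ^ 2 - ‖x - y‖ ^ 2) / 2| ≤ |A| * R1 ^ 2 := by
        rw [abs_div, abs_mul, abs_of_nonneg (sub_nonneg.2 h1), abs_two]
        have h4 : 0 ≤ |A| * ‖x - y‖ ^ 2 := by positivity
        have h5 : 0 ≤ |A| * R1 ^ 2 := by positivity
        nlinarith
      have h6 := abs_add_le M' (A * (R1 ^ 2 - ‖x - y‖ ^ 2) / 2)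
      have h7 : |-A / 2| = |A| / 2 := by rw [abs_div, abs_neg, abs_two]
      have h8 := abs_nonneg A
      have h9 := abs_nonneg M'
      have h5 : 0 ≤ |A| * R1 ^ 2 := by positivity
      constructor
      · linarith
      · rw [h7]; linarith)
  have h2 : (2 * (-A / 2)) = -A := by ring
  simpa only [h2] using h

theorem dlow_weq (hΩ : OB Ω) (y : V) (A : ℝ) :
    WEq Ω (fun x => (-A) • (x - y)) (fun _ => finrank ℝ V * A) := by
  have h := weq_radial hΩ y (a := fun _ => -A) (a' := fun _ => 0)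
    (fun x _ => hasDerivAt_const _ _) continuousOn_const (C := |A|)
    (fun x _ => ⟨by rw [abs_neg], by simp⟩)
  refine h.congr (Eventually.of_forall fun _ => rfl) (Eventually.of_forall fun x => ?_)
  simp

theorem low (hΩ : OB Ω) {q μ₁ μ₂ l : ℝ} {c h μ : V → ℝ} (hD : Dat Ω q c h μ μ₁ μ₂) (hl : 0 ≤ l)
    {M : ℝ} (hM : 0 ≤ M) : ∃ W F, Reg Ω W F ∧ (∀ x ∈ Ω, M ≤ W x) ∧
      WGe Ω F (fun x => -rhs c h μ l H2 (fun x => -W x) (fun x => -F x) x) := by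
  obtain ⟨C, hC, hpot⟩ := pot' hΩ hD.hq
  obtain ⟨y, R1, hy⟩ := dlow_pt hΩ
  obtain ⟨K, hK⟩ : ∃ K, K = 4 * (l * C) * (1 + R1 ^ 2) + 1 := ⟨_, rfl⟩
  have hK0 : 0 < K := by rw [hK]; positivity
  obtain ⟨R0, c2, hR0, hc2, hn2, hsp⟩ := dlow_split hD.cq (δ := 1 / K) (by positivity)
  have hlC : 0 ≤ l * C := by positivity
  have hρ0 : 0 ≤ C * (1 / K) := by positivity
  have hρ1 : l * (C * (1 / K)) ≤ 1 / 4 := by
    have e : l * (C * (1 / K)) = l * C / K := by ring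
    rw [e, div_le_iff₀ hK0, hK]
    have : 0 ≤ l * C * R1 ^ 2 := by positivity
    nlinarith
  have hρ2 : l * (C * (1 / K)) * R1 ^ 2 ≤ 1 / 2 := by
    have e : l * (C * (1 / K)) * R1 ^ 2 = l * C * R1 ^ 2 / K := by ring
    rw [e, div_le_iff₀ hK0, hK]
    have : 0 ≤ l * C * R1 ^ 2 := by positivity
    nlinarith
  generalize hρ : C * (1 / K) = ρ at hρ0 hρ1 hρ2
  obtain ⟨w2, F2, hr2, he2, hb2⟩ := hpot c2 hc2
  have hb2' : ∀ x ∈ Ω, |w2 x| ≤ ρ ∧ ‖F2 x‖ ≤ ρ := fun x hx => by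
    have h1 : C * nq Ω q c2 ≤ ρ := hρ ▸ mul_le_mul_of_nonneg_left hn2 hC
    exact ⟨(hb2 x hx).1.trans h1, (hb2 x hx).2.trans h1⟩
  obtain ⟨wh, Fh, hrh, heh, hbh⟩ := hpot (fun x => -h x) hD.hh.neg
  have hCh : 0 ≤ C * nq Ω q (fun x => -h x) := mul_nonneg hC ENNReal.toReal_nonneg
  generalize C * nq Ω q (fun x => -h x) = Ch at hbh hCh
  obtain ⟨A, B, hA, hB, hn1, hn3⟩ := dlow_num (R1 := R1) hl hM hCh hR0 hD.pos hρ0 hρ1 hρ2
  have hreg := ((dlow_reg hΩ y (fun x hx => (hy x hx).2) (M + B * ρ + Ch) A).add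
    (hr2.smul B)).add hrh
  have heq := ((dlow_weq hΩ y A).add (he2.smul B)).add heh
  have hW : ∀ x ∈ Ω, M ≤ M + B * ρ + Ch + A * (R1 ^ 2 - ‖x - y‖ ^ 2) / 2 + B * w2 x + wh x ∧
      M + B * ρ + Ch + A * (R1 ^ 2 - ‖x - y‖ ^ 2) / 2 + B * w2 x + wh x ≤
        M + 2 * (B * ρ) + 2 * Ch + A * R1 ^ 2 / 2 := fun x hx => by
    have h1 : ‖x - y‖ ^ 2 ≤ R1 ^ 2 := pow_le_pow_left₀ (norm_nonneg _) (hy x hx).2 2
    have h2 : 0 ≤ A * (R1 ^ 2 - ‖x - y‖ ^ 2) := mul_nonneg hA (sub_nonneg.2 h1)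
    have h3 : 0 ≤ A * ‖x - y‖ ^ 2 := by positivity
    have h4 := abs_le.1 (hb2' x hx).1
    have h5 := abs_le.1 (hbh x hx).1
    have h6 : B * w2 x ≤ B * ρ := mul_le_mul_of_nonneg_left h4.2 hB
    have h7 : B * (-ρ) ≤ B * w2 x := mul_le_mul_of_nonneg_left h4.1 hB
    constructor
    · linarith [h5.1]
    · nlinarith [h5.2]
  have hF : ∀ x ∈ Ω, A - B * ρ - Ch ≤ ‖(-A) • (x - y) + B • F2 x + Fh x‖ := fun x hx => by
    have h1 : A ≤ ‖(-A) • (x - y)‖ := by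
      rw [norm_smul, norm_neg, Real.norm_of_nonneg hA]
      exact le_mul_of_one_le_right hA (hy x hx).1
    have h2 : ‖B • F2 x‖ ≤ B * ρ := by
      rw [norm_smul, Real.norm_of_nonneg hB]
      exact mul_le_mul_of_nonneg_left (hb2' x hx).2 hB
    have h3 := (hbh x hx).2
    have h4 := norm_sub_le ((-A) • (x - y) + B • F2 x + Fh x) (Fh x)
    have h5 := norm_sub_le ((-A) • (x - y) + B • F2 x) (B • F2 x)
    rw [add_sub_cancel_right] at h4 h5
    linarith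
  refine ⟨_, _, hreg, fun x hx => (hW x hx).1, heq.ge.mono' ?_ ?_⟩
  · exact (hD.int_rhs hΩ l (hreg.memW hΩ ⊤).neg (hreg.memF hΩ 2).neg).neg
  · filter_upwards [hΩ.mem, hD.c0, hD.mu] with x hx hc0 hmu
    have h1 := hW x hx
    have h2 := hn3 _ (hF x hx)
    simp only [rhs, H2, norm_neg]
    generalize ‖(-A) • (x - y) + B • F2 x + Fh x‖ = t at h2
    generalize M + B * ρ + Ch + A * (R1 ^ 2 - ‖x - y‖ ^ 2) / 2 + B * w2 x + wh x = w at h1
    have h3 : l * w ≤ B := (mul_le_mul_of_nonneg_left h1.2 hl).trans hn1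
    have h4 : c x * (l * w) ≤ c x * B := mul_le_mul_of_nonneg_left h3 hc0
    have h5 : c x * B ≤ (R0 + c2 x) * B := mul_le_mul_of_nonneg_right (hsp x) hB
    have h6 : μ₁ * t ^ 2 ≤ μ x * t ^ 2 := mul_le_mul_of_nonneg_right hmu.1 (by positivity)
    have h7 : 0 ≤ (finrank ℝ V : ℝ) * A := by positivity
    nlinarith

end Pool.Agent.P.MP_0cf84d_an
end

-- part Pool.Agent.P.MP_0cf84d_an.DExist
section

/-! A solution below a nonpositive upper solution. -/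

set_option linter.unusedSectionVars false
set_option linter.unusedVariables false

namespace Pool.Agent.P.MP_0cf84d_an

open MeasureTheory Filter Topology Metric Set Module
open scoped RealInnerProductSpace ENNReal NNReal

variable {V : Type*} [NormedAddCommGroup V] [InnerProductSpace ℝ V] [FiniteDimensional ℝ V]
  [MeasurableSpace V] [BorelSpace V] [CompleteSpace V] {Ω : Set V}

theorem dexist_cont (k : ℝ) : Continuous (HH (V := V) k) := by
  unfold HH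
  fun_prop

theorem dexist_int (hΩ : OB Ω) {q μ₁ μ₂ : ℝ} {c h μ u : V → ℝ} {G : V → V}
    (hD : Dat Ω q c h μ μ₁ μ₂) (l k : ℝ) (hu : TT Ω u G) :
    Integrable (rhs c h μ l (HH k) u G) (mm Ω) := by
  have := hΩ.fin
  exact (hD.l2_rhs hΩ l (dexist_cont k) (HH_abs k) hu.2 hu.1.2.1.1).integrable one_le_two

theorem dexist_up (hΩ : OB Ω) {q μ₁ μ₂ l : ℝ} {c h μ β : V → ℝ} {B : V → V}
    (hD : Dat Ω q c h μ μ₁ μ₂) (hβ : TT Ω β B) (hup : WGe Ω B (rhs c h μ l H2 β B)) (k : ℝ) :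
    WGe Ω B (rhs c h μ l (HH k) β B) := by
  refine hup.mono' (dexist_int hΩ hD l k hβ) (hD.mu.mono fun x hx => ?_)
  have h1 : 0 ≤ μ x := hD.pos.le.trans hx.1
  have h2 : HH k (B x) ≤ H2 (B x) := min_le_left _ _
  have h3 := mul_le_mul_of_nonneg_left h2 h1
  unfold rhs
  linarith

theorem dexist_low (hΩ : OB Ω) {q μ₁ μ₂ l : ℝ} {c h μ u : V → ℝ} {G : V → V}
    (hD : Dat Ω q c h μ μ₁ μ₂) (hu : TT Ω u G) {k k' : ℝ} (hk : 0 ≤ k) (hk' : k ≤ k')
    (he : WEq Ω G (rhs c h μ l (HH k) u G)) :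
    WGe Ω (fun x => -G x) (fun x => -rhs c h μ l (HH k') u G x) := by
  refine he.le.mono' (dexist_int hΩ hD l k' hu).neg (hD.mu.mono fun x hx => ?_)
  have h1 : 0 ≤ μ x := hD.pos.le.trans hx.1
  have h2 : HH k (G x) ≤ HH k' (G x) := min_le_min_left _ (pow_le_pow_left₀ hk hk' 2)
  have h3 := mul_le_mul_of_nonneg_left h2 h1
  unfold rhs
  linarith

theorem dexist_start (hΩ : OB Ω) {q μ₁ μ₂ l : ℝ} {c h μ β : V → ℝ} {B : V → V}
    (hD : Dat Ω q c h μ μ₁ μ₂) (hl : 0 ≤ l) (hβ : TT Ω β B)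
    (hup : WGe Ω B (rhs c h μ l H2 β B)) :
    ∃ k, 0 ≤ k ∧ ∃ u G, TT Ω u G ∧ WEq Ω G (rhs c h μ l (HH k) u G) ∧
      ∀ᵐ x ∂mm Ω, u x ≤ β x := by
  obtain ⟨M, hM, hMb⟩ := top_bound hβ.2
  obtain ⟨W, F, hW, hMW, hlow⟩ := low hΩ hD hl hM.le
  obtain ⟨C, hC⟩ := hW.bdd
  have hk : 0 ≤ |C| := abs_nonneg C
  have hlow' : WGe Ω (fun x => F x - (fun _ => (0 : V)) x)
      (fun x => -rhs c h μ l (HH |C|) (fun x => (fun _ => (0 : ℝ)) x - W x)
        (fun x => (fun _ => (0 : V)) x - F x) x) := by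
    refine hlow.congr (Eventually.of_forall fun x => by simp) (hΩ.mem.mono fun x hx => ?_)
    have h1 : ‖F x‖ ^ 2 ≤ |C| ^ 2 :=
      pow_le_pow_left₀ (norm_nonneg _) ((hC x hx).2.trans (le_abs_self C)) 2
    simp only [rhs, H2, HH, zero_sub, norm_neg, min_eq_left h1]
  have hK : (2 : ℝ) ≤ max 2 (2 * ((Real.toNNReal (2 * |C|) : ℝ) * μ₂) ^ 2) := le_max_left _ _
  have hle : ∀ᵐ x ∂mm Ω, (fun _ => (0 : ℝ)) x - W x ≤ β x := by
    filter_upwards [hMb, hΩ.mem] with x h1 h2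
    have h3 := hMW x h2
    have h4 := (abs_le.1 h1).1
    linarith
  obtain ⟨z, Z, hz, -, hzb, hzl⟩ := step hΩ hD hl (HH_lip hk) (HH_abs |C|) hK (le_max_right _ _)
    (tt_zero Ω) hW (fun x hx => hM.le.trans (hMW x hx)) hlow' hβ (dexist_up hΩ hD hβ hup _) hle
  obtain ⟨u, G, hu, he, hb⟩ := level hΩ hD hl (HH_lip hk) (HH_abs |C|) hz hzl hβ
    (dexist_up hΩ hD hβ hup _) (hzb.mono fun x hx => hx.2)
  exact ⟨|C|, hk, u, G, hu, he, hb.mono fun x hx => hx.2⟩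

theorem exists_sol (hΩ : OB Ω) {q μ₁ μ₂ l : ℝ} {c h μ β : V → ℝ} {B : V → V}
    (hD : Dat Ω q c h μ μ₁ μ₂) (hl : 0 ≤ l) (hβ : TT Ω β B) (h0 : ∀ᵐ x ∂mm Ω, β x ≤ 0)
    (hup : WGe Ω B (rhs c h μ l H2 β B)) : HasNonposSol Ω c h μ l := by
  obtain ⟨k, hk, u0, G0, hu0, he0, hb0⟩ := dexist_start hΩ hD hl hβ hup
  obtain ⟨P, hP⟩ : ∃ P : ℕ → (V → ℝ) × (V → V) → Prop, ∀ n p, P n p ↔
      (TT Ω p.1 p.2 ∧ WEq Ω p.2 (rhs c h μ l (HH (k + n)) p.1 p.2) ∧
        ∀ᵐ x ∂mm Ω, p.1 x ≤ β x) := ⟨_, fun _ _ => Iff.rfl⟩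
  have hstep : ∀ n (p : {p // P n p}), ∃ p' : {p // P (n + 1) p},
      ∀ᵐ x ∂mm Ω, p.1.1 x ≤ p'.1.1 x := by
    intro n p
    obtain ⟨h1, h2, h3⟩ := (hP n p.1).1 p.2
    have hn : (0 : ℝ) ≤ k + n := by positivity
    have hn' : k + n ≤ k + ((n + 1 : ℕ) : ℝ) := by push_cast; linarith
    obtain ⟨u, G, hu, he, hb⟩ := level hΩ hD hl (HH_lip (hn.trans hn')) (HH_abs _) h1
      (dexist_low hΩ hD h1 hn hn' h2) hβ (dexist_up hΩ hD hβ hup _) h3
    exact ⟨⟨(u, G), (hP _ _).2 ⟨hu, he, hb.mono fun x hx => hx.2⟩⟩, hb.mono fun x hx => hx.1⟩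
  choose g hg using hstep
  have hp0 : P 0 (u0, G0) := (hP _ _).2 ⟨hu0, by simpa using he0, hb0⟩
  obtain ⟨s, hs⟩ : ∃ s : ∀ n, {p // P n p}, ∀ n, s (n + 1) = g n (s n) :=
    ⟨fun n => Nat.rec ⟨(u0, G0), hp0⟩ g n, fun _ => rfl⟩
  obtain ⟨w, D, hw, he, hw0⟩ := lim_sol hΩ hD (l := l) hk (u := fun n => (s n).1.1)
    (G := fun n => (s n).1.2) (fun n => ((hP _ _).1 (s n).2).1)
    (fun n => ((hP _ _).1 (s n).2).2.1) (fun n => by simpa only [hs n] using hg n (s n))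
    (fun n => by
      filter_upwards [((hP _ _).1 (s n).2).2.2, h0] with x h1 h2
      exact h1.trans h2)
  exact ⟨w, (hD.isSol_iff hΩ l).2 ⟨D, hw, he⟩, hw0⟩

end Pool.Agent.P.MP_0cf84d_an
end

-- part Pool.Agent.P.MP_0cf84d_an.DRefl0
section

/-! The reflected kernel. -/

set_option linter.unusedSectionVars false
set_option linter.unusedVariables false

namespace Pool.Agent.P.MP_0cf84d_an

open MeasureTheory Filter Topology Metric Set Module
open scoped RealInnerProductSpace ENNReal NNReal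

variable {V : Type*} [NormedAddCommGroup V] [InnerProductSpace ℝ V] [FiniteDimensional ℝ V]
  [MeasurableSpace V] [BorelSpace V] [CompleteSpace V] {Ω : Set V}

theorem rb_eq {y z : V} {r : ℝ} (hr : r ≠ 0) (hz : z ≠ y) (x : V) :
    rb y r z x = ‖z - y‖ ^ 2 / r ^ 2 * ‖x - (y + (r ^ 2 / ‖z - y‖ ^ 2) • (z - y))‖ ^ 2 := by
  have hb : ‖z - y‖ ≠ 0 := norm_ne_zero_iff.2 (sub_ne_zero.2 hz)
  have e1 : x - z = (x - y) - (z - y) := by abel
  have e2 : x - (y + (r ^ 2 / ‖z - y‖ ^ 2) • (z - y)) = (x - y) - (r ^ 2 / ‖z - y‖ ^ 2) • (z - y) := by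
    abel
  unfold rb
  rw [e1, e2, norm_sub_sq_real (x - y), norm_sub_sq_real (x - y), norm_smul, mul_pow,
    Real.norm_eq_abs, sq_abs, real_inner_smul_right]
  field_simp
  ring

theorem rb_le {y z x : V} {r R : ℝ} (hr : 0 < r) (hx : r ≤ ‖x - y‖) (hx' : ‖x - y‖ ≤ R)
    (hz : r ≤ ‖z - y‖) (hz' : ‖z - y‖ ≤ R) : ‖x - z‖ ^ 2 ≤ rb y r z x ∧
      √(rb y r z x) - √(‖x - z‖ ^ 2) ≤ R / r ^ 2 * (‖x - y‖ ^ 2 - r ^ 2) := by
  have h1 : 0 ≤ ‖x - y‖ ^ 2 - r ^ 2 := by nlinarith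
  have h2 : 0 ≤ ‖z - y‖ ^ 2 - r ^ 2 := by nlinarith
  have hR : r ≤ R := hx.trans hx'
  have hs : 0 ≤ ‖x - z‖ := norm_nonneg _
  have ht : ‖z - y‖ ≤ ‖x - y‖ + ‖x - z‖ := by
    have := norm_sub_le (x - y) (x - z)
    rwa [sub_sub_sub_cancel_left] at this
  have h3 : ‖z - y‖ ^ 2 - r ^ 2 ≤ ‖x - y‖ ^ 2 - r ^ 2 + 2 * R * ‖x - z‖ := by
    have a1 : (‖z - y‖ - ‖x - y‖) * (‖z - y‖ + ‖x - y‖) ≤ ‖x - z‖ * (‖z - y‖ + ‖x - y‖) :=
      mul_le_mul_of_nonneg_right (by linarith) (by positivity)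
    have a2 : ‖x - z‖ * (‖z - y‖ + ‖x - y‖) ≤ ‖x - z‖ * (2 * R) :=
      mul_le_mul_of_nonneg_left (by linarith) hs
    nlinarith
  unfold rb
  generalize ‖x - y‖ ^ 2 - r ^ 2 = a at h1 h3 ⊢
  generalize ‖z - y‖ ^ 2 - r ^ 2 = b at h2 h3 ⊢
  generalize ‖x - z‖ = s at hs h3 ⊢
  have hR0 : 0 < R := hr.trans_le hR
  refine ⟨le_add_of_nonneg_right (by positivity), ?_⟩
  rw [Real.sqrt_sq hs, sub_le_iff_le_add', Real.sqrt_le_left (by positivity)]
  have b1 : a * b / r ^ 2 ≤ a * (a + 2 * R * s) / r ^ 2 := by gcongr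
  have b2 : a * a / r ^ 2 ≤ (R / r ^ 2 * a) ^ 2 := by
    have e : (R / r ^ 2 * a) ^ 2 = a * a / r ^ 2 * (R ^ 2 / r ^ 2) := by field_simp
    rw [e]
    refine le_mul_of_one_le_right (by positivity) ?_
    rw [one_le_div (by positivity)]
    gcongr
  have e : a * (a + 2 * R * s) / r ^ 2 = a * a / r ^ 2 + 2 * s * (R / r ^ 2 * a) := by ring
  nlinarith

theorem drefl0_bd {f : ℝ → ℝ} (hf : ContinuousOn f (Ioi 0)) {m : ℝ} (hm : 0 < m) (M : ℝ) :
    ∃ C, 0 ≤ C ∧ ∀ t ∈ Icc m M, |f t| ≤ C := by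
  obtain ⟨C, hC⟩ := (isCompact_Icc (a := m) (b := M)).exists_bound_of_continuousOn
    (hf.mono fun t ht => hm.trans_le ht.1)
  exact ⟨max C 0, le_max_right _ _, fun t ht => (hC t ht).trans (le_max_left _ _)⟩

theorem drefl0_kap (N : ℕ) {D : ℝ} (hD : 0 < D) : ContinuousOn (kap N D 0) (Ioi 0) :=
  fun t ht => (kap_deriv N (by simpa using hD)
    (by simpa using ht)).continuousAt.continuousWithinAt

theorem drefl0_pow (p : ℝ) : ContinuousOn (fun t : ℝ => t ^ p) (Ioi 0) :=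
  continuousOn_id.rpow_const fun t ht => Or.inl (ne_of_gt ht)

theorem drefl0_rad (hΩ : OB Ω) {D l m M : ℝ} (hD : 0 < D) (hm : 0 < m) (w : V)
    (hb : ∀ x ∈ Ω, l * ‖x - w‖ ^ 2 ∈ Icc m M) :
    (∀ x ∈ Ω, HasGradientAt (fun x => kap (finrank ℝ V) D 0 (l * ‖x - w‖ ^ 2))
      ((-(l * (l * ‖x - w‖ ^ 2) ^ (-(finrank ℝ V : ℝ) / 2))) • (x - w)) x) ∧
    WEq Ω (fun x => (-(l * (l * ‖x - w‖ ^ 2) ^ (-(finrank ℝ V : ℝ) / 2))) • (x - w))
      (fun _ => 0) := by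
  obtain ⟨C1, p1, h1⟩ := drefl0_bd (drefl0_kap (finrank ℝ V) hD) hm M
  obtain ⟨C2, p2, h2⟩ := drefl0_bd (drefl0_pow (-(finrank ℝ V : ℝ) / 2)) hm M
  obtain ⟨C3, p3, h3⟩ := drefl0_bd (drefl0_pow (-(finrank ℝ V : ℝ) / 2 - 1)) hm M
  have hpos : ∀ x ∈ Ω, 0 < l * ‖x - w‖ ^ 2 := fun x hx => hm.trans_le (hb x hx).1
  have hc : Continuous fun x : V => l * ‖x - w‖ ^ 2 := by fun_prop
  have hcp : ∀ p : ℝ, ContinuousOn (fun x : V => (l * ‖x - w‖ ^ 2) ^ p) Ω := fun p =>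
    hc.continuousOn.rpow_const fun x hx => Or.inl (hpos x hx).ne'
  have hl : ∀ s : ℝ, HasDerivAt (fun s : ℝ => l * s) l s := fun s => by
    simpa using (hasDerivAt_id s).const_mul l
  constructor
  · have hr := reg_radial hΩ w (A := fun s => kap (finrank ℝ V) D 0 (l * s))
      (a := fun s => -(1 / 2) * (l * s) ^ (-(finrank ℝ V : ℝ) / 2) * l)
      (fun x hx => by
        have h0 := kap_deriv (finrank ℝ V) (D := D) (ε := 0) (s := l * ‖x - w‖ ^ 2)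
          (by simpa using hD) (by simpa using hpos x hx)
        rw [add_zero] at h0
        exact h0.comp _ (hl _))
      ((continuousOn_const.mul (hcp _)).mul continuousOn_const) (C := C1 + C2 * |l|)
      (fun x hx => by
        have a1 := h1 _ (hb x hx)
        have a2 := mul_le_mul_of_nonneg_right (h2 _ (hb x hx)) (abs_nonneg l)
        have a3 := mul_nonneg p2 (abs_nonneg l)
        refine ⟨by linarith, ?_⟩
        rw [mul_assoc, abs_mul, abs_mul, abs_neg, abs_of_pos (by norm_num : (0 : ℝ) < 1 / 2)]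
        linarith)
    intro x hx
    have h0 := hr.grad x hx
    have e : 2 * (-(1 / 2) * (l * ‖x - w‖ ^ 2) ^ (-(finrank ℝ V : ℝ) / 2) * l) =
        -(l * (l * ‖x - w‖ ^ 2) ^ (-(finrank ℝ V : ℝ) / 2)) := by ring
    rw [← e]
    exact h0
  · have hw := weq_radial hΩ w (a := fun s => -(l * (l * s) ^ (-(finrank ℝ V : ℝ) / 2)))
      (a' := fun s => -(l * (l * (-(finrank ℝ V : ℝ) / 2) * (l * s) ^ (-(finrank ℝ V : ℝ) / 2 - 1))))
      (fun x hx => (((hl _).rpow_const (Or.inl (hpos x hx).ne')).const_mul l).neg)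
      (continuousOn_const.mul (continuousOn_const.mul (hcp _))).neg
      (C := |l| * C2 + |l| * (|l * (-(finrank ℝ V : ℝ) / 2)| * C3))
      (fun x hx => by
        have a2 := mul_le_mul_of_nonneg_left (h2 _ (hb x hx)) (abs_nonneg l)
        have a3 := mul_le_mul_of_nonneg_left (mul_le_mul_of_nonneg_left (h3 _ (hb x hx))
          (abs_nonneg (l * (-(finrank ℝ V : ℝ) / 2)))) (abs_nonneg l)
        have a4 : 0 ≤ |l| * C2 := by positivity
        have a5 : 0 ≤ |l| * (|l * (-(finrank ℝ V : ℝ) / 2)| * C3) := by positivity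
        constructor
        · rw [abs_neg, abs_mul]
          linarith
        · rw [abs_neg, abs_mul, abs_mul]
          linarith)
    refine hw.congr (Eventually.of_forall fun _ => rfl) (hΩ.mem.mono fun x hx => ?_)
    have e := Real.rpow_sub_one (hpos x hx).ne' (-(finrank ℝ V : ℝ) / 2)
    have h0 := (hpos x hx).ne'
    have e' : (l * ‖x - w‖ ^ 2) ^ (-(finrank ℝ V : ℝ) / 2) =
        l * ‖x - w‖ ^ 2 * (l * ‖x - w‖ ^ 2) ^ (-(finrank ℝ V : ℝ) / 2 - 1) := by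
      rw [e, mul_div_cancel₀ _ h0]
    beta_reduce
    rw [e']
    ring

theorem drefl0_fix (hΩ : OB Ω) {D r m M : ℝ} (hD : 0 < D) (hr : 0 < r) (hm : 0 < m) {y z : V}
    (hz : z ≠ y) (hb : ∀ x ∈ Ω, rb y r z x ∈ Icc m M) :
    (∀ x ∈ Ω, HasGradientAt (fun x => kap (finrank ℝ V) D 0 (rb y r z x))
      ((-(rb y r z x) ^ (-(finrank ℝ V : ℝ) / 2)) •
        ((x - z) + ((‖z - y‖ ^ 2 - r ^ 2) / r ^ 2) • (x - y))) x) ∧
    WEq Ω (fun x => (-(rb y r z x) ^ (-(finrank ℝ V : ℝ) / 2)) •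
        ((x - z) + ((‖z - y‖ ^ 2 - r ^ 2) / r ^ 2) • (x - y))) (fun _ => 0) := by
  have hn : ‖z - y‖ ≠ 0 := norm_ne_zero_iff.2 (sub_ne_zero.2 hz)
  have e := rb_eq hr.ne' hz
  have e2 : ∀ x : V, (x - z) + ((‖z - y‖ ^ 2 - r ^ 2) / r ^ 2) • (x - y) =
      (‖z - y‖ ^ 2 / r ^ 2) • (x - (y + (r ^ 2 / ‖z - y‖ ^ 2) • (z - y))) := fun x => by
    have a1 : (‖z - y‖ ^ 2 - r ^ 2) / r ^ 2 = ‖z - y‖ ^ 2 / r ^ 2 - 1 := by field_simp
    have a2 : ‖z - y‖ ^ 2 / r ^ 2 * (r ^ 2 / ‖z - y‖ ^ 2) = 1 := by field_simp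
    rw [a1, ← sub_sub, smul_sub _ (x - y), smul_smul, a2]
    module
  have h := drefl0_rad hΩ hD hm (y + (r ^ 2 / ‖z - y‖ ^ 2) • (z - y))
    (fun x hx => e x ▸ hb x hx)
  simp only [e, e2, smul_smul, mul_comm _ (‖z - y‖ ^ 2 / r ^ 2), mul_neg]
  exact h

theorem refl_harm (hΩ : OB Ω) {D r r' : ℝ} (hD : 0 < D) (hr' : 0 < r') (hr : r' < r) {y : V}
    (hy : ∀ z ∈ Ω, r ≤ ‖z - y‖) {g : V → ℝ} (hg : Integrable g (mm Ω)) :
    (∃ F, Reg Ω (fun x => ∫ z, kap (finrank ℝ V) D 0 (rb y r' z x) * g z ∂mm Ω) F ∧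
      WEq Ω F (fun _ => 0)) ∧
    ∀ x ∈ Ω, Integrable (fun z => kap (finrank ℝ V) D 0 (rb y r' z x) * g z) (mm Ω) := by
  obtain ⟨R, hR, hR'⟩ := hΩ.radius y
  have hd : 0 < r ^ 2 - r' ^ 2 := by nlinarith
  have hm : 0 < (r ^ 2 - r' ^ 2) * (r ^ 2 - r' ^ 2) / r' ^ 2 := by positivity
  have hlo : ∀ x ∈ Ω, r ^ 2 - r' ^ 2 ≤ ‖x - y‖ ^ 2 - r' ^ 2 := fun x hx => by
    have := hy x hx
    nlinarith
  have hup : ∀ x ∈ Ω, ‖x - y‖ ^ 2 - r' ^ 2 ≤ R ^ 2 := fun x hx => by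
    have := hR' x hx
    have := norm_nonneg (x - y)
    nlinarith
  have hxz : ∀ z ∈ Ω, ∀ x ∈ Ω, ‖x - z‖ ≤ 2 * R := fun z hz x hx => by
    have := norm_sub_le (x - y) (z - y)
    rw [sub_sub_sub_cancel_right] at this
    linarith [hR' x hx, hR' z hz]
  have hb : ∀ z ∈ Ω, ∀ x ∈ Ω, rb y r' z x ∈
      Icc ((r ^ 2 - r' ^ 2) * (r ^ 2 - r' ^ 2) / r' ^ 2) ((2 * R) ^ 2 + R ^ 2 * R ^ 2 / r' ^ 2) := by
    intro z hz x hx
    have a1 := hlo x hx
    have a2 := hlo z hz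
    have a3 := hup x hx
    have a4 := hup z hz
    have a5 := hxz z hz x hx
    have a6 : 0 ≤ ‖x - y‖ ^ 2 - r' ^ 2 := by linarith
    have a7 : 0 ≤ ‖z - y‖ ^ 2 - r' ^ 2 := by linarith
    unfold rb
    constructor
    · refine le_add_of_nonneg_of_le (by positivity) ?_
      gcongr
    · gcongr
  have hne : ∀ z ∈ Ω, z ≠ y := fun z hz e => by
    have := hy z hz
    rw [e, sub_self, norm_zero] at this
    linarith
  obtain ⟨C1, p1, h1⟩ := drefl0_bd (drefl0_kap (finrank ℝ V) hD) hm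
    ((2 * R) ^ 2 + R ^ 2 * R ^ 2 / r' ^ 2)
  obtain ⟨C2, p2, h2⟩ := drefl0_bd (drefl0_pow (-(finrank ℝ V : ℝ) / 2)) hm
    ((2 * R) ^ 2 + R ^ 2 * R ^ 2 / r' ^ 2)
  have hc : Continuous fun p : V × V => rb y r' p.1 p.2 := by
    unfold rb
    fun_prop
  have hpos : ∀ p ∈ Ω ×ˢ Ω, 0 < rb y r' p.1 p.2 := fun p hp => hm.trans_le (hb _ hp.1 _ hp.2).1
  have hΦ : ContinuousOn (fun p : V × V => kap (finrank ℝ V) D 0 (rb y r' p.1 p.2)) (Ω ×ˢ Ω) :=
    (drefl0_kap (finrank ℝ V) hD).comp hc.continuousOn hpos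
  have hv : Continuous fun p : V × V =>
      (p.2 - p.1) + ((‖p.1 - y‖ ^ 2 - r' ^ 2) / r' ^ 2) • (p.2 - y) := by fun_prop
  constructor
  · have h := param hΩ (Φ := fun z x => kap (finrank ℝ V) D 0 (rb y r' z x)) (ρ := fun _ _ => 0)
      (Γ := fun z x => (-(rb y r' z x) ^ (-(finrank ℝ V : ℝ) / 2)) •
        ((x - z) + ((‖z - y‖ ^ 2 - r' ^ 2) / r' ^ 2) • (x - y))) hΦ
      ((hc.continuousOn.rpow_const fun p hp => Or.inl (hpos p hp).ne').neg.smul hv.continuousOn)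
      continuousOn_const (C := C1 + C2 * (2 * R + R ^ 2 / r' ^ 2 * R))
      (fun z hz x hx => by
        have a0 : 0 ≤ C2 * (2 * R + R ^ 2 / r' ^ 2 * R) := by positivity
        have a1 := h1 _ (hb z hz x hx)
        have a2 := h2 _ (hb z hz x hx)
        have a3 : ‖(x - z) + ((‖z - y‖ ^ 2 - r' ^ 2) / r' ^ 2) • (x - y)‖ ≤
            2 * R + R ^ 2 / r' ^ 2 * R := by
          refine (norm_add_le _ _).trans (add_le_add (hxz z hz x hx) ?_)
          have a7 : 0 ≤ ‖z - y‖ ^ 2 - r' ^ 2 := hd.le.trans (hlo z hz)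
          have a4 := hup z hz
          have a5 := hR' x hx
          rw [norm_smul, Real.norm_of_nonneg (by positivity)]
          gcongr
        refine ⟨by linarith, ?_, by rw [abs_zero]; linarith⟩
        rw [norm_smul, norm_neg, Real.norm_eq_abs]
        exact le_add_of_nonneg_of_le p1 (mul_le_mul a2 a3 (norm_nonneg _) p2))
      (fun z hz => (drefl0_fix hΩ hD hr' hm (hne z hz) (hb z hz)).1)
      (fun z hz => (drefl0_fix hΩ hD hr' hm (hne z hz) (hb z hz)).2) hg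
    refine ⟨_, h.1, h.2.congr (Eventually.of_forall fun _ => rfl)
      (Eventually.of_forall fun x => ?_)⟩
    simp
  · intro x hx
    have hc1 : ContinuousOn (fun z => kap (finrank ℝ V) D 0 (rb y r' z x)) Ω :=
      hΦ.comp (f := fun z => (z, x)) (by fun_prop) fun z hz => ⟨hz, hx⟩
    exact hg.bdd_mul (hc1.aestronglyMeasurable hΩ.op.measurableSet)
      (hΩ.mem.mono fun z hz => h1 _ (hb z hz x hx))

end Pool.Agent.P.MP_0cf84d_an
end

-- part Pool.Agent.P.MP_0cf84d_an.DRefl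
section

/-! A barrier at an exterior ball. -/

set_option linter.unusedSectionVars false
set_option linter.unusedVariables false

namespace Pool.Agent.P.MP_0cf84d_an

open MeasureTheory Filter Topology Metric Set Module
open scoped RealInnerProductSpace ENNReal NNReal

variable {V : Type*} [NormedAddCommGroup V] [InnerProductSpace ℝ V] [FiniteDimensional ℝ V]
  [MeasurableSpace V] [BorelSpace V] [CompleteSpace V] {Ω : Set V}

theorem drefl_pt {N : ℕ} (hN : 1 ≤ N) {D r r' R : ℝ} (hD : 0 < D) (hr : 0 < r) (h1 : r / 2 ≤ r')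
    {x y z : V} (hx : r' ≤ ‖x - y‖) (hx' : ‖x - y‖ ≤ R) (hz : r' ≤ ‖z - y‖) (hz' : ‖z - y‖ ≤ R)
    (hne : z ≠ x) : 0 ≤ kap N D 0 (‖x - z‖ ^ 2) - kap N D 0 (rb y r' z x) ∧
      kap N D 0 (‖x - z‖ ^ 2) - kap N D 0 (rb y r' z x) ≤
        4 * |R| / r ^ 2 * (‖x - y‖ ^ 2 - r' ^ 2) * ‖x - z‖ ^ (-((N : ℝ) - 1)) := by
  have hr' : 0 < r' := by linarith
  have h2 : 0 < ‖x - z‖ := norm_pos_iff.2 (sub_ne_zero.2 hne.symm)
  obtain ⟨h3, h4⟩ := rb_le hr' hx hx' hz hz'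
  obtain ⟨h5, h6⟩ := kap_sub hN hD le_rfl (pow_pos h2 2) h3
  refine ⟨h5, h6.trans ?_⟩
  have h7 : (‖x - z‖ ^ 2) ^ (-((N : ℝ) - 1) / 2) = ‖x - z‖ ^ (-((N : ℝ) - 1)) := by
    rw [← Real.rpow_natCast, ← Real.rpow_mul h2.le]
    refine congrArg _ ?_
    push_cast
    ring
  rw [h7, mul_comm]
  refine mul_le_mul_of_nonneg_right (h4.trans (mul_le_mul_of_nonneg_right ?_
    (sub_nonneg.2 (pow_le_pow_left₀ hr'.le hx 2)))) (Real.rpow_nonneg h2.le _)
  rw [div_le_div_iff₀ (pow_pos hr' 2) (pow_pos hr 2)]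
  have h8 : r ^ 2 ≤ 4 * r' ^ 2 := by nlinarith
  calc R * r ^ 2 ≤ |R| * r ^ 2 := mul_le_mul_of_nonneg_right (le_abs_self R) (sq_nonneg r)
    _ ≤ |R| * (4 * r' ^ 2) := mul_le_mul_of_nonneg_left h8 (abs_nonneg R)
    _ = _ := by ring

theorem barrier (hΩ : OB Ω) {q r R : ℝ} (hq : (finrank ℝ V : ℝ) < q) (hr : 0 < r) {g : V → ℝ}
    (hg : MemLp g (ENNReal.ofReal q) (mm Ω)) (h0 : ∀ᵐ x ∂mm Ω, 0 ≤ g x) :
    ∃ C, 0 ≤ C ∧ ∀ (y : V) (r' : ℝ), r / 2 ≤ r' → r' < r →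
      (∀ z ∈ Ω, r ≤ ‖z - y‖ ∧ ‖z - y‖ ≤ R) → ∃ W F, Reg Ω W F ∧ WEq Ω F g ∧
        ∀ x ∈ Ω, 0 ≤ W x ∧ W x ≤ C * (‖x - y‖ ^ 2 - r' ^ 2) := by
  have := hΩ.fin
  have hN : (2 : ℝ) ≤ finrank ℝ V := by exact_mod_cast hΩ.dim
  have hN1 : 1 ≤ finrank ℝ V := le_trans one_le_two hΩ.dim
  have : Nontrivial V := Module.nontrivial_of_finrank_pos (R := ℝ) hN1
  have hq0 : 0 < q := by linarith
  obtain ⟨R0, hR0, hR⟩ := hΩ.radius 0
  have hD0 : 0 < (2 * R0) ^ 2 := by positivity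
  obtain ⟨cN, C0, hc, -, hpot⟩ := pot hΩ hq hD0 fun x hx z hz => by
    refine pow_le_pow_left₀ (norm_nonneg _) ?_ 2
    have h1 := hR x hx
    have h2 := hR z hz
    rw [sub_zero] at h1 h2
    linarith [norm_sub_le x z]
  obtain ⟨F1, hreg1, hweq1, hx1⟩ := hpot g hg
  obtain ⟨Ck, hCk, hker⟩ := ker_bound hΩ (q := q) (γ := (finrank ℝ V : ℝ) - 1) (by linarith)
    (by linarith) (by
      have h1 : (finrank ℝ V : ℝ) * (1 / q) < 1 := by
        rw [mul_one_div, div_lt_one hq0]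
        exact hq
      linarith)
  have hgi : Integrable g (mm Ω) := (hΩ.two_of_q hq hg).integrable one_le_two
  have hnq : 0 ≤ nq Ω q g := ENNReal.toReal_nonneg
  have hA : 0 ≤ 4 * |R| / r ^ 2 := by positivity
  refine ⟨cN⁻¹ * (4 * |R| / r ^ 2 * (Ck * nq Ω q g)),
    mul_nonneg (inv_nonneg.2 hc.le) (mul_nonneg hA (mul_nonneg hCk hnq)),
    fun y r' h1 h2 hy => ?_⟩
  have hr' : 0 < r' := by linarith
  obtain ⟨⟨F2, hreg2, hweq2⟩, hint2⟩ := refl_harm hΩ hD0 hr' h2 (fun z hz => (hy z hz).1) hgi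
  refine ⟨_, _, (hreg1.add (hreg2.smul (-1))).smul cN⁻¹,
    ((hweq1.add (hweq2.smul (-1))).smul cN⁻¹).congr (ae_eq_refl _)
      (Eventually.of_forall fun x => ?_), fun x hx => ?_⟩
  · have h3 := hc.ne'
    field_simp
    ring
  have hpt : ∀ᵐ z ∂mm Ω, 0 ≤ kap (finrank ℝ V) ((2 * R0) ^ 2) 0 (‖x - z‖ ^ 2) * g z -
      kap (finrank ℝ V) ((2 * R0) ^ 2) 0 (rb y r' z x) * g z ∧
      kap (finrank ℝ V) ((2 * R0) ^ 2) 0 (‖x - z‖ ^ 2) * g z -
        kap (finrank ℝ V) ((2 * R0) ^ 2) 0 (rb y r' z x) * g z ≤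
      4 * |R| / r ^ 2 * (‖x - y‖ ^ 2 - r' ^ 2) *
        (‖x - z‖ ^ (-((finrank ℝ V : ℝ) - 1)) * |g z|) := by
    filter_upwards [hΩ.mem, h0, ae_restrict_of_ae (Measure.ae_ne volume x)] with z hz hg0 hne
    obtain ⟨h3, h4⟩ := drefl_pt hN1 hD0 hr h1 (h2.le.trans (hy x hx).1) (hy x hx).2
      (h2.le.trans (hy z hz).1) (hy z hz).2 hne
    rw [← sub_mul, abs_of_nonneg hg0, ← mul_assoc]
    exact ⟨mul_nonneg h3 hg0, mul_le_mul_of_nonneg_right h4 hg0⟩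
  have hsub := integral_sub (hx1 x hx).1 (hint2 x hx)
  have hlo := integral_nonneg_of_ae (hpt.mono fun z hz => hz.1)
  have hup := integral_mono_ae ((hx1 x hx).1.sub (hint2 x hx)) ((hker g hg x hx).1.const_mul _)
    (hpt.mono fun z hz => hz.2)
  have hd : 0 ≤ ‖x - y‖ ^ 2 - r' ^ 2 :=
    sub_nonneg.2 (pow_le_pow_left₀ hr'.le (h2.le.trans (hy x hx).1) 2)
  have hup2 := mul_le_mul_of_nonneg_left (hker g hg x hx).2 (mul_nonneg hA hd)
  simp only [Pi.sub_apply] at hup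
  rw [integral_const_mul, hsub] at hup
  rw [hsub] at hlo
  rw [neg_one_mul, ← sub_eq_add_neg, mul_assoc]
  refine ⟨mul_nonneg (inv_nonneg.2 hc.le) hlo,
    mul_le_mul_of_nonneg_left ((hup.trans hup2).trans (le_of_eq ?_)) (inv_nonneg.2 hc.le)⟩
  ring

end Pool.Agent.P.MP_0cf84d_an
end

-- part Pool.Agent.P.MP_0cf84d_an.DUp
section

/-! Subsolutions grow at most linearly from the boundary. -/

set_option linter.unusedSectionVars false
set_option linter.unusedVariables false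

namespace Pool.Agent.P.MP_0cf84d_an

open MeasureTheory Filter Topology Metric Set Module
open scoped RealInnerProductSpace ENNReal NNReal

variable {V : Type*} [NormedAddCommGroup V] [InnerProductSpace ℝ V] [FiniteDimensional ℝ V]
  [MeasurableSpace V] [BorelSpace V] [CompleteSpace V] {Ω : Set V}

theorem dup_dd_le (hΩ : OB Ω) : ∃ D, 0 < D ∧ (∀ x ∈ Ω, dd Ω x ≤ D) ∧
    ∀ x ∈ Ω, ∀ z ∈ Ω, ‖z - x‖ ≤ D := by
  obtain ⟨R, hR, h⟩ := hΩ.radius 0
  have hnt : Nontrivial V := Module.nontrivial_of_finrank_pos (R := ℝ) (by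
    have := hΩ.dim; omega)
  obtain ⟨e, he⟩ := exists_norm_eq V (c := R + 1) (by linarith)
  have heΩ : e ∈ Ωᶜ := fun h1 => by
    have := h e h1
    rw [sub_zero, he] at this
    linarith
  refine ⟨2 * R + 1, by linarith, fun x hx => ?_, fun x hx z hz => ?_⟩
  · refine (infDist_le_dist_of_mem heΩ).trans ?_
    rw [dist_eq_norm]
    have h1 := h x hx
    rw [sub_zero] at h1
    have := norm_sub_le x e
    linarith
  · have h1 := h x hx
    have h2 := h z hz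
    rw [sub_zero] at h1 h2
    have := norm_sub_le z x
    linarith

theorem dup_one (hΩ : OB Ω) {g u W : V → ℝ} {G F : V → V} (hu : InH10 Ω u G)
    (hG : WGe Ω (fun x => -G x) (fun x => -g x)) (hW : Reg Ω W F) (he : WEq Ω F g)
    (h0 : ∀ x ∈ Ω, 0 ≤ W x) : ∀ᵐ x ∂mm Ω, u x ≤ W x := by
  have h1 : WGe Ω (fun x => F x - G x) (fun _ => (0 : ℝ)) :=
    (he.ge.add hG).congr (ae_of_all _ fun x => (sub_eq_add_neg _ _).symm)
      (ae_of_all _ fun x => by simp)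
  refine cmp hΩ hu hW isCompact_empty (empty_subset _) (fun x hx _ => h0 x hx) h1
    MemLp.zero' (κ := 0) (Λ := 0) (by norm_num) (ae_of_all _ fun x _ => by simp)

theorem dom_dd (hΩ : OB Ω) {q r : ℝ} (hq : (finrank ℝ V : ℝ) < q) (hr : 0 < r) (hE : ExtB Ω r) :
    Dom Ω q (dd Ω) := by
  intro g hg h0
  obtain ⟨D, hD, hD1, hD2⟩ := dup_dd_le hΩ
  obtain ⟨C, hC, hb⟩ := barrier hΩ (R := r + 2 * D) hq hr hg h0
  refine ⟨C * (2 * r + D), by positivity, fun u G hu hG => ?_⟩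
  have key : ∀ y : V, (∀ z ∈ Ω, r ≤ ‖z - y‖ ∧ ‖z - y‖ ≤ r + 2 * D) →
      ∀ᵐ x ∂mm Ω, u x ≤ C * (‖x - y‖ ^ 2 - r ^ 2) := by
    intro y hy
    have h1 : ∀ n : ℕ, ∀ᵐ x ∂mm Ω,
        u x ≤ C * (‖x - y‖ ^ 2 - (r - r / 2 * (1 / ((n : ℝ) + 1))) ^ 2) := by
      intro n
      have hn : (0 : ℝ) < 1 / ((n : ℝ) + 1) := by positivity
      have hn1 : 1 / ((n : ℝ) + 1) ≤ 1 := by
        rw [div_le_one (by positivity)]
        have : (0 : ℝ) ≤ n := Nat.cast_nonneg n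
        linarith
      obtain ⟨W, F, hW, he, hle⟩ := hb y (r - r / 2 * (1 / ((n : ℝ) + 1))) (by nlinarith)
        (by nlinarith) hy
      filter_upwards [dup_one hΩ hu hG hW he (fun x hx => (hle x hx).1), hΩ.mem] with x h2 hx
      exact h2.trans (hle x hx).2
    filter_upwards [ae_all_iff.2 h1] with x hx
    have ht : Tendsto (fun n : ℕ => C * (‖x - y‖ ^ 2 - (r - r / 2 * (1 / ((n : ℝ) + 1))) ^ 2))
        atTop (𝓝 (C * (‖x - y‖ ^ 2 - (r - r / 2 * 0) ^ 2))) :=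
      (((tendsto_const_nhds.sub (tendsto_one_div_add_atTop_nhds_zero_nat.const_mul
        (r / 2))).pow 2).const_sub _).const_mul C
    rw [mul_zero, sub_zero] at ht
    exact ge_of_tendsto' ht hx
  obtain ⟨T, hT1, hT2, hT3⟩ := (TopologicalSpace.IsSeparable.of_separableSpace
    {y : V | ∀ z ∈ Ω, r ≤ ‖z - y‖ ∧ ‖z - y‖ ≤ r + 2 * D}).exists_countable_dense_subset
  have h2 : ∀ᵐ x ∂mm Ω, ∀ y ∈ T, u x ≤ C * (‖x - y‖ ^ 2 - r ^ 2) :=
    (ae_ball_iff hT2).2 fun y hy => key y (hT1 hy)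
  filter_upwards [h2, hΩ.mem] with x hx hxΩ
  obtain ⟨y, hy1, hy2⟩ := hE x hxΩ
  have hd := hD1 x hxΩ
  have hd0 : 0 ≤ dd Ω x := infDist_nonneg
  have hyY : y ∈ {y : V | ∀ z ∈ Ω, r ≤ ‖z - y‖ ∧ ‖z - y‖ ≤ r + 2 * D} := by
    intro z hz
    refine ⟨hy1 z hz, ?_⟩
    have h3 := norm_sub_le_norm_sub_add_norm_sub z x y
    have h4 := hD2 x hxΩ z hz
    linarith
  have hcl : IsClosed {y : V | u x ≤ C * (‖x - y‖ ^ 2 - r ^ 2)} :=
    isClosed_le continuous_const (by fun_prop)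
  have h5 : u x ≤ C * (‖x - y‖ ^ 2 - r ^ 2) := closure_minimal (fun y hy => hx y hy) hcl (hT3 hyY)
  refine h5.trans ?_
  rw [mul_assoc]
  refine mul_le_mul_of_nonneg_left ?_ hC
  have h6 : ‖x - y‖ ^ 2 ≤ (r + dd Ω x) ^ 2 := pow_le_pow_left₀ (norm_nonneg _) hy2 2
  nlinarith

end Pool.Agent.P.MP_0cf84d_an
end

-- part Pool.Agent.P.MP_0cf84d_an.DHopf
section

/-! The boundary point lemma. -/

set_option linter.unusedSectionVars false
set_option linter.unusedVariables false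

namespace Pool.Agent.P.MP_0cf84d_an

open MeasureTheory Filter Topology Metric Set Module
open scoped RealInnerProductSpace ENNReal NNReal

variable {V : Type*} [NormedAddCommGroup V] [InnerProductSpace ℝ V] [FiniteDimensional ℝ V]
  [MeasurableSpace V] [BorelSpace V] [CompleteSpace V] {Ω : Set V}

theorem eig_super (hΩ : OB Ω) {c φ : V → ℝ} (hc : MemLp c 2 (mm Ω)) (h0 : ∀ᵐ x ∂mm Ω, 0 ≤ c x)
    (hφ : IsPosEigenfun Ω c φ) : ∃ G, InH10 Ω φ G ∧ WGe Ω G (fun _ => 0) := by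
  obtain ⟨_, hpos, γ, G, hG, heq⟩ := hφ
  refine ⟨G, hG, hG.2.1, integrable_zero _ _ _, fun v H hv hv0 => ?_⟩
  simp only [zero_mul, integral_zero]
  rcases le_or_gt 0 γ with hγ | hγ
  · rw [heq v H hv.1]
    refine mul_nonneg hγ (integral_nonneg_of_ae ?_)
    filter_upwards [h0, hv0, hΩ.mem] with x h1 h2 h3
    exact mul_nonneg (mul_nonneg h1 (hpos x h3).le) h2
  · have h1 : 0 ≤ ∫ x, c x * φ x * φ x ∂mm Ω := by
      refine integral_nonneg_of_ae ?_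
      filter_upwards [h0, hΩ.mem] with x h1 h3
      exact mul_nonneg (mul_nonneg h1 (hpos x h3).le) (hpos x h3).le
    have h2 : ∫ x, ⟪G x, G x⟫ ∂mm Ω ≤ 0 := by
      rw [heq φ G hG]
      exact mul_nonpos_of_nonpos_of_nonneg hγ.le h1
    have h3 : (0 : V → ℝ) ≤ fun x => ⟪G x, G x⟫ := fun x => real_inner_self_nonneg
    have h4 : (fun x => ⟪G x, G x⟫) =ᵐ[mm Ω] 0 :=
      (integral_eq_zero_iff_of_nonneg h3 (int_inner hG.2.1 hG.2.1)).1
        (le_antisymm h2 (integral_nonneg h3))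
    refine integral_nonneg_of_ae ?_
    filter_upwards [h4] with x hx
    have h5 : G x = 0 := inner_self_eq_zero.1 hx
    simp [h5]

theorem dhopf_bdd (hΩ : OB Ω) {g : V → ℝ} (hg : Continuous g) : ∃ C, ∀ x ∈ Ω, |g x| ≤ C := by
  obtain ⟨R, _, hR⟩ := hΩ.radius 0
  obtain ⟨C, hC⟩ := (isCompact_closedBall (0 : V) R).exists_bound_of_continuousOn hg.continuousOn
  exact ⟨C, fun x hx => hC x (mem_closedBall_iff_norm.2 (hR x hx))⟩

theorem dhopf_compl (hΩ : OB Ω) : (Ωᶜ).Nonempty := by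
  have hd := hΩ.dim
  have : Nontrivial V := Module.nontrivial_of_finrank_pos (R := ℝ) (by omega)
  rw [Set.nonempty_compl]
  rintro rfl
  exact NormedSpace.unbounded_univ ℝ V hΩ.bd

theorem dhopf_exp (k α s : ℝ) :
    HasDerivAt (fun s => k * Real.exp (-(α * s))) (-(k * α) * Real.exp (-(α * s))) s := by
  have h1 : HasDerivAt (fun s => -(α * s)) (-α) s :=
    ((hasDerivAt_id' s).const_mul α).fun_neg.congr_deriv (by ring)
  exact (h1.exp.const_mul k).congr_deriv (by ring)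

theorem dhopf_barrier (hΩ : OB Ω) {r r' m α : ℝ} (hr : 0 < r) (hr0 : 0 ≤ r') (hr' : r' < r)
    (hm : 0 < m) (hα : 0 < α) (hαN : α * r ^ 2 = 2 * finrank ℝ V) {φ : V → ℝ} {G : V → V}
    (hc : ContinuousOn φ Ω) (hφ : InH10 Ω φ G) (h : WGe Ω G (fun _ => 0))
    (hS : ∀ x, r / 2 ≤ dd Ω x → m ≤ φ x) {y : V} (hy : ball y r ⊆ Ω) :
    ∀ x ∈ Ω, m * Real.exp (-(α * ‖x - y‖ ^ 2)) - m * Real.exp (-(α * r' ^ 2)) ≤ φ x := by
  have hce : ∀ k : ℝ, Continuous fun x : V => k * Real.exp (-(α * ‖x - y‖ ^ 2)) := fun k => by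
    fun_prop
  obtain ⟨C1, hC1⟩ := dhopf_bdd hΩ (g := fun x =>
    -m * Real.exp (-(α * ‖x - y‖ ^ 2)) + m * Real.exp (-(α * r' ^ 2))) (by fun_prop)
  obtain ⟨C2, hC2⟩ := dhopf_bdd hΩ (hce (-(-m * α)))
  obtain ⟨C3, hC3⟩ := dhopf_bdd hΩ (hce (2 * m * α))
  obtain ⟨C4, hC4⟩ := dhopf_bdd hΩ (hce (-(2 * m * α * α)))
  have hW := reg_radial hΩ y
    (A := fun s => -m * Real.exp (-(α * s)) + m * Real.exp (-(α * r' ^ 2)))
    (a := fun s => -(-m * α) * Real.exp (-(α * s)))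
    (fun x _ => (dhopf_exp (-m) α _).add_const _) (hce _).continuousOn (C := max C1 C2)
    (fun x hx => ⟨(hC1 x hx).trans (le_max_left _ _), (hC2 x hx).trans (le_max_right _ _)⟩)
  have hE := weq_radial hΩ y (a := fun s => 2 * m * α * Real.exp (-(α * s)))
    (a' := fun s => -(2 * m * α * α) * Real.exp (-(α * s)))
    (fun x _ => dhopf_exp (2 * m * α) α _) (hce _).continuousOn (C := max C3 C4)
    (fun x hx => ⟨(hC3 x hx).trans (le_max_left _ _), (hC4 x hx).trans (le_max_right _ _)⟩)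
  have hfc : Continuous fun x : V => 2 * m * α * Real.exp (-(α * ‖x - y‖ ^ 2)) *
      (2 * α * ‖x - y‖ ^ 2 - finrank ℝ V) := by fun_prop
  obtain ⟨C5, hC5⟩ := dhopf_bdd hΩ hfc
  have hf : MemLp (fun x : V => 2 * m * α * Real.exp (-(α * ‖x - y‖ ^ 2)) *
      (2 * α * ‖x - y‖ ^ 2 - finrank ℝ V)) 2 (mm Ω) :=
    hΩ.memLp_of_bdd hfc.continuousOn hC5 2
  have hG : WGe Ω (fun x => (2 * (-(-m * α) * Real.exp (-(α * ‖x - y‖ ^ 2)))) • (x - y) - -G x)
      (fun x : V => 2 * m * α * Real.exp (-(α * ‖x - y‖ ^ 2)) *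
        (2 * α * ‖x - y‖ ^ 2 - finrank ℝ V)) := by
    refine (hE.ge.add h).congr (Eventually.of_forall fun x => ?_)
      (Eventually.of_forall fun x => ?_)
    · simp only [sub_neg_eq_add]
      congr 2
      ring
    · simp only
      ring
  have hae := cmp hΩ (hφ.neg hΩ) hW (isCompact_closedBall y r')
    ((closedBall_subset_ball hr').trans hy) (by
      intro x _ hx
      have h1 : r' ≤ ‖x - y‖ := le_of_lt (not_le.1 fun hh => hx (mem_closedBall_iff_norm.2 hh))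
      have h2 : r' ^ 2 ≤ ‖x - y‖ ^ 2 := pow_le_pow_left₀ hr0 h1 2
      have h3 : Real.exp (-(α * ‖x - y‖ ^ 2)) ≤ Real.exp (-(α * r' ^ 2)) :=
        Real.exp_le_exp.2 (neg_le_neg (mul_le_mul_of_nonneg_left h2 hα.le))
      have h4 := mul_le_mul_of_nonneg_left h3 hm.le
      linarith) hG hf (κ := 0) (Λ := 0) (by norm_num) (by
      refine Eventually.of_forall fun x hx => ?_
      have h1 : Real.exp (-(α * ‖x - y‖ ^ 2)) ≤ 1 :=
        Real.exp_le_one_iff.2 (neg_nonpos.2 (by positivity))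
      have h2 := mul_le_mul_of_nonneg_left h1 hm.le
      have h3 : 0 < m * Real.exp (-(α * r' ^ 2)) := by positivity
      have h4 : φ x < m := by linarith
      have h5 : r / 2 ≤ ‖x - y‖ := by
        by_contra hlt
        refine absurd (hS x ?_) (not_le.2 h4)
        refine (le_infDist (dhopf_compl hΩ)).2 fun z hz => ?_
        have h6 : r ≤ dist z y := not_lt.1 fun hh => hz (hy hh)
        have h7 := dist_triangle z x y
        rw [dist_comm z x, dist_eq_norm x y] at h7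
        linarith [not_le.1 hlt]
      have h6 : (r / 2) ^ 2 ≤ ‖x - y‖ ^ 2 := pow_le_pow_left₀ (by positivity) h5 2
      have h7 := mul_le_mul_of_nonneg_left h6 hα.le
      have h8 : 0 ≤ 2 * α * ‖x - y‖ ^ 2 - finrank ℝ V := by nlinarith
      simp only [zero_mul, sub_zero]
      positivity)
  have hψ : Continuous fun x : V =>
      m * Real.exp (-(α * ‖x - y‖ ^ 2)) - m * Real.exp (-(α * r' ^ 2)) := by fun_prop
  have heq : EqOn (fun x => max
      (m * Real.exp (-(α * ‖x - y‖ ^ 2)) - m * Real.exp (-(α * r' ^ 2))) (φ x)) φ Ω := by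
    refine Measure.eqOn_open_of_ae_eq (μ := volume) ?_ hΩ.op (hψ.continuousOn.sup hc) hc
    filter_upwards [hae] with x hx
    exact max_eq_right (by linarith)
  intro x hx
  exact max_eq_right_iff.1 (heq hx)

theorem hopf (hΩ : OB Ω) {r : ℝ} (hr : 0 < r) (hI : IntB Ω r) {φ : V → ℝ} {G : V → V}
    (hc : ContinuousOn φ Ω) (hp : ∀ x ∈ Ω, 0 < φ x) (hφ : InH10 Ω φ G)
    (h : WGe Ω G (fun _ => 0)) : ∃ c₀, 0 < c₀ ∧ ∀ x ∈ Ω, c₀ * dd Ω x ≤ φ x := by
  have hsub : {x | r / 2 ≤ dd Ω x} ⊆ Ω := by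
    intro x hx
    by_contra hn
    have h1 : dd Ω x = 0 := infDist_zero_of_mem hn
    have h2 : r / 2 ≤ dd Ω x := hx
    linarith
  have hK : IsCompact {x | r / 2 ≤ dd Ω x} :=
    isCompact_of_isClosed_isBounded (isClosed_le continuous_const (continuous_infDist_pt _))
      (hΩ.bd.subset hsub)
  obtain ⟨m, hm, hS⟩ := hK.exists_forall_le' (hc.mono hsub) (fun x hx => hp x (hsub hx))
  obtain ⟨z, hz⟩ := dhopf_compl hΩ
  obtain ⟨R, hR, hRz⟩ := hΩ.radius z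
  have hN : (0 : ℝ) < finrank ℝ V := by
    have := hΩ.dim
    exact_mod_cast (by omega : 0 < finrank ℝ V)
  obtain ⟨α, hα, hαN⟩ : ∃ α : ℝ, 0 < α ∧ α * r ^ 2 = 2 * finrank ℝ V :=
    ⟨2 * finrank ℝ V / r ^ 2, by positivity, by field_simp⟩
  refine ⟨min (m * Real.exp (-(α * r ^ 2)) * (α * (r / 4))) (m / R),
    lt_min (by positivity) (by positivity), fun x hx => ?_⟩
  have hd0 : 0 ≤ dd Ω x := infDist_nonneg
  rcases lt_or_ge (dd Ω x) r with hd | hd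
  · rcases hd0.eq_or_lt with hd1 | hd1
    · rw [← hd1, mul_zero]
      exact (hp x hx).le
    obtain ⟨y, hy, hxy⟩ := hI x hx hd
    have hb := dhopf_barrier hΩ (r' := r - dd Ω x / 2) hr (by linarith) (by linarith) hm hα hαN
      hc hφ h hS hy x hx
    refine le_trans (mul_le_mul_of_nonneg_right (min_le_left _ _) hd0) (le_trans ?_ hb)
    generalize dd Ω x = d at *
    have h1 : ‖x - y‖ ^ 2 ≤ (r - d) ^ 2 := pow_le_pow_left₀ (norm_nonneg _) hxy 2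
    generalize ‖x - y‖ ^ 2 = s at *
    have h2 : r / 4 * d ≤ (r - d / 2) ^ 2 - s := by nlinarith
    have h3 : Real.exp (-(α * r ^ 2)) ≤ Real.exp (-(α * (r - d / 2) ^ 2)) :=
      Real.exp_le_exp.2 (neg_le_neg (mul_le_mul_of_nonneg_left (by nlinarith) hα.le))
    have h4 : Real.exp (-(α * s)) =
        Real.exp (-(α * (r - d / 2) ^ 2)) * Real.exp (α * ((r - d / 2) ^ 2 - s)) := by
      rw [← Real.exp_add]
      congr 1
      ring
    have h5 := Real.add_one_le_exp (α * ((r - d / 2) ^ 2 - s))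
    have h6 : α * (r / 4 * d) ≤ Real.exp (α * ((r - d / 2) ^ 2 - s)) - 1 := by
      have := mul_le_mul_of_nonneg_left h2 hα.le
      linarith
    have h7 : Real.exp (-(α * r ^ 2)) * (α * (r / 4 * d)) ≤
        Real.exp (-(α * (r - d / 2) ^ 2)) * (Real.exp (α * ((r - d / 2) ^ 2 - s)) - 1) :=
      mul_le_mul h3 h6 (by positivity) (by positivity)
    have h8 := mul_le_mul_of_nonneg_left h7 hm.le
    rw [h4]
    calc _ = m * (Real.exp (-(α * r ^ 2)) * (α * (r / 4 * d))) := by ring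
      _ ≤ _ := h8
      _ = _ := by ring
  · have h1 : dd Ω x ≤ R := by
      refine (infDist_le_dist_of_mem hz).trans ?_
      rw [dist_eq_norm]
      exact hRz x hx
    have h2 : m ≤ φ x := hS x (show r / 2 ≤ dd Ω x by linarith)
    calc _ ≤ m / R * dd Ω x := mul_le_mul_of_nonneg_right (min_le_right _ _) hd0
      _ ≤ m / R * R := mul_le_mul_of_nonneg_left h1 (by positivity)
      _ = m := by field_simp
      _ ≤ φ x := h2

end Pool.Agent.P.MP_0cf84d_an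
end

-- part Pool.Agent.P.MP_0cf84d_an.DGeo0
section

/-! Tangent balls near a boundary point. -/

set_option linter.unusedSectionVars false
set_option linter.unusedVariables false

namespace Pool.Agent.P.MP_0cf84d_an

open MeasureTheory Filter Topology Metric Set Module
open scoped RealInnerProductSpace ENNReal NNReal

variable {V : Type*} [NormedAddCommGroup V] [InnerProductSpace ℝ V] [FiniteDimensional ℝ V]
  [MeasurableSpace V] [BorelSpace V] [CompleteSpace V] {Ω : Set V}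

theorem TwoB.mono {r r' : ℝ} {x₀ : V} (h : TwoB Ω r x₀) (hr' : 0 < r') (hr : r' ≤ r) :
    TwoB Ω r' x₀ := by
  obtain ⟨ν, h1, h2, h3⟩ := h
  have hn : ‖(r - r') • ν‖ = r - r' := by
    rw [norm_smul, h1, mul_one, Real.norm_of_nonneg (sub_nonneg.2 hr)]
  refine ⟨ν, h1, (ball_subset_ball' ?_).trans h2, fun z hz => ?_⟩
  · rw [dist_eq_norm, show x₀ - r' • ν - (x₀ - r • ν) = (r - r') • ν by module, hn]
    linarith
  · have h4 := h3 z hz
    rw [show z - (x₀ + r • ν) = z - (x₀ + r' • ν) - (r - r') • ν by module] at h4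
    linarith [norm_sub_le (z - (x₀ + r' • ν)) ((r - r') • ν)]

theorem twoB_loc (h : IsC11Domain Ω) {x₁ : V} (hx : x₁ ∈ frontier Ω) :
    ∃ r s, 0 < r ∧ 0 < s ∧ ∀ x₀ ∈ frontier Ω, x₀ ∈ ball x₁ s → TwoB Ω r x₀ := by
  obtain ⟨r0, L, ρ, D, hr0, hd, hL, hD, hΩ⟩ := h.2.2.2 x₁ hx
  have hδ : 0 < ‖D x₁‖ := norm_pos_iff.2 hD
  have hL0 : (0 : ℝ) ≤ L := L.2
  obtain ⟨η, hη, hη1, hη2⟩ : ∃ η : ℝ, 0 < η ∧ 2 * η ≤ r0 ∧ 2 * (L * η) < ‖D x₁‖ := by
    refine ⟨min (r0 / 2) (‖D x₁‖ / (2 * (L + 1))), by positivity,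
      by linarith [min_le_left (r0 / 2) (‖D x₁‖ / (2 * (L + 1)))], ?_⟩
    have h1 := (le_div_iff₀ (by positivity)).1 (min_le_right (r0 / 2) (‖D x₁‖ / (2 * (L + 1))))
    have h2 : 0 < min (r0 / 2) (‖D x₁‖ / (2 * (L + 1))) := by positivity
    linarith
  refine ⟨η / 2, η, half_pos hη, hη, fun x₀ hx₀ hs => ?_⟩
  have hsub : ball x₀ η ⊆ ball x₁ r0 := ball_subset_ball' (by linarith [mem_ball.1 hs])
  have hb : x₀ ∈ ball x₁ r0 := hsub (mem_ball_self hη)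
  have hm : L * η < ‖D x₀‖ := by
    have h1 := hL.dist_le_mul x₁ (mem_ball_self hr0) x₀ hb
    have h2 : (L : ℝ) * dist x₁ x₀ ≤ L * η :=
      mul_le_mul_of_nonneg_left (mem_ball'.1 hs).le hL0
    rw [dist_eq_norm] at h1
    linarith [norm_sub_norm_le (D x₁) (D x₀)]
  have hm0 : 0 < ‖D x₀‖ := lt_of_le_of_lt (by positivity) hm
  have h0 : ρ x₀ = 0 := by
    refine le_antisymm (not_lt.1 fun hp => ?_) (not_lt.1 fun hp => ?_)
    · obtain ⟨z, hz, h1, h2⟩ := ((mem_closure_iff_frequently.1 hx₀.1).and_eventually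
        ((continuousAt_const.eventually_lt (hd x₀ hb).continuousAt hp).and
          (isOpen_ball.mem_nhds hb))).exists
      exact lt_asymm h1 ((hΩ z h2).1 hz)
    · exact hx₀.2 (h.1.interior_eq.symm ▸ (hΩ x₀ hb).2 hp)
  have hT : ∀ z, ‖z - x₀‖ < η → |ρ z - D x₀ (z - x₀)| ≤ L * ‖z - x₀‖ ^ 2 := fun z hz => by
    have hc : closedBall x₀ ‖z - x₀‖ ⊆ ball x₁ r0 := (closedBall_subset_ball hz).trans hsub
    have h1 := (convex_closedBall x₀ ‖z - x₀‖).norm_image_sub_le_of_norm_hasFDerivWithin_le'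
      (f := ρ) (f' := D) (φ := D x₀) (C := L * ‖z - x₀‖)
      (fun y hy => (hd y (hc hy)).hasFDerivWithinAt)
      (fun y hy => by
        rw [← dist_eq_norm]
        exact (hL.dist_le_mul y (hc hy) x₀ hb).trans (mul_le_mul_of_nonneg_left hy hL0))
      (mem_closedBall_self (norm_nonneg _)) (mem_closedBall_iff_norm.2 le_rfl)
    rwa [h0, sub_zero, Real.norm_eq_abs, mul_assoc, ← sq] at h1
  obtain ⟨ν, hν, hνD⟩ : ∃ ν : V, ‖ν‖ = 1 ∧ ∀ v, D x₀ v = ‖D x₀‖ * ⟪v, ν⟫ := by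
    refine ⟨‖D x₀‖⁻¹ • (InnerProductSpace.toDual ℝ V).symm (D x₀), ?_, fun v => ?_⟩
    · rw [norm_smul, LinearIsometryEquiv.norm_map, norm_inv, norm_norm, inv_mul_cancel₀ hm0.ne']
    · rw [real_inner_smul_right, mul_inv_cancel_left₀ hm0.ne', real_inner_comm,
        InnerProductSpace.toDual_symm_apply]
  have hn : ‖(η / 2) • ν‖ = η / 2 := by
    rw [norm_smul, hν, mul_one, Real.norm_of_nonneg (half_pos hη).le]
  refine ⟨ν, hν, fun z hz => ?_, fun z hz => not_lt.1 fun hlt => ?_⟩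
  · rw [mem_ball_iff_norm, show z - (x₀ - (η / 2) • ν) = z - x₀ + (η / 2) • ν by abel] at hz
    have h1 : ‖z - x₀‖ < η := by
      have := norm_sub_le (z - x₀ + (η / 2) • ν) ((η / 2) • ν)
      rw [add_sub_cancel_right] at this
      linarith
    have h2 := pow_lt_pow_left₀ hz (norm_nonneg _) two_ne_zero
    rw [norm_add_sq_real, hn, real_inner_smul_right] at h2
    have h3 := (abs_le.1 (hT z h1)).2
    rw [hνD] at h3
    have h4 : ⟪z - x₀, ν⟫ < 0 := by nlinarith [sq_nonneg ‖z - x₀‖]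
    refine (hΩ z (hsub (mem_ball_iff_norm.2 h1))).2 ?_
    nlinarith [mul_le_mul_of_nonneg_left h2.le hL0, mul_pos (sub_pos.2 hm) (neg_pos.2 h4)]
  · rw [show z - (x₀ + (η / 2) • ν) = z - x₀ - (η / 2) • ν by abel] at hlt
    have h1 : ‖z - x₀‖ < η := by
      have := norm_add_le (z - x₀ - (η / 2) • ν) ((η / 2) • ν)
      rw [sub_add_cancel] at this
      linarith
    have h2 := pow_lt_pow_left₀ hlt (norm_nonneg _) two_ne_zero
    rw [norm_sub_sq_real, hn, real_inner_smul_right] at h2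
    have h3 := (abs_le.1 (hT z h1)).1
    rw [hνD] at h3
    have h4 : 0 < ⟪z - x₀, ν⟫ := by nlinarith [sq_nonneg ‖z - x₀‖]
    have h5 := (hΩ z (hsub (mem_ball_iff_norm.2 h1))).1 hz
    nlinarith [mul_le_mul_of_nonneg_left h2.le hL0, mul_pos (sub_pos.2 hm) h4]

end Pool.Agent.P.MP_0cf84d_an
end

-- part Pool.Agent.P.MP_0cf84d_an.DGeo
section

/-! Uniform exterior and interior balls. -/

set_option linter.unusedSectionVars false
set_option linter.unusedVariables false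

namespace Pool.Agent.P.MP_0cf84d_an

open MeasureTheory Filter Topology Metric Set Module
open scoped RealInnerProductSpace ENNReal NNReal

variable {V : Type*} [NormedAddCommGroup V] [InnerProductSpace ℝ V] [FiniteDimensional ℝ V]
  [MeasurableSpace V] [BorelSpace V] [CompleteSpace V] {Ω : Set V}

theorem dgeo_unif (hΩ : OB Ω) (h : IsC11Domain Ω) :
    ∃ r, 0 < r ∧ ∀ x₀ ∈ frontier Ω, TwoB Ω r x₀ := by
  have : ProperSpace V := FiniteDimensional.proper ℝ V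
  have hc : IsCompact (frontier Ω) :=
    Metric.isCompact_of_isClosed_isBounded isClosed_frontier
      (hΩ.bd.closure.subset frontier_subset_closure)
  have key : ∃ r, 0 < r ∧ ∀ x₀ ∈ frontier Ω, x₀ ∈ frontier Ω → TwoB Ω r x₀ := by
    refine hc.induction_on
      (p := fun S => ∃ r, 0 < r ∧ ∀ x₀ ∈ S, x₀ ∈ frontier Ω → TwoB Ω r x₀) ?_ ?_ ?_ ?_
    · exact ⟨1, one_pos, fun _ h => h.elim⟩
    · rintro s t hst ⟨r, hr, H⟩
      exact ⟨r, hr, fun x hx => H x (hst hx)⟩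
    · rintro s t ⟨r, hr, H⟩ ⟨r', hr', H'⟩
      refine ⟨min r r', lt_min hr hr', fun x hx hf => ?_⟩
      rcases hx with hx | hx
      · exact (H x hx hf).mono (lt_min hr hr') (min_le_left _ _)
      · exact (H' x hx hf).mono (lt_min hr hr') (min_le_right _ _)
    · intro x hx
      obtain ⟨r, s, hr, hs, H⟩ := twoB_loc h hx
      exact ⟨ball x s, mem_nhdsWithin_of_mem_nhds (ball_mem_nhds x hs), r, hr,
        fun y hy hf => H y hf hy⟩
  obtain ⟨r, hr, H⟩ := key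
  exact ⟨r, hr, fun x hx => H x hx hx⟩

theorem dgeo_near (hΩ : OB Ω) {x : V} (hx : x ∈ Ω) :
    0 < dd Ω x ∧ ball x (dd Ω x) ⊆ Ω ∧ ∃ x₀ ∈ frontier Ω, ‖x - x₀‖ = dd Ω x := by
  have : ProperSpace V := FiniteDimensional.proper ℝ V
  have : Nontrivial V :=
    Module.nontrivial_of_finrank_pos (R := ℝ) (lt_of_lt_of_le two_pos hΩ.dim)
  have hne : (Ωᶜ).Nonempty := by
    by_contra hn
    have hu : Ω = univ := by
      rw [Set.not_nonempty_iff_eq_empty, compl_empty_iff] at hn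
      exact hn
    exact NormedSpace.unbounded_univ ℝ V (hu ▸ hΩ.bd)
  have hcl : IsClosed Ωᶜ := hΩ.op.isClosed_compl
  have hpos : 0 < dd Ω x := (hcl.notMem_iff_infDist_pos hne).1 (fun hh => hh hx)
  have hball : ball x (dd Ω x) ⊆ Ω := by
    intro z hz
    by_contra hzn
    have h1 : infDist x Ωᶜ ≤ dist x z := infDist_le_dist_of_mem hzn
    rw [mem_ball, dist_comm] at hz
    exact absurd hz (not_lt.2 h1)
  obtain ⟨x₀, hx₀, hd⟩ := hcl.exists_infDist_eq_dist hne x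
  refine ⟨hpos, hball, x₀, ?_, ?_⟩
  · rw [hΩ.op.frontier_eq]
    refine ⟨closure_mono hball ?_, hx₀⟩
    rw [closure_ball x hpos.ne', mem_closedBall, dist_comm]
    exact hd.ge
  · rw [← dist_eq_norm]
    exact hd.symm

theorem dgeo_far {x e : V} {r d : ℝ} (hd : 0 < d) (hdr : d < r) (hb : ball x d ⊆ Ω)
    (he : ∀ z ∈ Ω, r ≤ ‖z - e‖) : r + d ≤ ‖x - e‖ := by
  have hL : r ≤ ‖x - e‖ := he x (hb (mem_ball_self hd))
  have hL0 : 0 < ‖x - e‖ := by linarith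
  have key : ∀ t, 0 < t → t < d → r + t ≤ ‖x - e‖ := by
    intro t ht htd
    have hz : x - (t / ‖x - e‖) • (x - e) ∈ ball x d := by
      rw [mem_ball, dist_eq_norm, sub_sub_cancel_left, norm_neg, norm_smul, Real.norm_eq_abs,
        abs_of_pos (div_pos ht hL0), div_mul_cancel₀ _ hL0.ne']
      exact htd
    have h1 := he _ (hb hz)
    have h2 : x - (t / ‖x - e‖) • (x - e) - e = (1 - t / ‖x - e‖) • (x - e) := by
      rw [sub_smul, one_smul]
      abel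
    have h3 : 0 ≤ 1 - t / ‖x - e‖ := by
      rw [sub_nonneg, div_le_one hL0]
      linarith
    rw [h2, norm_smul, Real.norm_eq_abs, abs_of_nonneg h3, sub_mul,
      div_mul_cancel₀ _ hL0.ne'] at h1
    linarith
  by_contra hn
  rw [not_le] at hn
  have h4 := key ((‖x - e‖ - r + d) / 2) (by linarith) (by linarith)
  linarith

theorem geo (hΩ : OB Ω) (h : IsC11Domain Ω) : ∃ r, 0 < r ∧ ExtB Ω r ∧ IntB Ω r := by
  obtain ⟨r, hr, H⟩ := dgeo_unif hΩ h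
  refine ⟨r, hr, fun x hx => ?_, fun x hx hdr => ?_⟩
  · obtain ⟨hpos, hball, x₀, hx₀, hd⟩ := dgeo_near hΩ hx
    obtain ⟨ν, hν, -, he⟩ := H x₀ hx₀
    refine ⟨x₀ + r • ν, he, ?_⟩
    have hn : ‖r • ν‖ = r := by rw [norm_smul, hν, mul_one, Real.norm_eq_abs, abs_of_pos hr]
    have h1 : x - (x₀ + r • ν) = (x - x₀) - r • ν := by abel
    rw [h1]
    have h2 := norm_sub_le (x - x₀) (r • ν)
    linarith
  · obtain ⟨hpos, hball, x₀, hx₀, hd⟩ := dgeo_near hΩ hx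
    obtain ⟨ν, hν, hi, he⟩ := H x₀ hx₀
    refine ⟨x₀ - r • ν, hi, ?_⟩
    have hn : ‖r • ν‖ = r := by rw [norm_smul, hν, mul_one, Real.norm_eq_abs, abs_of_pos hr]
    have hfar := dgeo_far hpos hdr hball he
    have h1 : x - (x₀ + r • ν) = (x - x₀) - r • ν := by abel
    have h2 : x - (x₀ - r • ν) = (x - x₀) + r • ν := by abel
    rw [h1] at hfar
    rw [h2]
    have h3 := norm_add_sq_real (x - x₀) (r • ν)
    have h4 := norm_sub_sq_real (x - x₀) (r • ν)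
    rw [hn, hd] at h3 h4
    have h5 : (r + dd Ω x) ^ 2 ≤ ‖x - x₀ - r • ν‖ ^ 2 :=
      pow_le_pow_left₀ (by linarith) hfar 2
    refine abs_le_of_sq_le_sq' ?_ (by linarith) |>.2
    nlinarith

end Pool.Agent.P.MP_0cf84d_an
end

-- part Pool.Agent.P.MP_0cf84d_an.DStrict
section

/-! A strict upper solution, an upper bound for solutions. -/

set_option linter.unusedSectionVars false
set_option linter.unusedVariables false

namespace Pool.Agent.P.MP_0cf84d_an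

open MeasureTheory Filter Topology Metric Set Module
open scoped RealInnerProductSpace ENNReal NNReal

variable {V : Type*} [NormedAddCommGroup V] [InnerProductSpace ℝ V] [FiniteDimensional ℝ V]
  [MeasurableSpace V] [BorelSpace V] [CompleteSpace V] {Ω : Set V}

variable {q μ₁ μ₂ l : ℝ} {c h μ u : V → ℝ} {G : V → V}

theorem exp_bound (hΩ : OB Ω) (hD : Dat Ω q c h μ μ₁ μ₂) {v : V → ℝ} (hv : Dom Ω q v)
    (h0 : ∀ᵐ x ∂mm Ω, 0 ≤ v x) (hu : TT Ω u G) (he : WEq Ω G (rhs c h μ l H2 u G)) :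
    ∃ Cu, ∀ᵐ x ∂mm Ω, Real.exp (μ₁ * u x) - 1 ≤ Cu * v x := by
  obtain ⟨M, hM0, hM⟩ := top_bound hu.2
  have hμ2 : 0 < μ₂ := hD.pos.trans_le hD.le
  have hab : ∀ᵐ x ∂mm Ω, u x ∈ Icc (-M) M := hM.mono fun x hx => abs_le.1 hx
  have dP : ∀ s : ℝ, HasDerivAt (fun s => Real.exp (μ₂ * s)) (μ₂ * Real.exp (μ₂ * s)) s := by
    intro s
    have h1 : HasDerivAt (fun s : ℝ => μ₂ * s) μ₂ s := by simpa using (hasDerivAt_id s).const_mul μ₂
    exact h1.exp.congr_deriv (mul_comm _ _)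
  have hU : TT Ω (fun x => Real.exp (μ₂ * u x) - Real.exp (μ₂ * 0))
      (fun x => (μ₂ * Real.exp (μ₂ * u x)) • G x) :=
    chain1 hΩ hu (by linarith) hM0.le hab (P := fun s => Real.exp (μ₂ * s))
      (ψ := fun s => μ₂ * Real.exp (μ₂ * s)) (fun s _ => dP s) (by fun_prop)
  have h1 := he.le.mul hΩ hu (by linarith) hM0.le hab (ψ := fun s => μ₂ * Real.exp (μ₂ * s))
    (ψ' := fun s => μ₂ * (μ₂ * Real.exp (μ₂ * s))) (fun s _ => (dP s).const_mul μ₂) (by fun_prop)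
    (fun s _ => by positivity)
  have hg : MemLp (fun x => μ₂ * Real.exp (μ₂ * M) * (|l| * M * c x + |h x|)) (ENNReal.ofReal q)
      (mm Ω) := ((hD.cq.const_mul _).add hD.hh.abs).const_mul _
  obtain ⟨C, hC0, hC⟩ := hv _ hg (hD.c0.mono fun x hx => by positivity)
  have := hΩ.fin
  have hgi : Integrable (fun x => -(μ₂ * Real.exp (μ₂ * M) * (|l| * M * c x + |h x|))) (mm Ω) :=
    ((hΩ.two_of_q hD.hq hg).integrable one_le_two).neg
  have h2 := h1.mono' hgi (by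
    filter_upwards [hM, hD.c0, hD.mu] with x h3 h4 h5
    have e1 : Real.exp (μ₂ * u x) ≤ Real.exp (μ₂ * M) :=
      Real.exp_le_exp.2 (mul_le_mul_of_nonneg_left (le_of_abs_le h3) hμ2.le)
    have e2 : 0 < Real.exp (μ₂ * u x) := Real.exp_pos _
    have e3 : l * (c x * u x) + h x ≤ |l| * M * c x + |h x| := by
      have a1 : l * u x ≤ |l| * M := by
        calc l * u x ≤ |l * u x| := le_abs_self _
          _ = |l| * |u x| := abs_mul _ _
          _ ≤ |l| * M := mul_le_mul_of_nonneg_left h3 (abs_nonneg _)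
      have a2 := mul_le_mul_of_nonneg_right a1 h4
      have a3 := le_abs_self (h x)
      nlinarith
    have e4 : 0 ≤ |l| * M * c x + |h x| := by positivity
    have e5 : μ₂ * Real.exp (μ₂ * u x) * (l * (c x * u x) + h x) ≤
        μ₂ * Real.exp (μ₂ * M) * (|l| * M * c x + |h x|) :=
      (mul_le_mul_of_nonneg_left e3 (by positivity)).trans
        (mul_le_mul_of_nonneg_right (mul_le_mul_of_nonneg_left e1 hμ2.le) e4)
    have e6 : 0 ≤ μ₂ * Real.exp (μ₂ * u x) * ((μ₂ - μ x) * ‖G x‖ ^ 2) :=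
      mul_nonneg (by positivity) (mul_nonneg (by linarith [h5.2]) (by positivity))
    simp only [rhs, H2, inner_neg_left, real_inner_self_eq_norm_sq]
    nlinarith)
  have h3 := hC _ _ hU.1 (h2.congr (Eventually.of_forall fun x => smul_neg _ _) (EventuallyEq.refl _ _))
  refine ⟨C, ?_⟩
  filter_upwards [h3, h0] with x h4 h5
  rcases le_total 0 (u x) with h6 | h6
  · have : Real.exp (μ₁ * u x) ≤ Real.exp (μ₂ * u x) :=
      Real.exp_le_exp.2 (mul_le_mul_of_nonneg_right hD.le h6)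
    rw [mul_zero, Real.exp_zero] at h4
    linarith
  · have : Real.exp (μ₁ * u x) ≤ 1 :=
      Real.exp_le_one_iff.2 (mul_nonpos_of_nonneg_of_nonpos hD.pos.le h6)
    have := mul_nonneg hC0 h5
    linarith

theorem dstrict_real (a d : V) {m m₂ p : ℝ} (h0 : 0 ≤ m) (h1 : m ≤ m₂) (hp : 0 ≤ p)
    (h2 : p * (2 * m₂) ≤ 1) :
    m * ‖a + p • d‖ ^ 2 ≤ m * ‖a‖ ^ 2 + p * (2 * m₂ * (m * ‖a‖ ^ 2)) + p * ‖d‖ ^ 2 := by
  rw [norm_add_sq_real, inner_smul_right, norm_smul, Real.norm_eq_abs, abs_of_nonneg hp]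
  have a1 : ⟪a, d⟫ ≤ ‖a‖ * ‖d‖ := real_inner_le_norm a d
  have a2 : 2 * m * ⟪a, d⟫ ≤ 2 * m₂ * (m * ‖a‖ ^ 2) + ‖d‖ ^ 2 / 2 := by
    have b1 : 2 * m * ⟪a, d⟫ ≤ 2 * m * (‖a‖ * ‖d‖) :=
      mul_le_mul_of_nonneg_left a1 (by positivity)
    have b2 : m * (m * ‖a‖ ^ 2) ≤ m₂ * (m * ‖a‖ ^ 2) :=
      mul_le_mul_of_nonneg_right h1 (by positivity)
    nlinarith [sq_nonneg (2 * m * ‖a‖ - ‖d‖)]
  have a3 : m * p ≤ 1 / 2 := by nlinarith [mul_le_mul_of_nonneg_left h1 hp]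
  have a4 := mul_le_mul_of_nonneg_left a2 hp
  have a5 : m * p * (p * ‖d‖ ^ 2) ≤ 1 / 2 * (p * ‖d‖ ^ 2) :=
    mul_le_mul_of_nonneg_right a3 (by positivity)
  nlinarith

theorem strict (hΩ : OB Ω) (hD : Dat Ω q c h μ μ₁ μ₂) (hv : Dom Ω q fun x => -u x)
    (h0 : ∀ᵐ x ∂mm Ω, u x ≤ 0) (hu : TT Ω u G) (he : WEq Ω G (rhs c h μ l H2 u G)) :
    ∃ τ₀ κ₀ C₂ : ℝ, 0 < τ₀ ∧ 0 < κ₀ ∧ 0 < C₂ ∧ ∀ τ, 0 < τ → τ ≤ τ₀ → ∃ ω Gω, TT Ω ω Gω ∧
      (∀ᵐ x ∂mm Ω, 0 ≤ ω x - u x ∧ ω x - u x ≤ τ * C₂ * -u x) ∧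
      WGe Ω Gω (fun x => μ x * ‖Gω x‖ ^ 2 + (h x + c x * (l * u x + τ * κ₀))) := by
  have := hΩ.fin
  obtain ⟨M, hM0, hM⟩ := top_bound hu.2
  have hμ2 : 0 < μ₂ := hD.pos.trans_le hD.le
  have hg : MemLp (fun x => c x + |l * (c x * u x) + h x|) (ENNReal.ofReal q) (mm Ω) :=
    hD.cq.add (((memLp_mul_top hD.cq hu.2).const_mul l).add hD.hh).abs
  have hg0 : ∀ᵐ x ∂mm Ω, 0 ≤ c x + |l * (c x * u x) + h x| :=
    hD.c0.mono fun x hx => by positivity
  obtain ⟨w, W, hw, hW0⟩ := solve_lin hΩ le_rfl (hΩ.two_of_q hD.hq hg)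
  have hW : WEq Ω W (fun x => c x + |l * (c x * u x) + h x|) :=
    hW0.congr (EventuallyEq.refl _ _) (Eventually.of_forall fun x => by simp)
  have w0 := max_pr hΩ hw hW.ge hg0
  obtain ⟨C, hC0, hC⟩ := hv _ hg hg0
  have w1 := hC w W hw hW.le
  have hwT : TT Ω w W := hw.tt (M := C * M) (by
    filter_upwards [w0, w1, hM] with x h1 h2 h3
    rw [abs_of_nonneg h1]
    exact h2.trans (mul_le_mul_of_nonneg_left (neg_le.1 (neg_le_of_abs_le h3)) hC0))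
  have hs : TT Ω (fun x => 2 * μ₂ * (u x + w x)) (fun x => (2 * μ₂) • (G x + W x)) :=
    (hu.add hΩ hwT).smul hΩ _
  have ci : Integrable c (mm Ω) := (hΩ.two_of_q hD.hq hD.cq).integrable one_le_two
  have hi : Integrable h (mm Ω) := (hΩ.two_of_q hD.hq hD.hh).integrable one_le_two
  have sq : ∀ {F : V → V}, MemLp F 2 (mm Ω) → Integrable (fun x => μ x * ‖F x‖ ^ 2) (mm Ω) :=
    fun hF => (int_mul_top (int_sq hF) hD.mu_top).congr
      (Eventually.of_forall fun x => mul_comm _ _)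
  have f1i : Integrable (fun x => 2 * μ₂ * (μ x * ‖G x‖ ^ 2 + c x)) (mm Ω) :=
    ((sq he.l2).add ci).const_mul _
  have hS : WGe Ω (fun x => (2 * μ₂) • (G x + W x)) (fun x => 2 * μ₂ * (μ x * ‖G x‖ ^ 2 + c x)) :=
    ((he.ge.add hW.ge).smul (a := 2 * μ₂) (by positivity)).mono' f1i
      (Eventually.of_forall fun x => mul_le_mul_of_nonneg_left (by
        have := neg_abs_le (l * (c x * u x) + h x)
        simp only [rhs, H2]
        linarith) (by positivity))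
  have s0 := max_pr hΩ hs.1 hS (by
    filter_upwards [hD.c0, hD.mu] with x h1 h2
    have := hD.pos.le.trans h2.1
    positivity)
  obtain ⟨S, hS0, hSb⟩ := top_bound hs.2
  have hab : ∀ᵐ x ∂mm Ω, 2 * μ₂ * (u x + w x) ∈ Icc 0 S := by
    filter_upwards [s0, hSb] with x h1 h2
    exact ⟨h1, le_of_abs_le h2⟩
  refine ⟨1 / (2 * μ₂), 2 * μ₂ * Real.exp (-S), 2 * μ₂ * (C + 1), by positivity, by positivity,
    by positivity, fun τ hτ hτ1 => ?_⟩
  have hτ2 : τ * (2 * μ₂) ≤ 1 := (le_div_iff₀ (by positivity)).1 hτ1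
  have dE : ∀ t : ℝ, HasDerivAt (fun t => τ * Real.exp (-t)) (-(τ * Real.exp (-t))) t := by
    intro t
    exact ((hasDerivAt_neg t).exp.const_mul τ).congr_deriv (by ring)
  have hη : TT Ω (fun x => -(τ * Real.exp (-(2 * μ₂ * (u x + w x)))) - -(τ * Real.exp (-0)))
      (fun x => (τ * Real.exp (-(2 * μ₂ * (u x + w x)))) • ((2 * μ₂) • (G x + W x))) :=
    chain1 hΩ hs le_rfl hS0.le hab (P := fun t => -(τ * Real.exp (-t)))
      (ψ := fun t => τ * Real.exp (-t)) (fun t _ => (dE t).neg.congr_deriv (neg_neg _))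
      (by fun_prop)
  have h1 := hS.mul hΩ hs le_rfl hS0.le hab (ψ := fun t => τ * Real.exp (-t))
    (ψ' := fun t => -(τ * Real.exp (-t))) (fun t _ => dE t) (by fun_prop)
    (fun t _ => by positivity)
  have h2 := he.ge.add h1
  refine ⟨_, _, hu.add hΩ hη, ?_, h2.mono' ?_ ?_⟩
  · filter_upwards [hab, w1, h0] with x a1 a2 a3
    have b1 : Real.exp (-(2 * μ₂ * (u x + w x))) ≤ 1 := Real.exp_le_one_iff.2 (by linarith [a1.1])
    have b2 := Real.add_one_le_exp (-(2 * μ₂ * (u x + w x)))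
    have b3 : 2 * μ₂ * (u x + w x) ≤ 2 * μ₂ * ((C + 1) * -u x) :=
      mul_le_mul_of_nonneg_left (by linarith) (by positivity)
    have b4 : τ * (1 - Real.exp (-(2 * μ₂ * (u x + w x)))) ≤ τ * (2 * μ₂ * ((C + 1) * -u x)) :=
      mul_le_mul_of_nonneg_left (by linarith) hτ.le
    have b5 : 0 ≤ τ * (1 - Real.exp (-(2 * μ₂ * (u x + w x)))) :=
      mul_nonneg hτ.le (by linarith)
    rw [neg_zero, Real.exp_zero]
    constructor <;> linarith
  · exact (sq h2.l2).add (hi.add (int_mul_top ci ((hu.2.const_mul l).add (memLp_top_const _))))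
  · filter_upwards [hab, hD.c0, hD.mu] with x a1 a2 a3
    have b1 : Real.exp (-(2 * μ₂ * (u x + w x))) ≤ 1 := Real.exp_le_one_iff.2 (by linarith [a1.1])
    have b2 : Real.exp (-S) ≤ Real.exp (-(2 * μ₂ * (u x + w x))) :=
      Real.exp_le_exp.2 (by linarith [a1.2])
    have b3 := dstrict_real (G x) ((2 * μ₂) • (G x + W x)) (hD.pos.le.trans a3.1) a3.2
      (p := τ * Real.exp (-(2 * μ₂ * (u x + w x)))) (by positivity)
      ((mul_le_mul_of_nonneg_right (mul_le_of_le_one_right hτ.le b1) (by positivity)).trans hτ2)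
    have b4 : c x * (τ * (2 * μ₂)) * Real.exp (-S) ≤
        c x * (τ * (2 * μ₂)) * Real.exp (-(2 * μ₂ * (u x + w x))) :=
      mul_le_mul_of_nonneg_left b2 (by positivity)
    simp only [rhs, H2, real_inner_self_eq_norm_sq]
    linarith

end Pool.Agent.P.MP_0cf84d_an
end

-- part Pool.Agent.P.MP_0cf84d_an.DLse
section

/-! Combination of two upper solutions. -/

set_option linter.unusedSectionVars false
set_option linter.unusedVariables false

namespace Pool.Agent.P.MP_0cf84d_an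

open MeasureTheory Filter Topology Metric Set Module
open scoped RealInnerProductSpace ENNReal NNReal

variable {V : Type*} [NormedAddCommGroup V] [InnerProductSpace ℝ V] [FiniteDimensional ℝ V]
  [MeasurableSpace V] [BorelSpace V] [CompleteSpace V] {Ω : Set V}

theorem dlse_exp (hΩ : OB Ω) {u f : V → ℝ} {G : V → V} (hu : TT Ω u G) (h : WGe Ω G f) (m : ℝ)
    {M : ℝ} (hM : 0 < M) (hb : ∀ᵐ x ∂mm Ω, |u x| ≤ M) :
    TT Ω (fun x => Real.exp (m * u x) - Real.exp (m * 0)) (fun x => (Real.exp (m * u x) * m) • G x) ∧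
      WGe Ω (fun x => Real.exp (m * u x) • G x)
        (fun x => Real.exp (m * u x) * f x - Real.exp (m * u x) * m * ⟪G x, G x⟫) := by
  have hab : ∀ᵐ x ∂mm Ω, u x ∈ Icc (-M) M := hb.mono fun x hx => abs_le.1 hx
  have hd : ∀ s ∈ Icc (-M) M, HasDerivAt (fun s => Real.exp (m * s)) (Real.exp (m * s) * m) s :=
    fun s _ => by simpa using ((hasDerivAt_id s).const_mul m).exp
  have hc : ContinuousOn (fun s => Real.exp (m * s) * m) (Icc (-M) M) := by fun_prop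
  exact ⟨chain1 hΩ hu (by linarith) hM.le hab hd hc,
    h.mul hΩ hu (by linarith) hM.le hab hd hc fun s _ => (Real.exp_pos _).le⟩

theorem dlse_conv (p q : V) {σ : ℝ} (h0 : 0 ≤ σ) (h1 : σ ≤ 1) :
    ‖(1 - σ) • p + σ • q‖ ^ 2 ≤ (1 - σ) * ‖p‖ ^ 2 + σ * ‖q‖ ^ 2 := by
  have h := norm_add_le ((1 - σ) • p) (σ • q)
  rw [norm_smul, norm_smul, Real.norm_of_nonneg h0, Real.norm_of_nonneg (by linarith)] at h
  have h2 := pow_le_pow_left₀ (norm_nonneg _) h 2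
  nlinarith [mul_nonneg (mul_nonneg h0 (sub_nonneg.2 h1)) (sq_nonneg (‖p‖ - ‖q‖))]

theorem dlse_pos {θ : ℝ} (hθ : 0 < θ) (hθ1 : θ < 1) (a b : ℝ) : 0 < VV θ a b :=
  add_pos (mul_pos (by linarith) (Real.exp_pos _)) (mul_pos hθ (Real.exp_pos _))

theorem dlse_sg {θ : ℝ} (hθ : 0 < θ) (hθ1 : θ < 1) (a b : ℝ) : 0 ≤ sg θ a b ∧ sg θ a b ≤ 1 := by
  have h := dlse_pos hθ hθ1 a b
  refine ⟨div_nonneg (mul_pos hθ (Real.exp_pos _)).le h.le, (div_le_one h).2 ?_⟩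
  have := mul_pos (sub_pos.2 hθ1) (Real.exp_pos a)
  unfold VV
  linarith

theorem dlse_pt {θ m μ a b f₁ f₂ W σ : ℝ} (p q : V) (hW : W = (1 - θ) * a + θ * b) (h0 : 0 < W)
    (hσ : σ = θ * b / W) (s0 : 0 ≤ σ) (s1 : σ ≤ 1) (hm : m ≤ μ) :
    μ * ‖W⁻¹ • ((1 - θ) • a • p + θ • b • q)‖ ^ 2 + ((1 - σ) * f₁ + σ * f₂) ≤
      W⁻¹ * ((1 - θ) * (a * (μ * ‖p‖ ^ 2 + f₁) - a * m * ⟪p, p⟫) +
        θ * (b * (μ * ‖q‖ ^ 2 + f₂) - b * m * ⟪q, q⟫)) -
      -(W⁻¹ ^ 2) * ⟪(1 - θ) • a • p + θ • b • q, (1 - θ) • (a * m) • p + θ • (b * m) • q⟫ := by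
  have e1 : W⁻¹ * ((1 - θ) * a) = 1 - σ := by
    rw [hσ]
    field_simp
    linarith
  have e2 : W⁻¹ * (θ * b) = σ := by rw [hσ]; field_simp
  have e3 : W⁻¹ • ((1 - θ) • a • p + θ • b • q) = (1 - σ) • p + σ • q := by
    simp only [smul_add, smul_smul, e1, e2]
  have e4 : (1 - θ) • (a * m) • p + θ • (b * m) • q = m • ((1 - θ) • a • p + θ • b • q) := by
    simp only [smul_add, smul_smul]
    congr 2 <;> ring
  have e5 : W⁻¹ ^ 2 * ‖(1 - θ) • a • p + θ • b • q‖ ^ 2 = ‖(1 - σ) • p + σ • q‖ ^ 2 := by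
    rw [← e3, norm_smul, mul_pow, Real.norm_eq_abs, sq_abs]
  have h := mul_le_mul_of_nonneg_left (dlse_conv p q s0 s1) (sub_nonneg.2 hm)
  rw [e3, e4, real_inner_smul_right, real_inner_self_eq_norm_sq, real_inner_self_eq_norm_sq,
    real_inner_self_eq_norm_sq]
  have e6 : W⁻¹ * ((1 - θ) * (a * (μ * ‖p‖ ^ 2 + f₁) - a * m * ‖p‖ ^ 2) +
      θ * (b * (μ * ‖q‖ ^ 2 + f₂) - b * m * ‖q‖ ^ 2)) =
      W⁻¹ * ((1 - θ) * a) * ((μ - m) * ‖p‖ ^ 2 + f₁) + W⁻¹ * (θ * b) * ((μ - m) * ‖q‖ ^ 2 + f₂) := by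
    ring
  rw [e6, e1, e2, neg_mul, mul_left_comm (W⁻¹ ^ 2), e5]
  nlinarith

theorem lse (hΩ : OB Ω) {q μ₁ μ₂ : ℝ} {c h μ ω u f₁ f₂ : V → ℝ} {Gω G : V → V}
    (hD : Dat Ω q c h μ μ₁ μ₂) (hω : TT Ω ω Gω) (hu : TT Ω u G) (i₁ : Integrable f₁ (mm Ω))
    (i₂ : Integrable f₂ (mm Ω)) (h₁ : WGe Ω Gω (fun x => μ x * ‖Gω x‖ ^ 2 + f₁ x))
    (h₂ : WGe Ω G (fun x => μ x * ‖G x‖ ^ 2 + f₂ x)) {θ : ℝ} (hθ : 0 < θ) (hθ1 : θ < 1) :
    ∃ B, TT Ω (fun x => Real.log (VV θ (μ₁ * ω x) (μ₁ * u x)) / μ₁) B ∧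
      WGe Ω B (fun x => μ x * ‖B x‖ ^ 2 + ((1 - sg θ (μ₁ * ω x) (μ₁ * u x)) * f₁ x +
        sg θ (μ₁ * ω x) (μ₁ * u x) * f₂ x)) := by
  obtain ⟨M₁, hM₁, b₁⟩ := top_bound hω.2
  obtain ⟨M₂, hM₂, b₂⟩ := top_bound hu.2
  have hm := hD.pos
  have hM : 0 < M₁ + M₂ := add_pos hM₁ hM₂
  have c₁ : ∀ᵐ x ∂mm Ω, |ω x| ≤ M₁ + M₂ := b₁.mono fun x hx => by linarith
  have c₂ : ∀ᵐ x ∂mm Ω, |u x| ≤ M₁ + M₂ := b₂.mono fun x hx => by linarith
  obtain ⟨t₁, w₁⟩ := dlse_exp hΩ hω h₁ μ₁ hM c₁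
  obtain ⟨t₂, w₂⟩ := dlse_exp hΩ hu h₂ μ₁ hM c₂
  have hJ := (w₁.smul (sub_pos.2 hθ1).le).add (w₂.smul hθ.le)
  have hY := ((t₁.smul hΩ (1 - θ)).add hΩ (t₂.smul hΩ θ)).congr
    (v := fun x => VV θ (μ₁ * ω x) (μ₁ * u x) - 1)
    (Eventually.of_forall fun x => by simp only [VV, mul_zero, Real.exp_zero]; ring)
    EventuallyEq.rfl
  have hlo : Real.exp (-(μ₁ * (M₁ + M₂))) - 1 ≤ 0 :=
    sub_nonpos.2 (Real.exp_le_one_iff.2 (neg_nonpos.2 (mul_pos hm hM).le))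
  have hhi : 0 ≤ Real.exp (μ₁ * (M₁ + M₂)) - 1 :=
    sub_nonneg.2 (Real.one_le_exp (mul_pos hm hM).le)
  have hab : ∀ᵐ x ∂mm Ω, VV θ (μ₁ * ω x) (μ₁ * u x) - 1 ∈
      Icc (Real.exp (-(μ₁ * (M₁ + M₂))) - 1) (Real.exp (μ₁ * (M₁ + M₂)) - 1) := by
    filter_upwards [c₁, c₂] with x h1 h2
    rw [abs_le] at h1 h2
    have e1 : Real.exp (-(μ₁ * (M₁ + M₂))) ≤ Real.exp (μ₁ * ω x) :=
      Real.exp_le_exp.2 (by nlinarith [h1.1])
    have e2 : Real.exp (-(μ₁ * (M₁ + M₂))) ≤ Real.exp (μ₁ * u x) :=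
      Real.exp_le_exp.2 (by nlinarith [h2.1])
    have e3 : Real.exp (μ₁ * ω x) ≤ Real.exp (μ₁ * (M₁ + M₂)) :=
      Real.exp_le_exp.2 (by nlinarith [h1.2])
    have e4 : Real.exp (μ₁ * u x) ≤ Real.exp (μ₁ * (M₁ + M₂)) :=
      Real.exp_le_exp.2 (by nlinarith [h2.2])
    unfold VV
    constructor <;> nlinarith
  have hp : ∀ s ∈ Icc (Real.exp (-(μ₁ * (M₁ + M₂))) - 1) (Real.exp (μ₁ * (M₁ + M₂)) - 1),
      0 < 1 + s := fun s hs => by linarith [hs.1, Real.exp_pos (-(μ₁ * (M₁ + M₂)))]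
  have hc : ContinuousOn (fun s : ℝ => (1 + s)⁻¹)
      (Icc (Real.exp (-(μ₁ * (M₁ + M₂))) - 1) (Real.exp (μ₁ * (M₁ + M₂)) - 1)) :=
    (continuousOn_const.add continuousOn_id).inv₀ fun s hs => (hp s hs).ne'
  have hB := hJ.mul hΩ hY hlo hhi hab (ψ := fun s => (1 + s)⁻¹) (ψ' := fun s => -((1 + s)⁻¹ ^ 2))
    (fun s hs => by
      have := ((hasDerivAt_id' s).const_add 1).fun_inv (hp s hs).ne'
      exact this.congr_deriv (by rw [neg_div, one_div, inv_pow]))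
    (hc.pow 2).neg fun s hs => (inv_pos.2 (hp s hs)).le
  have hT := chain1 hΩ hY hlo hhi hab (P := fun s => Real.log (1 + s) / μ₁)
    (ψ := fun s => (1 + s)⁻¹ / μ₁)
    (fun s hs => by
      have := (((hasDerivAt_id s).const_add 1).log (hp s hs).ne').div_const μ₁
      simpa using this)
    (hc.div_const μ₁)
  simp only [add_sub_cancel] at hB hT
  refine ⟨_, hT.congr (Eventually.of_forall fun x => by simp) (Eventually.of_forall fun x => ?_),
    hB.mono' ?_ ?_⟩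
  · simp only [smul_add, smul_smul]
    congr 2 <;> field_simp
  · have m₁ := hω.2.1.aemeasurable
    have m₂ := hu.2.1.aemeasurable
    have hs : MemLp (fun x => sg θ (μ₁ * ω x) (μ₁ * u x)) ⊤ (mm Ω) := by
      refine memLp_top_of_bound (AEMeasurable.aestronglyMeasurable ?_) 1
        (Eventually.of_forall fun x => ?_)
      · unfold sg VV
        fun_prop
      · rw [Real.norm_of_nonneg (dlse_sg hθ hθ1 _ _).1]
        exact (dlse_sg hθ hθ1 _ _).2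
    refine ((int_mul_top (int_sq hB.l2) hD.mu_top).add
      ((i₁.sub (int_mul_top i₁ hs)).add (int_mul_top i₂ hs))).congr
        (Eventually.of_forall fun x => ?_)
    simp only [Pi.add_apply, Pi.sub_apply]
    ring
  · filter_upwards [hD.mu] with x hx
    exact dlse_pt _ _ rfl (dlse_pos hθ hθ1 _ _) rfl (dlse_sg hθ hθ1 _ _).1
      (dlse_sg hθ hθ1 _ _).2 hx.1

end Pool.Agent.P.MP_0cf84d_an
end

-- part Pool.Agent.P.MP_0cf84d_an.DReal0
section

/-! Elementary inequalities. -/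

set_option linter.unusedSectionVars false
set_option linter.unusedVariables false

namespace Pool.Agent.P.MP_0cf84d_an

open MeasureTheory Filter Topology Metric Set Module
open scoped RealInnerProductSpace ENNReal NNReal

variable {V : Type*} [NormedAddCommGroup V] [InnerProductSpace ℝ V] [FiniteDimensional ℝ V]
  [MeasurableSpace V] [BorelSpace V] [CompleteSpace V] {Ω : Set V}

theorem real_A {L M ε t m : ℝ} (hL : 0 < L) (hε : 0 < ε) (h1 : ε ≤ L / 2) (h2 : ε * M ≤ L / 4)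
    (hm : 0 ≤ m) (hmM : m ≤ M) :
    ε * m / 3 - 9 * ε ^ 2 / L ≤
      L * (t * Real.exp t - Real.exp t + 1) - ε * t * Real.exp t + ε * Real.exp t * m := by
  have hE := Real.exp_pos t
  have e1 := Real.exp_one_gt_d9
  have e2 := Real.exp_one_lt_d9
  have hq : 0 ≤ ε ^ 2 / L := by positivity
  have hεm : 0 ≤ ε * m := by positivity
  have hεM : ε * m ≤ ε * M := mul_le_mul_of_nonneg_left hmM hε.le
  have hEm : 0 ≤ ε * Real.exp t * m := by positivity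
  have hinv : Real.exp (-t) * Real.exp t = 1 := by rw [← Real.exp_add]; simp
  have e9 : 9 * ε ^ 2 / L = 9 * (ε ^ 2 / L) := by ring
  rw [e9]
  have hup : ∀ c : ℝ, c ≤ Real.exp t → c * (ε * m) ≤ ε * Real.exp t * m := fun c hc => by
    have := mul_le_mul_of_nonneg_right hc hεm
    linarith
  rcases le_total t 0 with ht | ht
  · have hn : 0 ≤ -(ε * t * Real.exp t) := by
      have : 0 ≤ ε * (-t) * Real.exp t := mul_nonneg (mul_nonneg hε.le (by linarith)) hE.le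
      linarith
    rcases le_total t (-1) with ht1 | ht1
    · have k1 : Real.exp (-t) = Real.exp 1 * Real.exp (-t - 1) := by
        rw [← Real.exp_add]; congr 1; ring
      have k2 := Real.add_one_le_exp (-t - 1)
      have k3 : 8 / 3 * (-t) ≤ Real.exp (-t) := by
        rw [k1]
        exact mul_le_mul (by linarith) (by linarith) (by linarith) (by linarith)
      have k4 := mul_le_mul_of_nonneg_right k3 hE.le
      have k5 : Real.exp t ≤ -t * Real.exp t := by nlinarith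
      have k6 : 1 / 4 ≤ t * Real.exp t - Real.exp t + 1 := by nlinarith
      have k7 := mul_le_mul_of_nonneg_left k6 hL.le
      linarith
    · have k1 : Real.exp (-t) ≤ 3 := (Real.exp_le_exp.2 (by linarith : -t ≤ 1)).trans (by linarith)
      have k2 : 1 / 3 ≤ Real.exp t := by nlinarith
      have k3 := Real.add_one_le_exp (-t)
      have k4 := mul_le_mul_of_nonneg_right k3 hE.le
      have k6 : 0 ≤ t * Real.exp t - Real.exp t + 1 := by nlinarith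
      have k7 := mul_nonneg hL.le k6
      have k8 := hup _ k2
      linarith
  · have k0 : 1 ≤ Real.exp t := Real.one_le_exp ht
    have k8 := hup _ k0
    rcases le_total t 2 with ht2 | ht2
    · have k1 : Real.exp (-t) = Real.exp (-t / 2) ^ 2 := by
        rw [← Real.exp_nat_mul]; congr 1; push_cast; ring
      have k2 := Real.add_one_le_exp (-t / 2)
      have k3 : (-t / 2 + 1) ^ 2 ≤ Real.exp (-t) := by
        rw [k1]; exact pow_le_pow_left₀ (by linarith) k2 2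
      have k4 := mul_le_mul_of_nonneg_right k3 hE.le
      have k5 : Real.exp t * t ^ 2 / 4 ≤ t * Real.exp t - Real.exp t + 1 := by nlinarith
      have k6 : Real.exp t ≤ 9 := by
        have k7 : Real.exp 2 = Real.exp 1 * Real.exp 1 := by rw [← Real.exp_add]; norm_num
        have k9 := Real.exp_le_exp.2 ht2
        nlinarith
      have k7 : -(ε ^ 2 / L) ≤ L * t ^ 2 / 4 - ε * t := by
        have k9 : ε ^ 2 / L + L * t ^ 2 / 4 - ε * t = (L * t / 2 - ε) ^ 2 / L := by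
          field_simp; ring
        have : 0 ≤ (L * t / 2 - ε) ^ 2 / L := by positivity
        linarith
      have k9 := mul_le_mul_of_nonneg_left k7 hE.le
      have k10 := mul_le_mul_of_nonneg_left k5 hL.le
      have k11 := mul_le_mul_of_nonneg_right k6 hq
      nlinarith
    · have k1 : t * Real.exp t / 2 ≤ t * Real.exp t - Real.exp t + 1 := by nlinarith
      have k2 := mul_le_mul_of_nonneg_left k1 hL.le
      have k3 := mul_le_mul_of_nonneg_right h1 (mul_nonneg ht hE.le)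
      nlinarith

/-- the identity and the estimate of step 7; `D = 1 - θ + θ e^t`, `t = u + m`, `m = v - η` -/
theorem real_B {L κ ε ε' τ θ v η u : ℝ} (hL : 0 ≤ L) (hθ : 0 < θ) (hθ1 : θ < 1) :
    (1 - θ) * (τ * κ - L * η) +
        θ * (L * ((u + (v - η)) * Real.exp (u + (v - η)) - Real.exp (u + (v - η)) + 1) -
          ε * (u + (v - η)) * Real.exp (u + (v - η)) + ε * Real.exp (u + (v - η)) * (v - η)) -
        L * θ ^ 2 * (Real.exp (u + (v - η)) - 1) ^ 2 +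
        ε' * ((1 - θ + θ * Real.exp (u + (v - η))) * Real.log (VV θ (-v + η) u)) ≤
      (1 - θ + θ * Real.exp (u + (v - η))) *
        ((1 - sg θ (-v + η) u) * (-L * v + τ * κ) + sg θ (-v + η) u * ((L - ε) * u) -
          (L - ε') * Real.log (VV θ (-v + η) u)) := by
  have hE := Real.exp_pos (u + (v - η))
  have hx := Real.exp_pos (-v + η)
  have e1 : Real.exp u = Real.exp (-v + η) * Real.exp (u + (v - η)) := by
    rw [← Real.exp_add]; congr 1; ring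
  have hD : 0 < 1 - θ + θ * Real.exp (u + (v - η)) := by
    have := mul_pos hθ hE
    linarith
  have e2 : VV θ (-v + η) u = Real.exp (-v + η) * (1 - θ + θ * Real.exp (u + (v - η))) := by
    unfold VV; rw [e1]; ring
  have e3 : Real.log (VV θ (-v + η) u)
      = -v + η + Real.log (1 - θ + θ * Real.exp (u + (v - η))) := by
    rw [e2, Real.log_mul hx.ne' hD.ne', Real.log_exp]
  have e4 : sg θ (-v + η) u
      = θ * Real.exp (u + (v - η)) / (1 - θ + θ * Real.exp (u + (v - η))) := by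
    unfold sg; rw [e2, e1]; field_simp
  have k1 := Real.log_le_sub_one_of_pos hD
  rw [e3, e4]
  generalize Real.exp (u + (v - η)) = E at *
  generalize Real.log (1 - θ + θ * E) = l at *
  have k2 : 0 ≤ L * (1 - θ + θ * E) * (1 - θ + θ * E - 1 - l) :=
    mul_nonneg (mul_nonneg hL hD.le) (by linarith)
  have k3 : (1 - θ + θ * E) *
        ((1 - θ * E / (1 - θ + θ * E)) * (-L * v + τ * κ) + θ * E / (1 - θ + θ * E) * ((L - ε) * u) -
          (L - ε') * (-v + η + l))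
      = (1 - θ) * (-L * v + τ * κ) + θ * E * ((L - ε) * u)
        - (1 - θ + θ * E) * ((L - ε') * (-v + η + l)) := by
    field_simp; ring
  rw [k3]
  linarith

theorem real_C {θ v η u M Cu : ℝ} (hθ : 0 < θ) (hθ1 : θ ≤ 1 / 2) (hv : 0 ≤ v) (hM : v ≤ M)
    (hη : η ≤ v / 2) (hη0 : 0 ≤ η) (hu : Real.exp u - 1 ≤ Cu * v)
    (hs : θ * Cu * (4 * (1 + M)) ≤ 1) : Real.log (VV θ (-v + η) u) ≤ 0 := by
  have hx := Real.exp_pos (-v + η)
  have hy := Real.exp_pos u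
  have hinv : Real.exp (v - η) * Real.exp (-v + η) = 1 := by rw [← Real.exp_add]; simp
  have k1 := mul_le_mul_of_nonneg_right (Real.add_one_le_exp (v - η)) hx.le
  have k2 : Real.exp (-v + η) ≤ 1 := Real.exp_le_one_iff.2 (by linarith)
  have hM0 : 0 < 1 + M := by linarith
  refine Real.log_nonpos ?_ ?_
  · unfold VV
    have := mul_pos hθ hy
    have := mul_pos (by linarith : 0 < 1 - θ) hx
    linarith
  unfold VV
  generalize Real.exp (-v + η) = x at *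
  have k3 : v / 2 ≤ (1 - x) * (1 + M) := by nlinarith
  have k4 : v / 4 ≤ (1 - θ) * (1 - x) * (1 + M) := by nlinarith
  have k5 : θ * (Real.exp u - 1) * (1 + M) ≤ v / 4 := by
    have k6 := mul_le_mul_of_nonneg_right (mul_le_mul_of_nonneg_left hu hθ.le) hM0.le
    have k7 := mul_le_mul_of_nonneg_right hs hv
    nlinarith
  have k8 := le_of_mul_le_mul_right (k5.trans k4) hM0
  linarith

theorem real_D {θ a b T : ℝ} (hθ : 0 < θ) (hθ1 : θ < 1) (ha : |a| ≤ T) (hb : |b| ≤ T) :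
    |Real.log (VV θ a b)| ≤ T := by
  rw [abs_le] at ha hb ⊢
  have h1 : 0 < 1 - θ := by linarith
  have l1 := mul_le_mul_of_nonneg_left (Real.exp_le_exp.2 ha.1) h1.le
  have l2 := mul_le_mul_of_nonneg_left (Real.exp_le_exp.2 hb.1) hθ.le
  have l3 := mul_le_mul_of_nonneg_left (Real.exp_le_exp.2 ha.2) h1.le
  have l4 := mul_le_mul_of_nonneg_left (Real.exp_le_exp.2 hb.2) hθ.le
  have k1 : Real.exp (-T) ≤ VV θ a b := by unfold VV; linarith
  have k2 : VV θ a b ≤ Real.exp T := by unfold VV; linarith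
  have k3 : 0 < VV θ a b := (Real.exp_pos _).trans_le k1
  exact ⟨(Real.le_log_iff_exp_le k3).2 k1, (Real.log_le_iff_le_exp k3).2 k2⟩

end Pool.Agent.P.MP_0cf84d_an
end

-- part Pool.Agent.P.MP_0cf84d_an.DReal
section

/-! The choice of the constants. -/

set_option linter.unusedSectionVars false
set_option linter.unusedVariables false

namespace Pool.Agent.P.MP_0cf84d_an

open MeasureTheory Filter Topology Metric Set Module
open scoped RealInnerProductSpace ENNReal NNReal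

variable {V : Type*} [NormedAddCommGroup V] [InnerProductSpace ℝ V] [FiniteDimensional ℝ V]
  [MeasurableSpace V] [BorelSpace V] [CompleteSpace V] {Ω : Set V}

/-- the final comparison of the constants -/
theorem dreal_core {L κ C₂ M ε τ θ v η S : ℝ} (hL : 0 < L) (hκ : 0 < κ) (hC : 0 < C₂)
    (hM : 0 < M) (hε : 0 < ε) (hθ : 0 < θ) (hθ1 : θ ≤ 1 / 2) (hS : 0 < S)
    (hτ : 0 < τ) (e1 : τ * κ = 4 * S * (θ * ε ^ 2))
    (e2 : ε * (6 * (S + L * (4 * S / κ) * C₂ * M)) ≤ κ / (2 * L * C₂))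
    (hv : 0 ≤ v) (hvM : v ≤ M) (hη : 0 ≤ η) (hη1 : η ≤ τ * C₂ * v) (hη2 : η ≤ v / 2) :
    0 ≤ (1 - θ) * (τ * κ - L * η) + θ * (ε * (v - η) / 3 - S * ε ^ 2) := by
  have p0 : 0 < θ * ε ^ 2 := by positivity
  have p1 : 0 ≤ θ * (ε * (v - η)) := by
    have : 0 ≤ v - η := by linarith
    positivity
  rcases le_total v (κ / (2 * L * C₂)) with h | h
  · have a1 : v * (2 * L * C₂) ≤ κ := (le_div_iff₀ (by positivity)).1 h
    have a2 : L * η ≤ τ * κ / 2 := by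
      have b1 : L * η ≤ L * (τ * C₂ * v) := mul_le_mul_of_nonneg_left hη1 hL.le
      have b2 : τ * (v * (2 * L * C₂)) ≤ τ * κ := mul_le_mul_of_nonneg_left a1 hτ.le
      nlinarith
    have a3 : (1 / 2) * (τ * κ / 2) ≤ (1 - θ) * (τ * κ - L * η) :=
      mul_le_mul (by linarith) (by linarith) (by positivity) (by linarith)
    nlinarith
  · have t1 : τ = 4 * S / κ * (θ * ε ^ 2) := by
      field_simp
      linarith
    have a1 : L * η ≤ L * (4 * S / κ) * C₂ * M * (θ * ε ^ 2) := by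
      have b1 : τ * C₂ * v ≤ τ * C₂ * M := mul_le_mul_of_nonneg_left hvM (by positivity)
      have b2 : L * η ≤ L * (τ * C₂ * M) := mul_le_mul_of_nonneg_left (hη1.trans b1) hL.le
      rw [t1] at b2
      linarith
    have a2 : -(L * η) ≤ (1 - θ) * (τ * κ - L * η) := by
      have b1 : 0 ≤ (1 - θ) * (τ * κ) := mul_nonneg (by linarith) (by positivity)
      have b2 : 0 ≤ θ * (L * η) := by positivity
      nlinarith
    generalize L * (4 * S / κ) * C₂ * M = W at e2 a1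
    have a3 : ε * (S + W) ≤ (v - η) / 3 := by linarith
    have a4 : (θ * ε) * (ε * (S + W)) ≤ (θ * ε) * ((v - η) / 3) :=
      mul_le_mul_of_nonneg_left a3 (by positivity)
    nlinarith

theorem numbers {L κ C₂ M τ₀ : ℝ} (hL : 0 < L) (hκ : 0 < κ) (hC : 0 < C₂) (hM : 0 < M)
    (hτ : 0 < τ₀) : ∃ ε₁, 0 < ε₁ ∧ ∀ ε, 0 < ε → ε < ε₁ → ∀ Mu Cu : ℝ, ∃ τ θ ε' : ℝ,
      0 < τ ∧ τ ≤ τ₀ ∧ 0 < θ ∧ θ < 1 ∧ 0 < ε' ∧ ε' ≤ L ∧ ∀ v η u : ℝ, 0 ≤ v → v ≤ M → 0 ≤ η →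
        η ≤ τ * C₂ * v → |u| ≤ Mu → Real.exp u - 1 ≤ Cu * v →
          Real.log (VV θ (-v + η) u) ≤ 0 ∧ (L - ε') * Real.log (VV θ (-v + η) u) ≤
            (1 - sg θ (-v + η) u) * (-L * v + τ * κ) + sg θ (-v + η) u * ((L - ε) * u) := by
  obtain ⟨S, hSd⟩ : ∃ S : ℝ, S = 9 / L + 1 := ⟨_, rfl⟩
  have hS : 0 < S := by rw [hSd]; positivity
  obtain ⟨Z, hZd⟩ : ∃ Z : ℝ, Z = 6 * (S + L * (4 * S / κ) * C₂ * M) := ⟨_, rfl⟩
  have hZ : 0 < Z := by rw [hZd]; positivity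
  refine ⟨min (L / 2) (min (L / (4 * M)) (κ / (2 * L * C₂) / Z)), by positivity, ?_⟩
  intro ε hε hε1 Mu Cu
  have c1 : ε ≤ L / 2 := hε1.le.trans (min_le_left _ _)
  have c2 : ε * M ≤ L / 4 := by
    have : ε ≤ L / (4 * M) := hε1.le.trans ((min_le_right _ _).trans (min_le_left _ _))
    have := (le_div_iff₀ (by positivity)).1 this
    linarith
  have c3 : ε * Z ≤ κ / (2 * L * C₂) :=
    (le_div_iff₀ hZ).1 (hε1.le.trans ((min_le_right _ _).trans (min_le_right _ _)))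
  obtain ⟨T, hTd⟩ : ∃ T : ℝ, T = |Mu| + M := ⟨_, rfl⟩
  have hT : 0 < T := by rw [hTd]; positivity
  obtain ⟨B, hBd⟩ : ∃ B : ℝ, B = Real.exp T + 1 := ⟨_, rfl⟩
  have hB : 0 < B := by rw [hBd]; positivity
  obtain ⟨A, hAd⟩ : ∃ A : ℝ, A = 4 * S / κ * ε ^ 2 := ⟨_, rfl⟩
  have hA : 0 < A := by rw [hAd]; positivity
  obtain ⟨θ, hθ, d1, d2, d3, d4, d5⟩ : ∃ θ : ℝ, 0 < θ ∧ θ ≤ 1 / 2 ∧ θ ≤ τ₀ / A ∧
      θ ≤ 1 / (2 * A * C₂) ∧ θ ≤ 1 / ((|Cu| + 1) * (4 * (1 + M))) ∧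
      θ ≤ ε ^ 2 / (2 * L * B ^ 2) := by
    refine ⟨min (1 / 2) (min (τ₀ / A) (min (1 / (2 * A * C₂))
      (min (1 / ((|Cu| + 1) * (4 * (1 + M)))) (ε ^ 2 / (2 * L * B ^ 2))))), by positivity,
      min_le_left _ _, (min_le_right _ _).trans (min_le_left _ _),
      (min_le_right _ _).trans ((min_le_right _ _).trans (min_le_left _ _)),
      (min_le_right _ _).trans ((min_le_right _ _).trans ((min_le_right _ _).trans
        (min_le_left _ _))),
      (min_le_right _ _).trans ((min_le_right _ _).trans ((min_le_right _ _).trans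
        (min_le_right _ _)))⟩
  have d2' : θ * A ≤ τ₀ := (le_div_iff₀ hA).1 d2
  have d3' : θ * (2 * A * C₂) ≤ 1 := (le_div_iff₀ (by positivity)).1 d3
  have d4' : θ * ((|Cu| + 1) * (4 * (1 + M))) ≤ 1 := (le_div_iff₀ (by positivity)).1 d4
  have d5' : θ * (2 * L * B ^ 2) ≤ ε ^ 2 := (le_div_iff₀ (by positivity)).1 d5
  obtain ⟨ε', hε', f1, f2⟩ : ∃ ε' : ℝ, 0 < ε' ∧ ε' ≤ L ∧ ε' ≤ θ * ε ^ 2 / (2 * B * T) :=
    ⟨min L (θ * ε ^ 2 / (2 * B * T)), by positivity, min_le_left _ _, min_le_right _ _⟩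
  have f2' : ε' * (2 * B * T) ≤ θ * ε ^ 2 := (le_div_iff₀ (by positivity)).1 f2
  refine ⟨θ * A, θ, ε', by positivity, d2', hθ, by linarith, hε', f1, ?_⟩
  intro v η u hv hvM hη hη1 hu hCu
  have hθ1 : θ < 1 := by linarith
  have hη2 : η ≤ v / 2 := by
    have : (θ * (2 * A * C₂)) * v ≤ 1 * v := mul_le_mul_of_nonneg_right d3' hv
    linarith
  have hs : θ * Cu * (4 * (1 + M)) ≤ 1 := by
    have g1 : Cu ≤ |Cu| + 1 := (le_abs_self Cu).trans (by linarith)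
    have g2 : θ * (Cu * (4 * (1 + M))) ≤ θ * ((|Cu| + 1) * (4 * (1 + M))) :=
      mul_le_mul_of_nonneg_left (mul_le_mul_of_nonneg_right g1 (by positivity)) hθ.le
    linarith
  refine ⟨real_C hθ d1 hv hvM hη2 hη hCu hs, ?_⟩
  have hMu : Mu ≤ |Mu| := le_abs_self Mu
  have hMu0 : 0 ≤ |Mu| := abs_nonneg Mu
  have rD : |Real.log (VV θ (-v + η) u)| ≤ T :=
    real_D hθ hθ1 (abs_le.2 ⟨by linarith, by linarith⟩) (by linarith)
  have rA := real_A (t := u + (v - η)) (m := v - η) hL hε c1 c2 (by linarith) (by linarith)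
  have rB := real_B (L := L) (κ := κ) (ε := ε) (ε' := ε') (τ := θ * A) (θ := θ) (v := v) (η := η)
    (u := u) hL.le hθ hθ1
  have rE := dreal_core (τ := θ * A) (S := S) hL hκ hC hM hε hθ d1 hS (by positivity)
    (by rw [hAd]; field_simp) (hZd ▸ c3) hv hvM hη hη1 hη2
  have x0 : 0 < Real.exp (u + (v - η)) := Real.exp_pos _
  have x1 : Real.exp (u + (v - η)) ≤ Real.exp T :=
    Real.exp_le_exp.2 (by linarith [(abs_le.1 hu).2])
  generalize Real.exp (u + (v - η)) = x at rA rB x0 x1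
  generalize Real.log (VV θ (-v + η) u) = y at rB rD ⊢
  have D0 : 0 < 1 - θ + θ * x := by
    have : 0 < θ * x := by positivity
    linarith
  have D1 : 1 - θ + θ * x ≤ B := by
    have : θ * x ≤ 1 * x := mul_le_mul_of_nonneg_right hθ1.le x0.le
    linarith
  have k1 : (x - 1) ^ 2 ≤ B ^ 2 := sq_le_sq' (by linarith [Real.exp_pos T]) (by linarith)
  have k2 : L * θ ^ 2 * (x - 1) ^ 2 ≤ θ * ε ^ 2 / 2 := by
    have g1 : L * θ ^ 2 * (x - 1) ^ 2 ≤ L * θ ^ 2 * B ^ 2 :=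
      mul_le_mul_of_nonneg_left k1 (by positivity)
    have g2 : θ * (θ * (2 * L * B ^ 2)) ≤ θ * ε ^ 2 := mul_le_mul_of_nonneg_left d5' hθ.le
    linarith
  have k3 : -(θ * ε ^ 2 / 2) ≤ ε' * ((1 - θ + θ * x) * y) := by
    have g1 : (1 - θ + θ * x) * (-T) ≤ (1 - θ + θ * x) * y :=
      mul_le_mul_of_nonneg_left (abs_le.1 rD).1 D0.le
    have g2 : (1 - θ + θ * x) * T ≤ B * T := mul_le_mul_of_nonneg_right D1 hT.le
    have g3 : ε' * (-(B * T)) ≤ ε' * ((1 - θ + θ * x) * y) :=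
      mul_le_mul_of_nonneg_left (by linarith) hε'.le
    linarith
  have k4 := mul_le_mul_of_nonneg_left rA hθ.le
  have k5 : θ * (ε * (v - η) / 3 - S * ε ^ 2) =
      θ * (ε * (v - η) / 3 - 9 * ε ^ 2 / L) - θ * ε ^ 2 := by
    rw [hSd]
    ring
  have k6 := le_trans (show (0 : ℝ) ≤ _ by linarith) rB
  have k7 := nonneg_of_mul_nonneg_right k6 D0
  linarith

end Pool.Agent.P.MP_0cf84d_an
end

-- part Pool.Agent.P.MP_0cf84d_an.DMain
section

/-! The dichotomy at the threshold. -/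

set_option linter.unusedSectionVars false
set_option linter.unusedVariables false

namespace Pool.Agent.P.MP_0cf84d_an

open MeasureTheory Filter Topology Metric Set Module
open scoped RealInnerProductSpace ENNReal NNReal

variable {V : Type*} [NormedAddCommGroup V] [InnerProductSpace ℝ V] [FiniteDimensional ℝ V]
  [MeasurableSpace V] [BorelSpace V] [CompleteSpace V] {Ω : Set V}

theorem exists_dat (hΩ : OB Ω) {p : ℝ≥0∞} (hp : (finrank ℝ V : ℝ≥0∞) < p) {c h μ : V → ℝ}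
    (hA : CondA Ω p c h μ) : ∃ q μ₁ μ₂, Dat Ω q c h μ μ₁ μ₂ := by
  have := hΩ.fin
  obtain ⟨hc, hh, c0, -, hμ, μ₁, μ₂, h1, h2⟩ := hA
  obtain ⟨q, hq0, hq1, hq2⟩ := ENNReal.lt_iff_exists_real_btwn.1 hp
  refine ⟨q, μ₁, max μ₁ μ₂, ?_, hc.mono_exponent hq2.le, hh.mono_exponent hq2.le, c0, hμ.1, h1,
    le_max_left _ _, h2.mono fun x hx => ⟨hx.1, hx.2.trans (le_max_right _ _)⟩⟩
  rw [← ENNReal.ofReal_natCast] at hq1
  exact (ENNReal.ofReal_lt_ofReal_iff_of_nonneg (Nat.cast_nonneg _)).1 hq1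

theorem dom_sol (hΩ : OB Ω) (hC : IsC11Domain Ω) {q μ₁ μ₂ : ℝ} {c h μ φ v : V → ℝ}
    (hD : Dat Ω q c h μ μ₁ μ₂) (hφ : IsPosEigenfun Ω c φ) {ε : ℝ} (hε : 0 < ε)
    (hv : ∀ᵐ x ∂mm Ω, ε * φ x ≤ v x) : Dom Ω q v := by
  obtain ⟨r, hr, hE, hI⟩ := geo hΩ hC
  obtain ⟨G, hG, hG0⟩ := eig_super hΩ (hΩ.two_of_q hD.hq hD.cq) hD.c0 hφ
  obtain ⟨c₀, hc₀, h1⟩ := hopf hΩ hr hI (hφ.1.mono subset_closure) hφ.2.1 hG hG0
  intro g hg hg0
  obtain ⟨C, hC0, h2⟩ := dom_dd hΩ hD.hq hr hE g hg hg0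
  refine ⟨C / (c₀ * ε), by positivity, fun u G' hu he => ?_⟩
  filter_upwards [h2 u G' hu he, hv, hΩ.mem] with x h3 h4 h5
  have h6 : c₀ * ε * dd Ω x ≤ v x := by nlinarith [h1 x h5]
  refine h3.trans ?_
  rw [div_mul_eq_mul_div, le_div_iff₀ (by positivity)]
  nlinarith

theorem upper (hΩ : OB Ω) {q μ₁ μ₂ L : ℝ} {c h μ w : V → ℝ} {D : V → V}
    (hD : Dat Ω q c h μ μ₁ μ₂) (hL : 0 < L) (hv : Dom Ω q fun x => -w x)
    (h0 : ∀ᵐ x ∂mm Ω, w x ≤ 0) (hw : TT Ω w D) (he : WEq Ω D (rhs c h μ L H2 w D)) :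
    ∃ δ, 0 < δ ∧ ∀ l ∈ Ioo (L - δ) L, (∃ u, IsSol Ω c h μ l u) →
      ∃ l', 0 ≤ l' ∧ l' < L ∧ HasNonposSol Ω c h μ l' := by
  have := hΩ.fin
  have hμ := hD.pos
  have c2 := hΩ.two_of_q hD.hq hD.cq
  have h2 := hΩ.two_of_q hD.hq hD.hh
  have c1 : Integrable c (mm Ω) := c2.integrable one_le_two
  have h1 : Integrable h (mm Ω) := h2.integrable one_le_two
  obtain ⟨τ₀, κ₀, C₂, hτ₀, hκ₀, hC₂, hs⟩ := strict hΩ hD hv h0 hw he
  obtain ⟨M, hM, hwM⟩ := top_bound hw.2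
  obtain ⟨ε₁, hε₁, hn⟩ := numbers hL (mul_pos hμ hκ₀) hC₂ (mul_pos hμ hM) hτ₀
  refine ⟨ε₁, hε₁, fun l hl ⟨u, hu⟩ => ?_⟩
  obtain ⟨G, hu, heu⟩ := (hD.isSol_iff hΩ l).1 hu
  obtain ⟨Cu, hCu⟩ := exp_bound hΩ hD hv (h0.mono fun x hx => neg_nonneg.2 hx) hu heu
  obtain ⟨Mu, hMu, huM⟩ := top_bound hu.2
  obtain ⟨τ, θ, ε', hτ, hτ1, hθ, hθ1, hε', hε'L, hnum⟩ :=
    hn (L - l) (by linarith [hl.2]) (by linarith [hl.1]) (μ₁ * Mu) (Cu / μ₁)
  obtain ⟨ω, Gω, hω, hωw, hωe⟩ := hs τ hτ hτ1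
  have i₁ : Integrable (fun x => h x + c x * (L * w x + τ * κ₀)) (mm Ω) :=
    h1.add (int_mul_top c1 ((hw.2.const_mul L).add (memLp_top_const _)))
  have i₂ : Integrable (fun x => h x + c x * (l * u x)) (mm Ω) :=
    h1.add (int_mul_top c1 (hu.2.const_mul l))
  have hue : WGe Ω G (fun x => μ x * ‖G x‖ ^ 2 + (h x + c x * (l * u x))) :=
    heu.ge.congr EventuallyEq.rfl (Eventually.of_forall fun x => by simp only [rhs, H2]; ring)
  obtain ⟨B, hβ, hβe⟩ := lse hΩ hD hω hu i₁ i₂ hωe hue hθ hθ1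
  have key : ∀ᵐ x ∂mm Ω, Real.log (VV θ (μ₁ * ω x) (μ₁ * u x)) ≤ 0 ∧
      (L - ε') * Real.log (VV θ (μ₁ * ω x) (μ₁ * u x)) ≤
        μ₁ * ((1 - sg θ (μ₁ * ω x) (μ₁ * u x)) * (L * w x + τ * κ₀) +
          sg θ (μ₁ * ω x) (μ₁ * u x) * (l * u x)) := by
    filter_upwards [h0, hwM, hωw, huM, hCu] with x a1 a2 a3 a4 a5
    have a6 := hnum (μ₁ * -w x) (μ₁ * (ω x - w x)) (μ₁ * u x) (by nlinarith)
      (mul_le_mul_of_nonneg_left ((neg_le_abs _).trans a2) hμ.le) (mul_nonneg hμ.le a3.1)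
      (by nlinarith [a3.2]) (by
        rw [abs_mul, abs_of_pos hμ]
        exact mul_le_mul_of_nonneg_left a4 hμ.le) (by
        rw [← mul_assoc, div_mul_cancel₀ _ hμ.ne']
        exact a5)
    have e : -(μ₁ * -w x) + μ₁ * (ω x - w x) = μ₁ * ω x := by ring
    rw [e] at a6
    exact ⟨a6.1, a6.2.trans (le_of_eq (by ring))⟩
  refine ⟨L - ε', by linarith, by linarith, exists_sol hΩ hD (by linarith) hβ
    (key.mono fun x hx => div_nonpos_of_nonpos_of_nonneg hx.1 hμ.le)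
    (hβe.mono' (hD.int_rhs hΩ _ hβ.2 hβe.l2) ?_)⟩
  filter_upwards [key, hD.c0] with x a1 a2
  have a3 : (L - ε') * (Real.log (VV θ (μ₁ * ω x) (μ₁ * u x)) / μ₁) ≤
      (1 - sg θ (μ₁ * ω x) (μ₁ * u x)) * (L * w x + τ * κ₀) +
        sg θ (μ₁ * ω x) (μ₁ * u x) * (l * u x) := by
    rw [← mul_div_assoc, div_le_iff₀ hμ]
    linarith [a1.2]
  have a4 := mul_le_mul_of_nonneg_left a3 a2
  simp only [rhs, H2]
  linarith

theorem dichotomy (hN : 2 ≤ finrank ℝ V) (hC : IsC11Domain Ω) {p : ℝ≥0∞}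
    (hp : (finrank ℝ V : ℝ≥0∞) < p) {c h μ φ : V → ℝ} (hA : CondA Ω p c h μ)
    (ha : ¬ HasNonposSol Ω c h μ 0) (hφ : IsPosEigenfun Ω c φ) {L : ℝ}
    (hL : IsGLB {l | 0 ≤ l ∧ HasNonposSol Ω c h μ l} L) {w : V → ℝ} (hw : IsSol Ω c h μ L w)
    {ε : ℝ} (hε : 0 < ε) (hv : ∀ᵐ x ∂mm Ω, ε * φ x ≤ -w x) :
    ∃ δ, 0 < δ ∧ ∀ l ∈ Ioo (L - δ) L, ¬ ∃ u, IsSol Ω c h μ l u := by
  have hΩ : OB Ω := ⟨hC.1, hC.2.2.1, hN⟩
  obtain ⟨q, μ₁, μ₂, hD⟩ := exists_dat hΩ hp hA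
  have h0 : ∀ᵐ x ∂mm Ω, w x ≤ 0 := by
    filter_upwards [hv, hΩ.mem] with x h1 h2
    nlinarith [mul_pos hε (hφ.2.1 x h2)]
  have hL0 : 0 ≤ L := hL.2 fun l hl => hl.1
  have hL1 : 0 < L := hL0.lt_of_ne fun e => ha (e ▸ ⟨w, hw, h0⟩)
  obtain ⟨D, hw, he⟩ := (hD.isSol_iff hΩ L).1 hw
  obtain ⟨δ, hδ, h1⟩ := upper hΩ hD hL1 (dom_sol hΩ hC hD hφ hε hv) h0 hw he
  refine ⟨δ, hδ, fun l hl hu => ?_⟩
  obtain ⟨l', h2, h3, h4⟩ := h1 l hl hu
  exact h3.not_ge (hL.1 ⟨h2, h4⟩)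

end Pool.Agent.P.MP_0cf84d_an
end
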